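import Mathlib
import Pool.Agent.W307.FK.Gen
import Pool.Agent.W262.RK.AT4
import Pool.Agent.W307.RT.Box

/-!
# Project DT: the tails of the distribution of the 2-Selmer groups

All elliptic curves over `ℚ` with full rational 2-torsion, ordered by height. For every `k` the
`k`-th moment of the orders of the 2-Selmer groups is bounded over all the curves outside of a set of
density zero (the moments over all the curves are bounded for `k ≤ 2` only). So the upper density of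
the curves whose 2-Selmer group has at least `2 ^ r` elements is at most `C_k / 2 ^ (k r)`.

Idea: for the curve `y² = x (x - D a) (x - D b)`, `a`, `b` coprime, let `n 0`, `n 1`, `n 2` be the
numbers of the prime factors of `a`, `b`, `a - b`. The `k`-th moment is weighted by
`rho T n = min (1, min_{t ∈ T} ∏_j t_j ^ n_j)`, `T` a suitable finite set of vectors with
`∏_j t_j > 1`. The weight is one if the `n_j` are close to each other, this is the normal case. In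
the expansion of the moment the unlinked sets `U` of indices give the main terms, and
`u_0 u_1 u_2 ≤ 8 ^ k` for the numbers `u_j` of the indices in the three classes. If
`u_0 u_1 u_2 < 8 ^ k` there is `t` with `∏_j t_j > 1` and `∑_j t_j u_j / 2 ^ k < 3`, so the weight
makes the contribution small. The other `U` have `u_j = 2 ^ k` for all `j`.
-/

set_option autoImplicit false

namespace Pool.Agent.TH344.DT

open Finset Pool.Agent.W262.RK Pool.Agent.W307.RT Pool.Agent.W307.RS Pool.Agent.W307.SE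
  Pool.Agent.W307.FK

open Classical in
/-- the weight: the minimum of `1` and the products `∏ j, t j ^ n j`, `t ∈ T` -/
noncomputable def rho {J : Type} [Fintype J] (T : Finset (J → ℝ)) (n : J → ℕ) : ℝ :=
  (insert (fun _ => (1 : ℝ)) T).inf' (insert_nonempty _ _) (fun t => ∏ j, t j ^ n j)

/-- the number of the primes of the class `j` -/
def nn {J ι : Type} [Fintype ι] [DecidableEq J] (cls : ι → J) (n : ι → ℕ) (j : J) : ℕ :=
  ∑ i ∈ univ.filter (fun i => cls i = j), n i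

/-- the numbers of the prime factors -/
def om {ι : Type} (d : ι → ℕ) (i : ι) : ℕ := (d i).primeFactors.card

/-- DT-FUL: the sums of the weights over all and over the small divisors. -/
def S_FUL : Prop := ∀ (w : ℝ) (c : ℕ), 0 < w → ∃ z0 : ℕ, ∀ z, z0 ≤ z → ∃ C : ℝ, 1 ≤ C ∧
  (∀ y, z < y → ∑ d ∈ (PP z y).divisors, gw w c d ≤ C * (Real.log y) ^ w) ∧
  (∀ y V : ℕ, z < y → 2 ≤ V →
    ∑ d ∈ (PP z y).divisors.filter (fun d => d ≤ V), gw w c d ≤ C * (Real.log V) ^ w)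

/-- DT-LNK: two linked large variables, with an arbitrary weight that depends on the numbers of the
prime factors only. -/
def S_LNK : Prop := ∀ (ι : Type) [Fintype ι] [DecidableEq ι] (w : ι → ℝ) (L : ι → ι → Bool)
  (κ : ι → ℤ) (c z : ℕ) (C C2 : ℝ) (E2 A : ℕ) (π : ι → Fin 4) (i j : ι),
  AT.Bd w κ c z C → 0 ≤ C2 → AT.BW C2 E2 → (∀ i, L i i = false) →
  6 * (Fintype.card ι + 2 * E2 + 4) ≤ A → π i = 2 → π j = 2 → L i j ≠ L j i →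
  ∃ C' : ℝ, ∀ φ : (ι → ℕ) → ℝ, (∀ n, |φ n| ≤ 1) → ∀ y, z < y →
    |∑ d ∈ Fintype.piFinset
        (fun b => AT.cell z y (AT.VV A (Real.log y)) (AT.YY A (Real.log y)) (π b)),
      AT.HH w L κ c d * φ (om d)| ≤ C'

/-- DT-ATW: the abstract bound for sums of products of Jacobi symbols, with the weight `rho`. -/
def S_ATW : Prop := ∀ (J ι : Type) [Fintype J] [DecidableEq J] [Fintype ι] [DecidableEq ι]
  (cls : ι → J) (w : ι → ℝ) (L : ι → ι → Bool) (κ : ι → ℤ) (c : ℕ) (K : ℝ) (T : Finset (J → ℝ)),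
  (∀ i, 0 < w i ∧ w i ≤ 1 / 2) → (∀ i, L i i = false) → (∀ i, κ i ≠ 0) → 0 ≤ K →
  (∀ t ∈ T, ∀ j, 0 < t j) →
  (∀ U : Finset ι, (∀ i ∈ U, ∀ j ∈ U, L i j = L j i) →
    (∃ t ∈ T, ∑ i ∈ U, w i * t (cls i) < K) ∨
    (∑ i ∈ U, w i ≤ K ∧ (∀ t ∈ T, ∃ θ : ℝ, 0 < θ ∧ ∑ i ∈ U, w i * t (cls i) ^ (-θ) < K) ∧
      ∀ j, j ∉ U → ∃ i ∈ U, L i j ≠ L j i)) →
  ∃ z0 : ℕ, ∀ z, z0 ≤ z → ∃ C : ℝ, ∀ y, z < y →
    |∑ d ∈ Tup ι z y, (∏ i, gw (w i) c (d i)) * Sym L κ d * rho T (nn cls (om d))| ≤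
      C * (Real.log y) ^ K

/-- DT-CMB: the unlinked sets and the vectors. -/
def S_CMB : Prop := ∀ k : ℕ, 1 ≤ k → ∃ T : Finset (Fin 3 → ℝ), (∀ t ∈ T, ∀ j, 0 < t j) ∧
  (∀ t ∈ T, 1 < ∏ j, t j) ∧
  ∀ U : Finset (IF k), (∀ i ∈ U, ∀ j ∈ U, Lk k i j = Lk k j i) →
    (∃ t ∈ T, ∑ i ∈ U, 1 / 2 ^ k * t i.1.1 < 3) ∨
    (∑ _i ∈ U, (1 / 2 ^ k : ℝ) ≤ 3 ∧
      (∀ t ∈ T, ∃ θ : ℝ, 0 < θ ∧ ∑ i ∈ U, 1 / 2 ^ k * t i.1.1 ^ (-θ) < 3) ∧
      ∀ j, j ∉ U → ∃ i ∈ U, Lk k i j ≠ Lk k j i)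

/-- DT-EXPW: expansion of the `k`-th moment over the signs into symbols, with a weight. -/
def S_EXPW : Prop := ∀ k c z y : ℕ, 2 ≤ z → ∀ Φ : (Fin 3 → ℕ) → ℝ,
  ∑ s ∈ Tup (Fin 3) z y, NF k s * (∏ j, gw 1 c (s j)) * Φ s =
    ∑ d ∈ Tup (IF k) z y, (∏ i, gw (1 / 2 ^ k) c (d i)) * Sym (Lk k) (fun _ => 1) d *
      Φ (fun j => ∏ i ∈ univ.filter (fun i : IF k => i.1.1 = j), d i)

/-- the main average with the weight -/
def MAFW (k : ℕ) (T : Finset (Fin 3 → ℝ)) : Prop := ∃ z0 : ℕ, ∀ z, z0 ≤ z → ∃ C : ℝ, ∀ y, z < y →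
  ∑ s ∈ Tup (Fin 3) z y, NF k s * rho T (om s) * ∏ j, gw 1 (Fintype.card (Fin 3)) (s j) ≤
    C * (Real.log y) ^ (Fintype.card (Fin 3))

/-- the numbers of the prime factors of `a`, `b`, `a - b` -/
def omz (t : ℤ × ℤ) : Fin 3 → ℕ :=
  ![t.1.natAbs.primeFactors.card, t.2.natAbs.primeFactors.card,
    (t.1 - t.2).natAbs.primeFactors.card]

open Classical in
/-- the weighted `k`-th power of `G` for the curve `y² = x (x - D a) (x - D b)` -/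
noncomputable def SW (k : ℕ) (T : Finset (Fin 3 → ℝ)) (G : ℤ → ℤ → ℕ) (D : ℤ) (t : ℤ × ℤ) : ℝ :=
  if IsCoprime t.1 t.2 ∧ t.1 ≠ 0 ∧ t.2 ≠ 0 ∧ t.1 ≠ t.2 then
    (G (D * t.1) (D * t.2) : ℝ) ^ k * rho T (omz t) else 0

/-- the weighted `k`-th moment over short squares -/
def AVGW (k : ℕ) (T : Finset (Fin 3 → ℝ)) (G : ℤ → ℤ → ℕ) : Prop := ∀ B : ℕ, ∃ C : ℝ, 0 ≤ C ∧
  ∀ (D N1 N2 : ℤ) (X : ℕ), D ≠ 0 → 1 ≤ X → N1.natAbs ≤ X ^ B → N2.natAbs ≤ X ^ B →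
    ∑ t ∈ Icc 1 X ×ˢ Icc 1 X, SW k T G D (N1 + (t.1 : ℤ), N2 + (t.2 : ℤ)) ≤
      C * (2 * 8 ^ k) ^ D.natAbs.primeFactors.card * X ^ 2

/-- DT-AVG: from the main average to the weighted moments over short squares. -/
def S_AVG : Prop := ∀ (k : ℕ) (T : Finset (Fin 3 → ℝ)), (∀ t ∈ T, ∀ j, 0 < t j) → MAFW k T →
  ∀ G : ℤ → ℤ → ℕ, Pool.Agent.W307.FK.G.SELFG G → AVGW k T G

/-- the numbers of the prime factors of `a`, `b`, `a - b`, divided by the greatest common divisor of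
`a` and `b` -/
def omg (t : ℤ × ℤ) : Fin 3 → ℕ :=
  omz (t.1 / (Int.gcd t.1 t.2 : ℤ), t.2 / (Int.gcd t.1 t.2 : ℤ))

/-- DT-FIN: from the short squares to the curves ordered by height. -/
def S_FIN : Prop := ∀ (k : ℕ) (T : Finset (Fin 3 → ℝ)), (∀ t ∈ T, ∀ j, 0 < t j) →
  AVGW k T (fun a b => (Sel a b).ncard) → ∃ F : ℤ × ℤ → ℤ × ℤ,
    (∀ H, Set.InjOn F (Cv 2 H : Set (ℤ × ℤ))) ∧
    (∀ H, ∀ c ∈ Cv 2 H, (F c).1 ≠ 0 ∧ (F c).2 ≠ 0 ∧ (F c).1 ≠ (F c).2 ∧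
      (F c).1.natAbs ^ 6 ≤ 16 * H ∧ (F c).2.natAbs ^ 6 ≤ 16 * H) ∧
    ∃ C : ℝ, ∀ H, ∑ c ∈ Cv 2 H, ((SelR c.1 c.2).ncard : ℝ) ^ k * rho T (omg (F c)) ≤
      C * (Cv 2 H).card

/-- DT-BAD: the pairs of weight less than one are rare. -/
def S_BAD : Prop := ∀ T : Finset (Fin 3 → ℝ), (∀ t ∈ T, ∀ j, 0 < t j) → (∀ t ∈ T, 1 < ∏ j, t j) →
  ∀ ε : ℝ, 0 < ε → ∃ N0 : ℕ, ∀ N, N0 ≤ N →
    (((Box N).filter (fun t => t.1 ≠ 0 ∧ t.2 ≠ 0 ∧ t.1 ≠ t.2 ∧ rho T (omg t) < 1)).card : ℝ) ≤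
      ε * N ^ 2

/-- the tails -/
def S_OUT : Prop := ∀ k : ℕ, ∃ C : ℝ, 0 < C ∧ ∀ r : ℕ, ∃ H0 : ℕ, ∀ H, H0 ≤ H →
  (((Cv 2 H).filter (fun c => 2 ^ r ≤ (SelR c.1 c.2).ncard)).card : ℝ) ≤
    C / 2 ^ (k * r) * (Cv 2 H).card

end Pool.Agent.TH344.DT
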