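import Mathlib
import Pool.Agent.TH344.DT.Stm

/-! Project DT: the weight `rho`. -/

set_option autoImplicit false

namespace Pool.Agent.TH344.DT

open Finset Pool.Agent.W262.RK

section
variable {J : Type} [Fintype J] {T : Finset (J → ℝ)} {n : J → ℕ}

lemma rho_le_one (T : Finset (J → ℝ)) (n : J → ℕ) : rho T n ≤ 1 := by
  classical
  unfold rho
  refine (inf'_le _ (mem_insert_self _ _)).trans ?_
  simp

lemma rho_le_prod {t : J → ℝ} (ht : t ∈ T) (n : J → ℕ) : rho T n ≤ ∏ j, t j ^ n j := by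
  classical
  unfold rho
  exact inf'_le _ (mem_insert_of_mem ht)

lemma rho_pos (hT : ∀ t ∈ T, ∀ j, 0 < t j) (n : J → ℕ) : 0 < rho T n := by
  classical
  unfold rho
  rw [lt_inf'_iff]
  intro t ht
  rcases mem_insert.1 ht with rfl | ht
  · simp
  · exact prod_pos fun j _ => pow_pos (hT t ht j) _

lemma rho_nonneg (hT : ∀ t ∈ T, ∀ j, 0 < t j) (n : J → ℕ) : 0 ≤ rho T n := (rho_pos hT n).le

lemma rho_lt_one (h : rho T n < 1) : ∃ t ∈ T, ∏ j, t j ^ n j < 1 := by
  classical
  unfold rho at h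
  rw [inf'_lt_iff] at h
  obtain ⟨t, ht, h1⟩ := h
  rcases mem_insert.1 ht with rfl | ht
  · simp at h1
  · exact ⟨t, ht, h1⟩

open Classical in
lemma one_sub_rho_le (hT : ∀ t ∈ T, ∀ j, 0 < t j) (n : J → ℕ) :
    1 - rho T n ≤ ∑ t ∈ T, (if ∏ j, t j ^ n j < 1 then (1 : ℝ) else 0) := by
  have h0 := rho_nonneg hT n
  have hnn : ∀ t ∈ T, (0 : ℝ) ≤ if ∏ j, t j ^ n j < 1 then (1 : ℝ) else 0 := by
    intro t _
    split_ifs
    · exact zero_le_one
    · exact le_rfl
  rcases (rho_le_one T n).lt_or_eq with h | h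
  · obtain ⟨t, ht, h1⟩ := rho_lt_one h
    have h2 := single_le_sum hnn ht
    rw [if_pos h1] at h2
    linarith
  · rw [h, sub_self]
    exact sum_nonneg hnn

end

section
variable {J ι : Type} [Fintype J] [DecidableEq J] [Fintype ι]

/-- the product over the classes as a product over the indices -/
lemma prod_nn (cls : ι → J) (t : J → ℝ) (n : ι → ℕ) :
    ∏ j, t j ^ nn cls n j = ∏ i, t (cls i) ^ n i := by
  rw [← prod_fiberwise univ cls]
  apply prod_congr rfl
  intro j _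
  unfold nn
  rw [← prod_pow_eq_pow_sum]
  apply prod_congr rfl
  intro i hi
  rw [(mem_filter.1 hi).2]

lemma gw_mul (w τ : ℝ) (c m : ℕ) : gw w c m * τ ^ m.primeFactors.card = gw (w * τ) c m := by
  unfold gw
  rw [← prod_const, ← prod_mul_distrib]
  apply prod_congr rfl
  intro p _
  ring

lemma prod_gw_nn (cls : ι → J) (t : J → ℝ) (w : ι → ℝ) (c : ℕ) (d : ι → ℕ) :
    (∏ i, gw (w i) c (d i)) * ∏ j, t j ^ nn cls (om d) j =
      ∏ i, gw (w i * t (cls i)) c (d i) := by
  rw [prod_nn, ← prod_mul_distrib]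
  apply prod_congr rfl
  intro i _
  exact gw_mul _ _ _ _

end

end Pool.Agent.TH344.DT
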