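import Mathlib

/-! Project DT: the normal order of the number of prime factors (Turan). -/

set_option autoImplicit false

namespace Pool.Agent.TH344.DT.Tur

open Finset Filter

/-- the primes up to the square root of `M` -/
def Q (M : ℕ) : Finset ℕ := (range (Nat.sqrt M + 1)).filter Nat.Prime

/-- the sum of the reciprocals -/
noncomputable def L (M : ℕ) : ℝ := ∑ p ∈ Q M, 1 / (p : ℝ)

/-- the number of the prime factors up to the square root of `M` -/
def o (M n : ℕ) : ℕ := ((Q M).filter (· ∣ n)).card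

lemma L_nonneg (M : ℕ) : 0 ≤ L M := sum_nonneg fun p _ => by positivity

lemma card_Q (M : ℕ) (hM : 1 ≤ M) : ((Q M).card : ℝ) ≤ M := by
  have h : (Q M).card ≤ M := by
    have h1 : Q M ⊆ Ioc 0 (Nat.sqrt M) := by
      intro p hp
      unfold Q at hp
      rw [mem_filter, mem_range] at hp
      rw [mem_Ioc]
      exact ⟨hp.2.pos, by omega⟩
    refine (card_le_card h1).trans ?_
    rw [Nat.card_Ioc]
    exact (Nat.sub_le _ _).trans (Nat.sqrt_le_self M)
  exact_mod_cast h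

lemma o_eq (M n : ℕ) : (o M n : ℝ) = ∑ p ∈ Q M, if p ∣ n then (1 : ℝ) else 0 := by
  unfold o
  rw [sum_ite, sum_const_zero, add_zero, sum_const, nsmul_eq_mul, mul_one]

lemma sum_ind (M d : ℕ) : ∑ n ∈ Ioc 0 M, (if d ∣ n then (1 : ℝ) else 0) = ((M / d : ℕ) : ℝ) := by
  rw [← Nat.Ioc_filter_dvd_card_eq_div, sum_ite, sum_const_zero, add_zero, sum_const, nsmul_eq_mul,
    mul_one]

lemma sum_o (M : ℕ) : ∑ n ∈ Ioc 0 M, (o M n : ℝ) = ∑ p ∈ Q M, ((M / p : ℕ) : ℝ) := by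
  simp only [o_eq]
  rw [sum_comm]
  exact sum_congr rfl fun p _ => sum_ind M p

lemma sum_o_ge (M : ℕ) (hM : 1 ≤ M) : (M : ℝ) * L M - (Nat.sqrt M) ≤ ∑ n ∈ Ioc 0 M, (o M n : ℝ) := by
  rw [sum_o]
  unfold L
  rw [mul_sum]
  have h1 : ((Q M).card : ℝ) ≤ Nat.sqrt M := by
    have h1 : Q M ⊆ Ioc 0 (Nat.sqrt M) := by
      intro p hp
      unfold Q at hp
      rw [mem_filter, mem_range] at hp
      rw [mem_Ioc]
      exact ⟨hp.2.pos, by omega⟩
    have := card_le_card h1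
    rw [Nat.card_Ioc, Nat.sub_zero] at this
    exact_mod_cast this
  have h2 : ∑ p ∈ Q M, ((M : ℝ) * (1 / p) - 1) ≤ ∑ p ∈ Q M, ((M / p : ℕ) : ℝ) := by
    refine sum_le_sum fun p hp => ?_
    unfold Q at hp
    rw [mem_filter] at hp
    have hp0 : (0 : ℝ) < p := by exact_mod_cast hp.2.pos
    have h3 : M < (M / p + 1) * p := by
      rw [add_mul, one_mul]
      exact Nat.lt_div_mul_add hp.2.pos
    have h4 : (M : ℝ) < ((M / p : ℕ) + 1) * p := by exact_mod_cast h3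
    have h5 : (M : ℝ) * (1 / p) < (M / p : ℕ) + 1 := by
      rw [mul_one_div, div_lt_iff₀ hp0]
      exact h4
    linarith
  rw [sum_sub_distrib, sum_const, nsmul_eq_mul, mul_one] at h2
  linarith

lemma sum_o_sq (M : ℕ) : ∑ n ∈ Ioc 0 M, (o M n : ℝ) ^ 2 ≤ M * L M ^ 2 + M * L M := by
  have h1 : ∑ n ∈ Ioc 0 M, (o M n : ℝ) ^ 2 =
      ∑ p ∈ Q M, ∑ q ∈ Q M, ∑ n ∈ Ioc 0 M, (if p ∣ n ∧ q ∣ n then (1 : ℝ) else 0) := by
    simp only [o_eq]
    have : ∀ n : ℕ, (∑ p ∈ Q M, if p ∣ n then (1 : ℝ) else 0) ^ 2 =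
        ∑ p ∈ Q M, ∑ q ∈ Q M, (if p ∣ n ∧ q ∣ n then (1 : ℝ) else 0) := by
      intro n
      rw [sq, sum_mul_sum]
      refine sum_congr rfl fun p _ => sum_congr rfl fun q _ => ?_
      by_cases h1 : p ∣ n <;> by_cases h2 : q ∣ n <;> simp [h1, h2]
    simp only [this]
    rw [sum_comm]
    refine sum_congr rfl fun p _ => ?_
    rw [sum_comm]
  rw [h1]
  have h2 : ∀ p ∈ Q M, ∀ q ∈ Q M, ∑ n ∈ Ioc 0 M, (if p ∣ n ∧ q ∣ n then (1 : ℝ) else 0) ≤
      (M : ℝ) * (1 / p) * (1 / q) + (if p = q then (M : ℝ) * (1 / p) else 0) := by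
    intro p hp q hq
    unfold Q at hp hq
    rw [mem_filter] at hp hq
    by_cases hpq : p = q
    · subst hpq
      rw [if_pos rfl]
      simp only [and_self]
      rw [sum_ind]
      have h3 : ((M / p : ℕ) : ℝ) ≤ (M : ℝ) / p := Nat.cast_div_le
      have h4 : (0 : ℝ) ≤ (M : ℝ) * (1 / p) * (1 / p) := by positivity
      have h5 : (M : ℝ) * (1 / p) = (M : ℝ) / p := mul_one_div _ _
      linarith
    · rw [if_neg hpq, add_zero]
      have h3 : ∀ n, (p ∣ n ∧ q ∣ n) ↔ p * q ∣ n := fun n =>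
        ⟨fun h => Nat.Coprime.mul_dvd_of_dvd_of_dvd ((Nat.coprime_primes hp.2 hq.2).2 hpq) h.1 h.2,
          fun h => ⟨(dvd_mul_right _ _).trans h, (dvd_mul_left _ _).trans h⟩⟩
      simp only [h3]
      rw [sum_ind]
      have h4 : ((M / (p * q) : ℕ) : ℝ) ≤ (M : ℝ) / ((p * q : ℕ) : ℝ) := Nat.cast_div_le
      rw [Nat.cast_mul] at h4
      refine h4.trans (le_of_eq ?_)
      have hp0 : (p : ℝ) ≠ 0 := by exact_mod_cast hp.2.ne_zero
      have hq0 : (q : ℝ) ≠ 0 := by exact_mod_cast hq.2.ne_zero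
      field_simp
  refine (sum_le_sum fun p hp => sum_le_sum fun q hq => h2 p hp q hq).trans (le_of_eq ?_)
  simp only [sum_add_distrib]
  congr 1
  · unfold L
    rw [sq, sum_mul_sum, mul_sum]
    refine sum_congr rfl fun p _ => ?_
    rw [mul_sum]
    exact sum_congr rfl fun q _ => by ring
  · unfold L
    rw [mul_sum]
    refine sum_congr rfl fun p hp => ?_
    rw [sum_ite_eq, if_pos hp]

/-- Turan's inequality -/
lemma turan (M : ℕ) (hM : 1 ≤ M) : ∑ n ∈ Ioc 0 M, ((o M n : ℝ) - L M) ^ 2 ≤ 3 * M * L M := by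
  have h1 := sum_o_ge M hM
  have h2 := sum_o_sq M
  have h0 := L_nonneg M
  have h3 : ∑ n ∈ Ioc 0 M, ((o M n : ℝ) - L M) ^ 2 = ∑ n ∈ Ioc 0 M, (o M n : ℝ) ^ 2 -
      2 * L M * ∑ n ∈ Ioc 0 M, (o M n : ℝ) + M * L M ^ 2 := by
    have h4 : ∀ n : ℕ, ((o M n : ℝ) - L M) ^ 2 = (o M n : ℝ) ^ 2 - 2 * L M * (o M n : ℝ) +
      L M ^ 2 := fun n => by ring
    simp only [h4]
    rw [sum_add_distrib, sum_sub_distrib, ← mul_sum, sum_const, Nat.card_Ioc, Nat.sub_zero,
      nsmul_eq_mul]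
  rw [h3]
  have h5 : ((Nat.sqrt M : ℕ) : ℝ) ≤ M := by exact_mod_cast Nat.sqrt_le_self M
  have h6 : 2 * L M * ((M : ℝ) * L M - (Nat.sqrt M)) ≤ 2 * L M * ∑ n ∈ Ioc 0 M, (o M n : ℝ) :=
    mul_le_mul_of_nonneg_left h1 (by positivity)
  have h7 : 2 * L M * (Nat.sqrt M : ℝ) ≤ 2 * L M * M :=
    mul_le_mul_of_nonneg_left h5 (by positivity)
  nlinarith

open Classical in
/-- the numbers with an unusual number of prime factors -/
noncomputable def S (M : ℕ) (δ : ℝ) : Finset ℕ :=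
  (Ioc 0 M).filter (fun n => δ * L M < |(n.primeFactors.card : ℝ) - L M|)

lemma o_le (M n : ℕ) (hn : n ≠ 0) : o M n ≤ n.primeFactors.card := by
  apply card_le_card
  intro p hp
  unfold Q at hp
  rw [mem_filter, mem_filter] at hp
  rw [Nat.mem_primeFactors]
  exact ⟨hp.1.2, hp.2, hn⟩

lemma le_o (M n : ℕ) (hn : n ≠ 0) (hM : n ≤ M) : n.primeFactors.card ≤ o M n + 1 := by
  classical
  have h1 : n.primeFactors ⊆ (Q M).filter (· ∣ n) ∪ n.primeFactors.filter (fun p => p ∉ Q M) := by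
    intro p hp
    rw [mem_union, mem_filter, mem_filter]
    by_cases h : p ∈ Q M
    · exact Or.inl ⟨h, Nat.dvd_of_mem_primeFactors hp⟩
    · exact Or.inr ⟨hp, h⟩
  refine (card_le_card h1).trans ((card_union_le _ _).trans (Nat.add_le_add_left ?_ _))
  rw [card_le_one]
  intro p hp q hq
  rw [mem_filter, Nat.mem_primeFactors] at hp hq
  by_contra hpq
  have h2 : p * q ∣ n := Nat.Coprime.mul_dvd_of_dvd_of_dvd
    ((Nat.coprime_primes hp.1.1 hq.1.1).2 hpq) hp.1.2.1 hq.1.2.1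
  have h3 : p * q ≤ n := Nat.le_of_dvd (Nat.pos_of_ne_zero hn) h2
  have h4 : Nat.sqrt M + 1 ≤ p := by
    by_contra h
    exact hp.2 (by unfold Q; rw [mem_filter, mem_range]; exact ⟨by omega, hp.1.1⟩)
  have h5 : Nat.sqrt M + 1 ≤ q := by
    by_contra h
    exact hq.2 (by unfold Q; rw [mem_filter, mem_range]; exact ⟨by omega, hq.1.1⟩)
  have h6 : M < (Nat.sqrt M + 1) * (Nat.sqrt M + 1) := Nat.lt_succ_sqrt M
  have h7 : (Nat.sqrt M + 1) * (Nat.sqrt M + 1) ≤ p * q := Nat.mul_le_mul h4 h5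
  omega

lemma card_S (M : ℕ) (hM : 1 ≤ M) (δ : ℝ) (hδ : 0 < δ) (hL : 2 ≤ δ * L M) :
    ((S M δ).card : ℝ) * (δ ^ 2 * L M) ≤ 12 * M := by
  have hL0 : 0 < L M := by
    have : 0 < δ * L M := by linarith
    exact pos_of_mul_pos_right this hδ.le
  have h1 : ((S M δ).card : ℝ) * (δ * L M / 2) ^ 2 ≤ 3 * M * L M := by
    refine le_trans ?_ (turan M hM)
    rw [← nsmul_eq_mul, ← sum_const]
    refine le_trans (sum_le_sum (g := fun n => ((o M n : ℝ) - L M) ^ 2) fun n hn => ?_) ?_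
    · unfold S at hn
      rw [mem_filter, mem_Ioc] at hn
      have h2 := o_le M n (by omega)
      have h3 := le_o M n (by omega) hn.1.2
      have h2' : (o M n : ℝ) ≤ n.primeFactors.card := by exact_mod_cast h2
      have h3' : (n.primeFactors.card : ℝ) ≤ o M n + 1 := by exact_mod_cast h3
      have h4 : δ * L M / 2 ≤ |(o M n : ℝ) - L M| := by
        have h5 : |(n.primeFactors.card : ℝ) - L M| ≤
            |(o M n : ℝ) - L M| + |(n.primeFactors.card : ℝ) - o M n| := by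
          have := abs_add_le ((o M n : ℝ) - L M) ((n.primeFactors.card : ℝ) - o M n)
          have e : (o M n : ℝ) - L M + ((n.primeFactors.card : ℝ) - o M n) =
            (n.primeFactors.card : ℝ) - L M := by ring
          rwa [e] at this
        have h6 : |(n.primeFactors.card : ℝ) - o M n| ≤ 1 := by
          rw [abs_le]
          constructor <;> linarith
        linarith [hn.2]
      rw [← sq_abs ((o M n : ℝ) - L M)]
      exact pow_le_pow_left₀ (by positivity) h4 2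
    · refine sum_le_sum_of_subset_of_nonneg (filter_subset _ _) fun n _ _ => sq_nonneg _
  have h2 : ((S M δ).card : ℝ) * (δ ^ 2 * L M) * L M ≤ 12 * M * L M := by nlinarith
  exact le_of_mul_le_mul_right h2 hL0

lemma L_tendsto : Tendsto L atTop atTop := by
  have h1 : Tendsto (fun n : ℕ => ∑ i ∈ range n,
      Set.indicator {p : ℕ | p.Prime} (fun n : ℕ => (1 : ℝ) / n) i) atTop atTop := by
    rw [← not_summable_iff_tendsto_nat_atTop_of_nonneg]
    · exact not_summable_one_div_on_primes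
    · intro n
      unfold Set.indicator
      split_ifs <;> positivity
  have h2 : Tendsto (fun M : ℕ => Nat.sqrt M + 1) atTop atTop := by
    refine tendsto_atTop_mono (fun n => Nat.le_succ _) ?_
    refine tendsto_atTop_atTop.2 fun b => ⟨b * b, fun a ha => ?_⟩
    rw [Nat.le_sqrt]
    exact ha
  refine (h1.comp h2).congr fun M => ?_
  unfold L Q
  rw [sum_filter]
  simp only [Function.comp]
  refine sum_congr rfl fun p _ => ?_
  unfold Set.indicator
  by_cases h : p.Prime <;> simp [h]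

/-- **the normal order** -/
theorem small (δ : ℝ) (hδ : 0 < δ) (ε : ℝ) (hε : 0 < ε) : ∀ᶠ M in atTop,
    ((S M δ).card : ℝ) ≤ ε * M := by
  have h1 := L_tendsto.eventually_ge_atTop (2 / δ)
  have h2 := L_tendsto.eventually_ge_atTop (12 / (ε * δ ^ 2))
  filter_upwards [h1, h2, eventually_ge_atTop 1] with M h1 h2 h3
  have h4 : 2 ≤ δ * L M := by
    rw [div_le_iff₀ hδ] at h1
    linarith
  have h5 := card_S M h3 δ hδ h4
  have h6 : 12 ≤ L M * (ε * δ ^ 2) := by
    rwa [div_le_iff₀ (by positivity)] at h2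
  have hL : 0 < L M := by
    by_contra h
    have : L M * (ε * δ ^ 2) ≤ 0 := mul_nonpos_of_nonpos_of_nonneg (not_lt.1 h) (by positivity)
    linarith
  have h7 : ((S M δ).card : ℝ) * (δ ^ 2 * L M) ≤ ε * M * (δ ^ 2 * L M) := by
    have : (12 : ℝ) * M ≤ L M * (ε * δ ^ 2) * M := mul_le_mul_of_nonneg_right h6 (by positivity)
    calc _ ≤ 12 * (M : ℝ) := h5
      _ ≤ L M * (ε * δ ^ 2) * M := this
      _ = _ := by ring
  exact le_of_mul_le_mul_right h7 (by positivity)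

end Pool.Agent.TH344.DT.Tur
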