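import Mathlib
import Pool.Agent.TH344.DT.Rho
import Pool.Agent.TH344.DT.Tur

/-! Project DT: the pairs of weight less than one are rare. -/

set_option autoImplicit false

namespace Pool.Agent.TH344.DT

open Finset Filter Pool.Agent.W262.RK Pool.Agent.W307.RT

lemma mem_Box1 {N : ℕ} {t : ℤ × ℤ} : t ∈ Box N ↔ t.1.natAbs ≤ N ∧ t.2.natAbs ≤ N := by
  unfold Box
  rw [mem_product, mem_Icc, mem_Icc]
  omega

/-- the integers of given absolute value -/
lemma card_natAbs (N : ℕ) (S : Finset ℕ) (x : ℤ) :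
    (((Icc (-(N : ℤ)) N).filter (fun a => (a - x).natAbs ∈ S)).card) ≤ 2 * S.card := by
  classical
  have h : (Icc (-(N : ℤ)) N).filter (fun a => (a - x).natAbs ∈ S) ⊆
      S.image (fun m : ℕ => x + (m : ℤ)) ∪ S.image (fun m : ℕ => x - (m : ℤ)) := by
    intro a ha
    rw [mem_filter] at ha
    rw [mem_union, mem_image, mem_image]
    rcases Int.natAbs_eq (a - x) with h | h
    · exact Or.inl ⟨_, ha.2, by omega⟩
    · exact Or.inr ⟨_, ha.2, by omega⟩
  refine (card_le_card h).trans ((card_union_le _ _).trans ?_)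
  rw [two_mul]
  exact Nat.add_le_add card_image_le card_image_le

lemma card_Icc1 (N : ℕ) : (Icc (-(N : ℤ)) N).card = 2 * N + 1 := by
  rw [Int.card_Icc]
  omega

lemma card1 (N : ℕ) (S : Finset ℕ) :
    ((Box N).filter (fun t => t.1.natAbs ∈ S)).card ≤ (2 * N + 1) * (2 * S.card) := by
  classical
  unfold Box
  have h : ((Icc (-(N : ℤ)) N ×ˢ Icc (-(N : ℤ)) N).filter (fun t => t.1.natAbs ∈ S)) ⊆
      ((Icc (-(N : ℤ)) N).filter (fun a => (a - 0).natAbs ∈ S)) ×ˢ Icc (-(N : ℤ)) N := by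
    intro t ht
    rw [mem_filter, mem_product] at ht
    rw [mem_product, mem_filter, sub_zero]
    exact ⟨⟨ht.1.1, ht.2⟩, ht.1.2⟩
  refine (card_le_card h).trans ?_
  rw [card_product, card_Icc1, mul_comm]
  exact Nat.mul_le_mul_left _ (card_natAbs N S 0)

lemma card2 (N : ℕ) (S : Finset ℕ) :
    ((Box N).filter (fun t => t.2.natAbs ∈ S)).card ≤ (2 * N + 1) * (2 * S.card) := by
  classical
  unfold Box
  have h : ((Icc (-(N : ℤ)) N ×ˢ Icc (-(N : ℤ)) N).filter (fun t => t.2.natAbs ∈ S)) ⊆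
      Icc (-(N : ℤ)) N ×ˢ ((Icc (-(N : ℤ)) N).filter (fun a => (a - 0).natAbs ∈ S)) := by
    intro t ht
    rw [mem_filter, mem_product] at ht
    rw [mem_product, mem_filter, sub_zero]
    exact ⟨ht.1.1, ht.1.2, ht.2⟩
  refine (card_le_card h).trans ?_
  rw [card_product, card_Icc1]
  exact Nat.mul_le_mul_left _ (card_natAbs N S 0)

lemma card3 (N : ℕ) (S : Finset ℕ) :
    ((Box N).filter (fun t => (t.1 - t.2).natAbs ∈ S)).card ≤ (2 * N + 1) * (2 * S.card) := by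
  classical
  unfold Box
  rw [card_filter, sum_product_right]
  have h : ∀ y ∈ Icc (-(N : ℤ)) N, ∑ x ∈ Icc (-(N : ℤ)) N,
      (if ((x, y).1 - (x, y).2).natAbs ∈ S then 1 else 0) ≤ 2 * S.card := by
    intro y _
    rw [← card_filter]
    exact card_natAbs N S y
  refine (sum_le_card_nsmul _ _ _ h).trans ?_
  rw [card_Icc1, smul_eq_mul]

/-- the pairs with a large common divisor -/
lemma card_gcd (N G : ℕ) (hG : 1 ≤ G) :
    (((Box N).filter (fun t => t.1 ≠ 0 ∧ t.2 ≠ 0 ∧ G < Int.gcd t.1 t.2)).card : ℝ) ≤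
      4 * N ^ 2 / G := by
  classical
  have h1 : (Box N).filter (fun t => t.1 ≠ 0 ∧ t.2 ≠ 0 ∧ G < Int.gcd t.1 t.2) ⊆
      (Ioc G N).biUnion (fun g => ((Icc (-((N / g : ℕ) : ℤ)) ((N / g : ℕ) : ℤ)).erase 0 ×ˢ
        (Icc (-((N / g : ℕ) : ℤ)) ((N / g : ℕ) : ℤ)).erase 0).image
          (fun s => ((g : ℤ) * s.1, (g : ℤ) * s.2))) := by
    intro t ht
    rw [mem_filter, mem_Box1] at ht
    obtain ⟨⟨h1, h2⟩, h3, h4, h5⟩ := ht
    set g := Int.gcd t.1 t.2 with hg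
    have hg0 : 0 < g := by omega
    obtain ⟨a, ha⟩ : (g : ℤ) ∣ t.1 := Int.gcd_dvd_left _ _
    obtain ⟨b, hb⟩ : (g : ℤ) ∣ t.2 := Int.gcd_dvd_right _ _
    have ha0 : a ≠ 0 := by
      rintro rfl
      rw [mul_zero] at ha
      exact h3 ha
    have hb0 : b ≠ 0 := by
      rintro rfl
      rw [mul_zero] at hb
      exact h4 hb
    have ha1 : a.natAbs * g ≤ N := by
      rw [ha, Int.natAbs_mul, Int.natAbs_natCast, mul_comm] at h1
      exact h1
    have hb1 : b.natAbs * g ≤ N := by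
      rw [hb, Int.natAbs_mul, Int.natAbs_natCast, mul_comm] at h2
      exact h2
    have ha2 : a.natAbs ≤ N / g := (Nat.le_div_iff_mul_le hg0).2 ha1
    have hb2 : b.natAbs ≤ N / g := (Nat.le_div_iff_mul_le hg0).2 hb1
    have hgN : g ≤ N := by
      have : 1 * g ≤ a.natAbs * g := Nat.mul_le_mul_right _ (Int.natAbs_pos.2 ha0)
      omega
    rw [mem_biUnion]
    refine ⟨g, mem_Ioc.2 ⟨h5, hgN⟩, ?_⟩
    rw [mem_image]
    refine ⟨(a, b), ?_, ?_⟩
    · rw [mem_product, mem_erase, mem_erase, mem_Icc, mem_Icc]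
      exact ⟨⟨ha0, by omega, by omega⟩, hb0, by omega, by omega⟩
    · rw [← ha, ← hb]
  have h2 : (((Box N).filter (fun t => t.1 ≠ 0 ∧ t.2 ≠ 0 ∧ G < Int.gcd t.1 t.2)).card : ℝ) ≤
      ∑ g ∈ Ioc G N, 4 * (N : ℝ) ^ 2 * (1 / (g : ℝ) ^ 2) := by
    have h3 := (card_le_card h1).trans card_biUnion_le
    refine (Nat.cast_le.2 h3).trans ?_
    rw [Nat.cast_sum]
    refine sum_le_sum fun g hg => ?_
    rw [mem_Ioc] at hg
    have hg0 : (0 : ℝ) < g := by exact_mod_cast (by omega : 0 < g)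
    have h4 : ∀ m : ℕ, ((Icc (-(m : ℤ)) (m : ℤ)).erase 0).card = 2 * m := by
      intro m
      rw [card_erase_of_mem (by rw [mem_Icc]; omega), card_Icc1]
      omega
    refine (Nat.cast_le.2 card_image_le).trans ?_
    rw [card_product, h4, Nat.cast_mul, Nat.cast_mul, Nat.cast_two]
    have h5 : ((N / g : ℕ) : ℝ) ≤ (N : ℝ) / g := Nat.cast_div_le
    have h6 : (2 * ((N / g : ℕ) : ℝ)) * (2 * ((N / g : ℕ) : ℝ)) ≤ (2 * ((N : ℝ) / g)) * (2 * ((N : ℝ) / g)) := by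
      gcongr
    refine h6.trans (le_of_eq ?_)
    field_simp
    ring
  refine h2.trans ?_
  rw [← mul_sum, ← mul_one_div (4 * (N : ℝ) ^ 2) (G : ℝ)]
  refine mul_le_mul_of_nonneg_left ?_ (by positivity)
  have h7 : ∀ n : ℕ, G ≤ n → ∑ g ∈ Ioc G n, 1 / (g : ℝ) ^ 2 ≤ 1 / (G : ℝ) - 1 / (n : ℝ) := by
    intro n hn
    induction n, hn using Nat.le_induction with
    | base => simp
    | succ n hn ih =>
      rw [← insert_Ioc_right_eq_Ioc_add_one (by omega), sum_insert (by simp)]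
      have hn0 : (0 : ℝ) < n := by exact_mod_cast (by omega : 0 < n)
      have : 1 / ((n + 1 : ℕ) : ℝ) ^ 2 ≤ 1 / (n : ℝ) - 1 / ((n + 1 : ℕ) : ℝ) := by
        push_cast
        rw [div_sub_div _ _ hn0.ne' (by positivity), div_le_div_iff₀ (by positivity) (by positivity)]
        nlinarith
      linarith
  rcases le_or_gt G N with h | h
  · refine (h7 N h).trans ?_
    have : (0 : ℝ) ≤ 1 / N := by positivity
    linarith
  · rw [Ioc_eq_empty_of_le h.le, sum_empty]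
    positivity

/-- dividing by a small number -/
lemma div_omega (a : ℤ) (ha : a ≠ 0) (g : ℕ) (hg : (g : ℤ) ∣ a) :
    (a / (g : ℤ)).natAbs.primeFactors.card ≤ a.natAbs.primeFactors.card ∧
    a.natAbs.primeFactors.card ≤ (a / (g : ℤ)).natAbs.primeFactors.card + g := by
  classical
  obtain ⟨b, rfl⟩ := hg
  have hg0 : g ≠ 0 := by
    rintro rfl
    simp at ha
  have hb0 : b ≠ 0 := by
    rintro rfl
    simp at ha
  have h1 : ((g : ℤ) * b) / (g : ℤ) = b := by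
    rw [Int.mul_ediv_cancel_left]
    exact_mod_cast hg0
  rw [h1, Int.natAbs_mul, Int.natAbs_natCast,
    Nat.primeFactors_mul hg0 (Int.natAbs_ne_zero.2 hb0)]
  refine ⟨card_le_card subset_union_right, (card_union_le _ _).trans ?_⟩
  rw [add_comm]
  refine Nat.add_le_add_left ?_ _
  refine (card_le_card (t := Ioc 0 g) fun p hp => ?_).trans (by simp)
  rw [mem_Ioc]
  exact ⟨(Nat.prime_of_mem_primeFactors hp).pos, Nat.le_of_mem_primeFactors hp⟩

/-- all the three numbers are normal: the weight is one -/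
lemma prod_gt {t : Fin 3 → ℝ} (ht : ∀ j, 0 < t j) {δ L : ℝ} (hL : 0 < L)
    (hδ : δ * ∑ j, |Real.log (t j)| < Real.log (∏ j, t j)) (n : Fin 3 → ℕ)
    (hn : ∀ j, |(n j : ℝ) - L| ≤ δ * L) : 1 < ∏ j, t j ^ n j := by
  have h0 : 0 < ∏ j, t j ^ n j := prod_pos fun j _ => pow_pos (ht j) _
  rw [← Real.log_pos_iff h0.le, Real.log_prod (fun j _ => (pow_pos (ht j) _).ne')]
  simp only [Real.log_pow]
  have h1 : ∑ j, (n j : ℝ) * Real.log (t j) = L * Real.log (∏ j, t j) +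
      ∑ j, ((n j : ℝ) - L) * Real.log (t j) := by
    rw [Real.log_prod (fun j _ => (ht j).ne'), mul_sum, ← sum_add_distrib]
    exact sum_congr rfl fun j _ => by ring
  have h2 : |∑ j, ((n j : ℝ) - L) * Real.log (t j)| ≤ δ * L * ∑ j, |Real.log (t j)| := by
    refine (abs_sum_le_sum_abs _ _).trans ?_
    rw [mul_sum]
    refine sum_le_sum fun j _ => ?_
    rw [abs_mul]
    exact mul_le_mul_of_nonneg_right (hn j) (abs_nonneg _)
  rw [h1]
  have h3 := (abs_le.1 h2).1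
  have h4 : L * (δ * ∑ j, |Real.log (t j)|) < L * Real.log (∏ j, t j) :=
    mul_lt_mul_of_pos_left hδ hL
  linarith

/-- one `δ` for all the vectors -/
lemma exists_delta (T : Finset (Fin 3 → ℝ)) (hT : ∀ t ∈ T, 1 < ∏ j, t j) :
    ∃ δ : ℝ, 0 < δ ∧ ∀ t ∈ T, δ * ∑ j, |Real.log (t j)| < Real.log (∏ j, t j) := by
  have h : ∀ᶠ δ : ℝ in nhdsWithin 0 (Set.Ioi 0), ∀ t ∈ T,
      δ * ∑ j, |Real.log (t j)| < Real.log (∏ j, t j) := by
    rw [Filter.eventually_all_finset]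
    intro t ht
    have h1 : Tendsto (fun δ : ℝ => δ * ∑ j, |Real.log (t j)|) (nhdsWithin 0 (Set.Ioi 0))
        (nhds (0 * ∑ j, |Real.log (t j)|)) :=
      (tendsto_id.mul_const _).mono_left nhdsWithin_le_nhds
    rw [zero_mul] at h1
    exact h1.eventually_lt_const (Real.log_pos (hT t ht))
  have h2 : ∀ᶠ δ : ℝ in nhdsWithin 0 (Set.Ioi 0), 0 < δ := self_mem_nhdsWithin
  obtain ⟨δ, h3, h4⟩ := (h2.and h).exists
  exact ⟨δ, h3, h4⟩

/-- **DT-BAD** -/
theorem bad : S_BAD := by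
  classical
  intro T hT1 hT2 ε hε
  obtain ⟨δ, hδ, hδT⟩ := exists_delta T hT2
  obtain ⟨G, hG⟩ := exists_nat_gt (8 / ε)
  have hG0 : (0 : ℝ) < G := lt_trans (by positivity) hG
  have hG1 : 1 ≤ G := by exact_mod_cast hG0
  -- the normal order
  have hS := Tur.small (δ / 2) (by positivity) (ε / 72) (by positivity)
  have hL := Tur.L_tendsto.eventually_ge_atTop (2 * G / δ)
  obtain ⟨M0, hM0⟩ := (hS.and hL).exists_forall_of_atTop
  refine ⟨M0 + 1, fun N hN => ?_⟩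
  obtain ⟨h1, h2⟩ := hM0 (2 * N) (by omega)
  set L := Tur.L (2 * N) with hLdef
  set S := Tur.S (2 * N) (δ / 2) with hSdef
  have hL0 : 0 < L := lt_of_lt_of_le (by positivity) h2
  have hGL : (G : ℝ) ≤ δ / 2 * L := by
    rw [div_le_iff₀ hδ] at h2
    linarith
  have hsub : (Box N).filter (fun t => t.1 ≠ 0 ∧ t.2 ≠ 0 ∧ t.1 ≠ t.2 ∧ rho T (omg t) < 1) ⊆
      (((Box N).filter (fun t => t.1.natAbs ∈ S)) ∪ ((Box N).filter (fun t => t.2.natAbs ∈ S))) ∪
      (((Box N).filter (fun t => (t.1 - t.2).natAbs ∈ S)) ∪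
        (Box N).filter (fun t => t.1 ≠ 0 ∧ t.2 ≠ 0 ∧ G < Int.gcd t.1 t.2)) := by
    intro t ht
    rw [mem_filter] at ht
    obtain ⟨hb, h3, h4, h5, h6⟩ := ht
    by_contra hcon
    simp only [mem_union, mem_filter, hb, true_and, not_or, h3, h4, ne_eq, not_false_eq_true,
      not_lt] at hcon
    obtain ⟨⟨c1, c2⟩, c3, c4⟩ := hcon
    rw [mem_Box1] at hb
    set g := Int.gcd t.1 t.2 with hg
    have hgL : (g : ℝ) ≤ δ / 2 * L := (Nat.cast_le.2 c4).trans hGL
    have hg1 : (g : ℤ) ∣ t.1 := Int.gcd_dvd_left _ _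
    have hg2 : (g : ℤ) ∣ t.2 := Int.gcd_dvd_right _ _
    have key : ∀ a : ℤ, a ≠ 0 → a.natAbs ≤ 2 * N → (g : ℤ) ∣ a → a.natAbs ∉ S →
        |((a / (g : ℤ)).natAbs.primeFactors.card : ℝ) - L| ≤ δ * L := by
      intro a ha haN hga haS
      rw [hSdef] at haS
      unfold Tur.S at haS
      rw [mem_filter, mem_Ioc, not_and, not_lt] at haS
      have e1 := haS ⟨Int.natAbs_pos.2 ha, haN⟩
      obtain ⟨e2, e3⟩ := div_omega a ha g hga
      have e2' : ((a / (g : ℤ)).natAbs.primeFactors.card : ℝ) ≤ a.natAbs.primeFactors.card := by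
        exact_mod_cast e2
      have e3' : (a.natAbs.primeFactors.card : ℝ) ≤
          (a / (g : ℤ)).natAbs.primeFactors.card + g := by exact_mod_cast e3
      rw [← hLdef] at e1
      rw [abs_le] at e1 ⊢
      constructor <;> linarith [e1.1, e1.2]
    obtain ⟨t0, ht0, hlt⟩ := rho_lt_one h6
    refine absurd hlt (not_lt.2 (le_of_lt (prod_gt (hT1 t0 ht0) hL0 (hδT t0 ht0) _ ?_)))
    intro j
    unfold omg omz
    fin_cases j
    · exact key t.1 h3 (by omega) hg1 c1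
    · exact key t.2 h4 (by omega) hg2 c2
    · have e : t.1 / (g : ℤ) - t.2 / (g : ℤ) = (t.1 - t.2) / (g : ℤ) := by
        rw [Int.sub_ediv_of_dvd _ hg2]
      show |(((t.1 / (g : ℤ)) - (t.2 / (g : ℤ))).natAbs.primeFactors.card : ℝ) - L| ≤ δ * L
      rw [e]
      exact key (t.1 - t.2) (sub_ne_zero.2 h5) (by omega) (dvd_sub hg1 hg2) c3
  have hN1 : (1 : ℝ) ≤ N := by exact_mod_cast (by omega : 1 ≤ N)
  have hcard : ((2 * N + 1 : ℕ) : ℝ) * (2 * S.card) ≤ ε / 6 * N ^ 2 := by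
    push_cast at h1 ⊢
    have e1 : (2 * (N : ℝ) + 1) ≤ 3 * N := by linarith
    have e2 : (2 * (N : ℝ) + 1) * (2 * S.card) ≤ (3 * N) * (2 * (ε / 72 * (2 * N))) := by
      gcongr
    refine e2.trans (le_of_eq ?_)
    ring
  have k1 : (((Box N).filter (fun t => t.1.natAbs ∈ S)).card : ℝ) ≤ ε / 6 * N ^ 2 :=
    le_trans (by exact_mod_cast card1 N S) hcard
  have k2 : (((Box N).filter (fun t => t.2.natAbs ∈ S)).card : ℝ) ≤ ε / 6 * N ^ 2 :=
    le_trans (by exact_mod_cast card2 N S) hcard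
  have k3 : (((Box N).filter (fun t => (t.1 - t.2).natAbs ∈ S)).card : ℝ) ≤ ε / 6 * N ^ 2 :=
    le_trans (by exact_mod_cast card3 N S) hcard
  have k4 : (((Box N).filter (fun t => t.1 ≠ 0 ∧ t.2 ≠ 0 ∧ G < Int.gcd t.1 t.2)).card : ℝ) ≤
      ε / 2 * N ^ 2 := by
    refine (card_gcd N G hG1).trans ?_
    rw [div_le_iff₀ hG0]
    have : 8 < ε * G := by
      rw [div_lt_iff₀ hε] at hG
      linarith
    nlinarith [sq_nonneg (N : ℝ)]
  have hfin := card_le_card hsub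
  have hfin2 := (hfin.trans (card_union_le _ _)).trans
    (Nat.add_le_add (card_union_le _ _) (card_union_le _ _))
  have hfin3 : (((Box N).filter (fun t => t.1 ≠ 0 ∧ t.2 ≠ 0 ∧ t.1 ≠ t.2 ∧
      rho T (omg t) < 1)).card : ℝ) ≤
      (((Box N).filter (fun t => t.1.natAbs ∈ S)).card : ℝ) +
      (((Box N).filter (fun t => t.2.natAbs ∈ S)).card : ℝ) +
      ((((Box N).filter (fun t => (t.1 - t.2).natAbs ∈ S)).card : ℝ) +
      (((Box N).filter (fun t => t.1 ≠ 0 ∧ t.2 ≠ 0 ∧ G < Int.gcd t.1 t.2)).card : ℝ)) := by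
    exact_mod_cast hfin2
  linarith

end Pool.Agent.TH344.DT
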