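import Pool.Agent.TH344.DT.Stm

set_option autoImplicit false

namespace Pool.Agent.TH344.DT

open Finset Pool.Agent.W262.RK Pool.Agent.W307.RT Pool.Agent.W307.RS Pool.Agent.W307.SE
  Pool.Agent.W307.FK

namespace CmbX

/-- the character -/
def chi (k : ℕ) (x z : Fin k → Bool) : ℤ := ∏ j, (if (x j && z j) = true then -1 else 1)

theorem chi_eq (k : ℕ) (x z : Fin k → Bool) : chi k x z = (-1) ^ dt k x z := by
  unfold chi dt
  rw [Finset.prod_ite, Finset.prod_const, Finset.prod_const_one, mul_one]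

theorem chi_symm (k : ℕ) (x z : Fin k → Bool) : chi k x z = chi k z x := by
  unfold chi
  apply Finset.prod_congr rfl
  intro j _
  rw [Bool.and_comm]

theorem chi_sum (k : ℕ) (x x' : Fin k → Bool) :
    ∑ z, chi k x z * chi k x' z = if x = x' then 2 ^ k else 0 := by
  unfold chi
  simp_rw [← Finset.prod_mul_distrib]
  have h1 := Fintype.prod_sum (fun (j : Fin k) (s : Bool) =>
    (if (x j && s) = true then (-1 : ℤ) else 1) * (if (x' j && s) = true then -1 else 1))
  rw [← h1]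
  simp only [Fintype.sum_bool]
  split_ifs with h
  · subst h
    have h2 : ∀ j : Fin k, ((if (x j && true) = true then (-1 : ℤ) else 1) *
        (if (x j && true) = true then -1 else 1) + (if (x j && false) = true then (-1 : ℤ) else 1) *
        (if (x j && false) = true then -1 else 1)) = 2 := by
      intro j
      cases x j <;> simp
    rw [Finset.prod_congr rfl fun j _ => h2 j]
    simp
  · obtain ⟨j, hj⟩ := Function.ne_iff.1 h
    apply Finset.prod_eq_zero (mem_univ j)
    cases hx : x j <;> cases hx' : x' j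
    · rw [hx, hx'] at hj
      exact absurd rfl hj
    · simp
    · simp
    · rw [hx, hx'] at hj
      exact absurd rfl hj

/-- the symplectic sign -/
def hh (k : ℕ) (a b : (Fin k → Bool) × (Fin k → Bool)) : ℤ := chi k a.1 b.2 * chi k b.1 a.2

theorem hh_sum (k : ℕ) (a a' : (Fin k → Bool) × (Fin k → Bool)) :
    ∑ b, hh k a b * hh k a' b = if a = a' then 4 ^ k else 0 := by
  rw [Fintype.sum_prod_type]
  have h1 : ∀ x y : Fin k → Bool, hh k a (x, y) * hh k a' (x, y) =
      (chi k a.2 x * chi k a'.2 x) * (chi k a.1 y * chi k a'.1 y) := by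
    intro x y
    unfold hh
    simp only
    rw [chi_symm k x a.2, chi_symm k x a'.2]
    ring
  simp_rw [h1, ← Finset.mul_sum, ← Finset.sum_mul]
  rw [chi_sum, chi_sum]
  by_cases h : a = a'
  · rw [if_pos h, if_pos (by rw [h]), if_pos (by rw [h]), ← mul_pow]
    norm_num
  · rw [if_neg h]
    by_cases h2 : a.2 = a'.2
    · have h3 : a.1 ≠ a'.1 := fun h4 => h (Prod.ext h4 h2)
      rw [if_neg h3, mul_zero]
    · rw [if_neg h2, zero_mul]

theorem lindsey (k : ℕ) (A B : Finset ((Fin k → Bool) × (Fin k → Bool)))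
    (h : ∀ a ∈ A, ∀ b ∈ B, hh k a b = 1) : A.card * B.card ≤ 4 ^ k := by
  have h1 : ∑ b, (∑ a ∈ A, hh k a b) ^ 2 = (A.card : ℤ) * 4 ^ k := by
    simp_rw [sq, Finset.sum_mul_sum]
    rw [Finset.sum_comm]
    have h2 : ∀ a ∈ A, ∑ b, ∑ a' ∈ A, hh k a b * hh k a' b = 4 ^ k := by
      intro a ha
      rw [Finset.sum_comm]
      simp_rw [hh_sum]
      rw [Finset.sum_ite_eq, if_pos ha]
    rw [Finset.sum_congr rfl h2, Finset.sum_const, nsmul_eq_mul]
  have h3 : (B.card : ℤ) * (A.card : ℤ) ^ 2 ≤ ∑ b, (∑ a ∈ A, hh k a b) ^ 2 := by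
    have h4 : ∑ b ∈ B, (∑ a ∈ A, hh k a b) ^ 2 = (B.card : ℤ) * (A.card : ℤ) ^ 2 := by
      have h5 : ∀ b ∈ B, (∑ a ∈ A, hh k a b) ^ 2 = (A.card : ℤ) ^ 2 := by
        intro b hb
        rw [Finset.sum_congr rfl fun a ha => h a ha b hb]
        simp
      rw [Finset.sum_congr rfl h5, Finset.sum_const, nsmul_eq_mul]
    rw [← h4]
    exact Finset.sum_le_sum_of_subset_of_nonneg (Finset.subset_univ _) fun b _ _ => sq_nonneg _
  rw [h1] at h3
  rcases Nat.eq_zero_or_pos A.card with h0 | h0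
  · rw [h0, zero_mul]
    exact Nat.zero_le _
  · have h4 : B.card * A.card ^ 2 ≤ A.card * 4 ^ k := by exact_mod_cast h3
    have h5 : A.card * (A.card * B.card) ≤ A.card * 4 ^ k := by
      calc A.card * (A.card * B.card) = B.card * A.card ^ 2 := by ring
        _ ≤ A.card * 4 ^ k := h4
    exact Nat.le_of_mul_le_mul_left h5 h0

theorem ortho (k : ℕ) (i i' : IF k) (hc : i.1.1 ≠ i'.1.1) (h : Lk k i i' = Lk k i' i) :
    hh k i.1.2 i'.1.2 = 1 := by
  unfold hh
  rw [chi_eq, chi_eq, ← pow_add]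
  unfold Lk at h
  have h1 : decide (dt k i.1.2.1 i'.1.2.2 % 2 = 1) = decide (dt k i'.1.2.1 i.1.2.2 % 2 = 1) := by
    simpa [hc, hc.symm] using h
  have h2 : (dt k i.1.2.1 i'.1.2.2 % 2 = 1) ↔ (dt k i'.1.2.1 i.1.2.2 % 2 = 1) := by
    simpa using h1
  apply Even.neg_one_pow
  rw [Nat.even_iff]
  omega

/-- the number of the indices of a class -/
def uu {k : ℕ} (U : Finset (IF k)) (c : Fin 3) : ℕ := (U.filter (fun i => i.1.1 = c)).card

theorem card_img {k : ℕ} (V : Finset (IF k)) (c : Fin 3) (h : ∀ i ∈ V, i.1.1 = c) :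
    (V.image (fun i => i.1.2)).card = V.card := by
  apply Finset.card_image_of_injOn
  intro i hi j hj hij
  apply Subtype.ext
  exact Prod.ext ((h i hi).trans (h j hj).symm) hij

theorem pair_le {k : ℕ} (V W : Finset (IF k)) (c c' : Fin 3) (hcc : c ≠ c')
    (hV : ∀ i ∈ V, i.1.1 = c) (hW : ∀ i ∈ W, i.1.1 = c')
    (h : ∀ i ∈ V, ∀ j ∈ W, Lk k i j = Lk k j i) : V.card * W.card ≤ 4 ^ k := by
  rw [← card_img V c hV, ← card_img W c' hW]
  apply lindsey
  intro a ha b hb
  obtain ⟨i, hi, rfl⟩ := Finset.mem_image.1 ha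
  obtain ⟨j, hj, rfl⟩ := Finset.mem_image.1 hb
  exact ortho k i j (by rw [hV i hi, hW j hj]; exact hcc) (h i hi j hj)

theorem uu_le {k : ℕ} (U : Finset (IF k)) (hU : ∀ i ∈ U, ∀ j ∈ U, Lk k i j = Lk k j i)
    (c c' : Fin 3) (hcc : c ≠ c') : uu U c * uu U c' ≤ 4 ^ k :=
  pair_le _ _ c c' hcc (fun _ hi => (Finset.mem_filter.1 hi).2)
    (fun _ hi => (Finset.mem_filter.1 hi).2)
    (fun i hi j hj => hU i (Finset.mem_filter.1 hi).1 j (Finset.mem_filter.1 hj).1)

theorem sum_cls {k : ℕ} (U : Finset (IF k)) (t : Fin 3 → ℝ) :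
    ∑ i ∈ U, 1 / 2 ^ k * t i.1.1 = ∑ c, (uu U c : ℝ) / 2 ^ k * t c := by
  rw [← Finset.sum_fiberwise U (fun i => i.1.1)]
  apply Finset.sum_congr rfl
  intro c _
  have h1 : ∀ i ∈ U.filter (fun i => i.1.1 = c), (1 / 2 ^ k : ℝ) * t i.1.1 = 1 / 2 ^ k * t c := by
    intro i hi
    rw [(Finset.mem_filter.1 hi).2]
  rw [Finset.sum_congr rfl h1, Finset.sum_const, nsmul_eq_mul]
  unfold uu
  ring

/-- the vector of a small unlinked set -/
theorem exists_t (α : Fin 3 → ℝ) (h0 : ∀ c, 0 ≤ α c) (h1 : ∏ c, α c < 1) :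
    ∃ t : Fin 3 → ℝ, (∀ j, 0 < t j) ∧ 1 < ∏ j, t j ∧ ∑ c, α c * t c < 3 := by
  have hcont : Continuous fun ε : ℝ => ∏ c, (α c + ε) :=
    continuous_finsetProd _ fun c _ => continuous_const.add continuous_id
  have hev : ∀ᶠ ε in nhdsWithin (0 : ℝ) (Set.Ioi 0), ∏ c, (α c + ε) < 1 := by
    have h2 : Filter.Tendsto (fun ε : ℝ => ∏ c, (α c + ε)) (nhds 0) (nhds (∏ c, (α c + 0))) :=
      hcont.tendsto 0
    have h3 : ∏ c, (α c + 0) < 1 := by simpa using h1
    exact nhdsWithin_le_nhds (h2.eventually (gt_mem_nhds h3))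
  obtain ⟨ε, hε1, hε2⟩ := (hev.and self_mem_nhdsWithin).exists
  have hε : 0 < ε := hε2
  have hpos : ∀ c, 0 < α c + ε := fun c => by linarith [h0 c]
  refine ⟨fun c => 1 / (α c + ε), fun c => by have := hpos c; positivity, ?_, ?_⟩
  · rw [Finset.prod_div_distrib, Finset.prod_const_one]
    exact (one_lt_div (Finset.prod_pos fun c _ => hpos c)).2 hε1
  · have h4 : ∀ c, α c * (1 / (α c + ε)) < 1 := by
      intro c
      rw [mul_one_div, div_lt_one (hpos c)]
      linarith
    rw [Fin.sum_univ_three]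
    linarith [h4 0, h4 1, h4 2]

theorem exists_theta (t : Fin 3 → ℝ) (h0 : ∀ j, 0 < t j) (h1 : 1 < ∏ j, t j) :
    ∃ θ : ℝ, 0 < θ ∧ ∑ c, t c ^ (-θ) < 3 := by
  set l : Fin 3 → ℝ := fun c => Real.log (t c) with hl
  have hS : 0 < ∑ c, l c := by
    rw [hl, ← Real.log_prod (fun c _ => (h0 c).ne')]
    exact Real.log_pos h1
  set S := ∑ c, l c with hSdef
  set Q := ∑ c, l c ^ 2 with hQ
  set R := ∑ c, |l c| with hR
  have hQ0 : 0 ≤ Q := Finset.sum_nonneg fun c _ => sq_nonneg _
  have hR0 : 0 ≤ R := Finset.sum_nonneg fun c _ => abs_nonneg _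
  set θ := min (1 / (1 + R)) (S / (2 * (Q + 1))) with hθ
  have hθ0 : 0 < θ := lt_min (by positivity) (by positivity)
  refine ⟨θ, hθ0, ?_⟩
  have hθ1 : θ * (1 + R) ≤ 1 := by
    have := min_le_left (1 / (1 + R)) (S / (2 * (Q + 1)))
    rw [← hθ, le_div_iff₀ (by positivity)] at this
    exact this
  have hθ2 : θ * (2 * (Q + 1)) ≤ S := by
    have := min_le_right (1 / (1 + R)) (S / (2 * (Q + 1)))
    rw [← hθ, le_div_iff₀ (by positivity)] at this
    exact this
  have hterm : ∀ c, t c ^ (-θ) ≤ 1 - θ * l c + θ ^ 2 * l c ^ 2 := by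
    intro c
    have h2 : |l c| ≤ R := Finset.single_le_sum (f := fun c => |l c|) (fun c _ => abs_nonneg _)
      (mem_univ c)
    have h3 : |-(θ * l c)| ≤ 1 := by
      rw [abs_neg, abs_mul, abs_of_pos hθ0]
      have : θ * |l c| ≤ θ * R := mul_le_mul_of_nonneg_left h2 hθ0.le
      linarith
    have h4 := Real.abs_exp_sub_one_sub_id_le h3
    have h5 := (abs_le.1 h4).2
    rw [Real.rpow_def_of_pos (h0 c)]
    have h6 : Real.log (t c) * -θ = -(θ * l c) := by rw [hl]; ring
    rw [h6]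
    have h7 : (-(θ * l c)) ^ 2 = θ ^ 2 * l c ^ 2 := by ring
    linarith
  have hsum : ∑ c, t c ^ (-θ) ≤ 3 - θ * S + θ ^ 2 * Q := by
    calc ∑ c, t c ^ (-θ) ≤ ∑ c : Fin 3, (1 - θ * l c + θ ^ 2 * l c ^ 2) :=
          Finset.sum_le_sum fun c _ => hterm c
      _ = 3 - θ * S + θ ^ 2 * Q := by
        rw [Finset.sum_add_distrib, Finset.sum_sub_distrib, ← Finset.mul_sum, ← Finset.mul_sum,
          ← hSdef, ← hQ]
        simp
  have h8 : θ * (θ * Q) < θ * S := by
    apply mul_lt_mul_of_pos_left _ hθ0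
    nlinarith
  nlinarith

end CmbX

open CmbX

theorem CmbX.num {a b c m : ℕ} (hm : 0 < m) (hab : a * b ≤ m * m) (hac : a * c ≤ m * m)
    (hbc : b * c ≤ m * m) (hne : ¬ (a = m ∧ b = m ∧ c = m)) : a * b * c < m * m * m := by
  by_contra h
  push Not at h
  have hmm : 0 < m * m := Nat.mul_pos hm hm
  have hc : m ≤ c := by
    have e1 : a * b * c ≤ m * m * c := Nat.mul_le_mul_right c hab
    exact Nat.le_of_mul_le_mul_left (h.trans e1) hmm
  have hb : m ≤ b := by
    have e1 : a * c * b ≤ m * m * b := Nat.mul_le_mul_right b hac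
    have e2 : a * c * b = a * b * c := by ring
    exact Nat.le_of_mul_le_mul_left (by rw [e2] at e1; exact h.trans e1) hmm
  have ha : m ≤ a := by
    have e1 : b * c * a ≤ m * m * a := Nat.mul_le_mul_right a hbc
    have e2 : b * c * a = a * b * c := by ring
    exact Nat.le_of_mul_le_mul_left (by rw [e2] at e1; exact h.trans e1) hmm
  apply hne
  have ha' : a ≤ m := by
    have e1 : m * a ≤ m * m := le_trans (by rw [mul_comm]; exact Nat.mul_le_mul_left a hb) hab
    exact Nat.le_of_mul_le_mul_left e1 hm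
  have hb' : b ≤ m := by
    have e1 : m * b ≤ m * m := le_trans (Nat.mul_le_mul_right b ha) hab
    exact Nat.le_of_mul_le_mul_left e1 hm
  have hc' : c ≤ m := by
    have e1 : m * c ≤ m * m := le_trans (Nat.mul_le_mul_right c ha) hac
    exact Nat.le_of_mul_le_mul_left e1 hm
  omega

theorem cmb : S_CMB := by
  classical
  intro k _
  have h4 : (4 : ℕ) ^ k = 2 ^ k * 2 ^ k := by rw [← mul_pow]; norm_num
  have hM : (0 : ℝ) < 2 ^ k := by positivity
  have hMn : 0 < 2 ^ k := by positivity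
  -- the products of the classes
  have hprod : ∀ U : Finset (IF k), (∀ i ∈ U, ∀ j ∈ U, Lk k i j = Lk k j i) →
      (∃ c, uu U c ≠ 2 ^ k) → ∏ c, ((uu U c : ℝ) / 2 ^ k) < 1 := by
    intro U hU hne
    have p01 := uu_le U hU 0 1 (by decide)
    have p02 := uu_le U hU 0 2 (by decide)
    have p12 := uu_le U hU 1 2 (by decide)
    rw [h4] at p01 p02 p12
    have key : uu U 0 * uu U 1 * uu U 2 < 2 ^ k * 2 ^ k * 2 ^ k := by
      apply CmbX.num hMn p01 p02 p12
      rintro ⟨e0, e1, e2⟩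
      obtain ⟨c, hc⟩ := hne
      apply hc
      fin_cases c
      · exact e0
      · exact e1
      · exact e2
    rw [Fin.prod_univ_three, div_mul_div_comm, div_mul_div_comm, div_lt_one (by positivity)]
    exact_mod_cast key
  have hex : ∀ U : Finset (IF k), ∃ t : Fin 3 → ℝ, (∀ j, 0 < t j) ∧ 1 < ∏ j, t j ∧
      ((∀ i ∈ U, ∀ j ∈ U, Lk k i j = Lk k j i) → (∃ c, uu U c ≠ 2 ^ k) →
        ∑ i ∈ U, 1 / 2 ^ k * t i.1.1 < 3) := by
    intro U
    by_cases h : (∀ i ∈ U, ∀ j ∈ U, Lk k i j = Lk k j i) ∧ ∃ c, uu U c ≠ 2 ^ k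
    · obtain ⟨t, ht1, ht2, ht3⟩ := exists_t (fun c => (uu U c : ℝ) / 2 ^ k)
        (fun c => by positivity) (hprod U h.1 h.2)
      refine ⟨t, ht1, ht2, fun _ _ => ?_⟩
      rw [sum_cls]
      exact ht3
    · refine ⟨fun _ => 2, fun _ => by norm_num, by norm_num, fun h1 h2 => ?_⟩
      exact absurd ⟨h1, h2⟩ h
  choose t ht1 ht2 ht3 using hex
  refine ⟨Finset.univ.image t, ?_, ?_, ?_⟩
  · intro s hs j
    obtain ⟨U, _, rfl⟩ := Finset.mem_image.1 hs
    exact ht1 U j
  · intro s hs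
    obtain ⟨U, _, rfl⟩ := Finset.mem_image.1 hs
    exact ht2 U
  · intro U hU
    by_cases hne : ∃ c, uu U c ≠ 2 ^ k
    · left
      exact ⟨t U, Finset.mem_image_of_mem t (mem_univ U), ht3 U hU hne⟩
    · right
      push Not at hne
      have hcls : ∀ s : Fin 3 → ℝ, ∑ i ∈ U, 1 / 2 ^ k * s i.1.1 = ∑ c, s c := by
        intro s
        rw [sum_cls]
        apply Finset.sum_congr rfl
        intro c _
        rw [hne c]
        push_cast
        rw [div_self hM.ne', one_mul]
      refine ⟨?_, ?_, ?_⟩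
      · have h5 := hcls (fun _ => 1)
        simp only [mul_one] at h5
        rw [h5]
        simp
      · intro s hs
        obtain ⟨V, _, rfl⟩ := Finset.mem_image.1 hs
        obtain ⟨θ, hθ, hlt⟩ := exists_theta (t V) (ht1 V) (ht2 V)
        refine ⟨θ, hθ, ?_⟩
        rw [hcls (fun c => t V c ^ (-θ))]
        exact hlt
      · intro j hj
        by_contra hcon
        push Not at hcon
        obtain ⟨c', hc'⟩ : ∃ c' : Fin 3, j.1.1 ≠ c' := by
          rcases Fin.exists_fin_succ.1 ⟨j.1.1 + 1, rfl⟩ with h | ⟨i, hi⟩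
          · exact ⟨j.1.1 + 1, by
              generalize j.1.1 = c
              revert c
              decide⟩
          · exact ⟨j.1.1 + 1, by
              generalize j.1.1 = c
              revert c
              decide⟩
        have h6 := pair_le (insert j (U.filter (fun i => i.1.1 = j.1.1)))
          (U.filter (fun i => i.1.1 = c')) j.1.1 c' hc' (by
            intro i hi
            rcases Finset.mem_insert.1 hi with rfl | hi
            · rfl
            · exact (Finset.mem_filter.1 hi).2) (fun i hi => (Finset.mem_filter.1 hi).2) (by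
            intro i hi i' hi'
            rcases Finset.mem_insert.1 hi with rfl | hi
            · exact (hcon i' (Finset.mem_filter.1 hi').1).symm
            · exact hU i (Finset.mem_filter.1 hi).1 i' (Finset.mem_filter.1 hi').1)
        rw [Finset.card_insert_of_notMem (by
          intro h7
          exact hj (Finset.mem_filter.1 h7).1)] at h6
        have e1 : (U.filter (fun i => i.1.1 = j.1.1)).card = 2 ^ k := hne j.1.1
        have e2 : (U.filter (fun i => i.1.1 = c')).card = 2 ^ k := hne c'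
        rw [e1, e2, h4] at h6
        nlinarith

end Pool.Agent.TH344.DT
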