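import Mathlib

/-! Project DT: one exceptional set of density zero for all the moments. -/

set_option autoImplicit false

namespace Pool.Agent.TH344.DT

open Finset Filter Topology

open scoped Classical in
/-- From exceptional sets of density zero `Z k` for the `k`-th moments to one exceptional set. -/
theorem diag {α : Type} (A : ℕ → Finset α) (hA : Monotone A) (f : α → ℝ) (hf : ∀ c, 0 ≤ f c)
    (Z : ℕ → Set α)
    (hZ : ∀ k, ∀ ε : ℝ, 0 < ε → ∃ H0 : ℕ, ∀ H, H0 ≤ H →
      (((A H).filter (fun c => c ∈ Z k)).card : ℝ) ≤ ε * (A H).card)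
    (hm : ∀ k, ∃ C : ℝ, ∀ H, ∑ c ∈ (A H).filter (fun c => c ∉ Z k), f c ^ k ≤ C * (A H).card) :
    ∃ Z' : Set α, (∀ ε : ℝ, 0 < ε → ∃ H0 : ℕ, ∀ H, H0 ≤ H →
      (((A H).filter (fun c => c ∈ Z')).card : ℝ) ≤ ε * (A H).card) ∧
      ∀ k, ∃ C : ℝ, ∀ H, ∑ c ∈ (A H).filter (fun c => c ∉ Z'), f c ^ k ≤ C * (A H).card := by
  -- the heights
  have h1 : ∀ m : ℕ, ∃ h : ℕ, ∀ H, h ≤ H → ∀ k ∈ range (m + 1),
      (((A H).filter (fun c => c ∈ Z k)).card : ℝ) ≤ 1 / (((m : ℝ) + 1) * ((m : ℝ) + 1)) * (A H).card := by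
    intro m
    choose H0 hH0 using fun k => hZ k (1 / (((m : ℝ) + 1) * ((m : ℝ) + 1))) (by positivity)
    refine ⟨(range (m + 1)).sup H0, fun H hH k hk => hH0 k H ((le_sup (f := H0) hk).trans hH)⟩
  choose g hg using h1
  -- increasing heights
  let h : ℕ → ℕ := fun m => (range (m + 1)).sup g + m
  have hgh : ∀ m, g m ≤ h m := fun m =>
    (le_sup (f := g) (mem_range.2 (Nat.lt_succ_self m))).trans (Nat.le_add_right _ _)
  have hmono : Monotone h := by
    intro a b hab
    have : (range (a + 1)).sup g ≤ (range (b + 1)).sup g :=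
      sup_mono (range_subset_range.2 (by omega))
    show (range (a + 1)).sup g + a ≤ (range (b + 1)).sup g + b
    omega
  have hid : ∀ m, m ≤ h m := fun m => Nat.le_add_left _ _
  refine ⟨{c | ∃ k, c ∈ Z k ∧ c ∉ A (h k)}, fun ε hε => ?_, fun k => ?_⟩
  · obtain ⟨m0, hm0⟩ := exists_nat_gt (1 / ε)
    refine ⟨h m0 + 1, fun H hH => ?_⟩
    -- the largest `m` with `h m < H`
    have hex : ∃ m, m0 ≤ m ∧ h m < H ∧ ∀ k, h k < H → k ≤ m := by
      set m := Nat.findGreatest (fun m => h m < H) H with hmd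
      have h0 : h m0 < H := by omega
      refine ⟨m, ?_, ?_, ?_⟩
      · exact Nat.le_findGreatest (by have := hid m0; omega) h0
      · exact Nat.findGreatest_spec (P := fun m => h m < H) (m := m0)
          (by have := hid m0; omega) h0
      · intro k hk
        exact Nat.le_findGreatest (by have := hid k; omega) hk
    obtain ⟨m, hmm0, hmH, hmax⟩ := hex
    have hsub : (A H).filter (fun c => c ∈ {c | ∃ k, c ∈ Z k ∧ c ∉ A (h k)}) ⊆
        (range (m + 1)).biUnion (fun k => (A H).filter (fun c => c ∈ Z k)) := by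
      intro c hc
      rw [mem_filter] at hc
      obtain ⟨hcA, k, hk1, hk2⟩ := hc
      rw [mem_biUnion]
      refine ⟨k, ?_, mem_filter.2 ⟨hcA, hk1⟩⟩
      rw [mem_range]
      have : h k < H := by
        by_contra hcon
        exact hk2 (hA (not_lt.1 hcon) hcA)
      have := hmax k this
      omega
    have hm0' : (0 : ℝ) < (m : ℝ) + 1 := by positivity
    calc (((A H).filter (fun c => c ∈ {c | ∃ k, c ∈ Z k ∧ c ∉ A (h k)})).card : ℝ)
        ≤ (((range (m + 1)).biUnion (fun k => (A H).filter (fun c => c ∈ Z k))).card : ℝ) := by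
          exact_mod_cast card_le_card hsub
      _ ≤ ∑ k ∈ range (m + 1), (((A H).filter (fun c => c ∈ Z k)).card : ℝ) := by
          exact_mod_cast card_biUnion_le
      _ ≤ ∑ _k ∈ range (m + 1), 1 / (((m : ℝ) + 1) * ((m : ℝ) + 1)) * (A H).card :=
          sum_le_sum fun k hk => hg m H ((hgh m).trans hmH.le) k hk
      _ = 1 / ((m : ℝ) + 1) * (A H).card := by
          rw [sum_const, card_range, nsmul_eq_mul]
          push_cast
          field_simp
      _ ≤ ε * (A H).card := by
          apply mul_le_mul_of_nonneg_right _ (Nat.cast_nonneg _)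
          have h2 : (m0 : ℝ) ≤ m := by exact_mod_cast hmm0
          rw [div_le_iff₀ hm0']
          have h3 : 1 < ε * m0 := by
            rw [div_lt_iff₀ hε] at hm0
            linarith
          nlinarith
  · obtain ⟨C, hC⟩ := hm k
    set D := ∑ c ∈ A (h k), f c ^ k with hD
    have hD0 : 0 ≤ D := sum_nonneg fun c _ => pow_nonneg (hf c) _
    refine ⟨C + D, fun H => ?_⟩
    have hsub : (A H).filter (fun c => c ∉ {c | ∃ k, c ∈ Z k ∧ c ∉ A (h k)}) ⊆
        (A H).filter (fun c => c ∉ Z k) ∪ (A H).filter (fun c => c ∈ A (h k)) := by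
      intro c hc
      rw [mem_filter] at hc
      rw [mem_union, mem_filter, mem_filter]
      by_cases h2 : c ∈ Z k
      · right
        refine ⟨hc.1, ?_⟩
        by_contra h3
        exact hc.2 ⟨k, h2, h3⟩
      · exact Or.inl ⟨hc.1, h2⟩
    rcases (A H).eq_empty_or_nonempty with he | hne
    · rw [he]
      simp
    · have hcard : (1 : ℝ) ≤ (A H).card := by exact_mod_cast hne.card_pos
      calc ∑ c ∈ (A H).filter (fun c => c ∉ {c | ∃ k, c ∈ Z k ∧ c ∉ A (h k)}), f c ^ k
          ≤ ∑ c ∈ (A H).filter (fun c => c ∉ Z k) ∪ (A H).filter (fun c => c ∈ A (h k)), f c ^ k :=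
            sum_le_sum_of_subset_of_nonneg hsub fun c _ _ => pow_nonneg (hf c) _
        _ ≤ ∑ c ∈ (A H).filter (fun c => c ∉ Z k), f c ^ k +
            ∑ c ∈ (A H).filter (fun c => c ∈ A (h k)), f c ^ k := by
            rw [← sum_union_inter]
            exact le_add_of_nonneg_right (sum_nonneg fun c _ => pow_nonneg (hf c) _)
        _ ≤ C * (A H).card + D := by
            apply add_le_add (hC H)
            rw [hD]
            apply sum_le_sum_of_subset_of_nonneg
            · intro c hc
              exact (mem_filter.1 hc).2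
            · intro c _ _
              exact pow_nonneg (hf c) _
        _ ≤ _ := by
            rw [add_mul]
            exact add_le_add le_rfl (le_mul_of_one_le_right hD0 hcard)

end Pool.Agent.TH344.DT
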