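import Pool.Agent.TH344.DT.Stm
import Pool.Agent.W655.RK.Full

set_option autoImplicit false

namespace Pool.Agent.TH344.DT

open Finset Pool.Agent.W262.RK Pool.Agent.W655.RK

/-- the local weight -/
theorem FulX_weight (w : ℝ) (c z p : ℕ) (hw : 0 < w) (hz : 2 * c + 2 ≤ z)
    (hp : z < p) : 0 ≤ w / ((p : ℝ) - c) ∧
    w / ((p : ℝ) - c) ≤ w * (1 / p) + (2 * w * c) * (1 / (p : ℝ) ^ 2) := by
  have hp1 : (2 * c + 3 : ℝ) ≤ p := by exact_mod_cast (by omega : 2 * c + 3 ≤ p)
  have hc : (0:ℝ) ≤ c := Nat.cast_nonneg c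
  have hp0 : (0:ℝ) < p := by linarith
  have hpc : (0:ℝ) < (p : ℝ) - c := by linarith
  constructor
  · positivity
  · have h3 : w * (1 / p) + (2 * w * c) * (1 / (p : ℝ) ^ 2) = (w * p + 2 * w * c) / p ^ 2 := by
      field_simp
    rw [h3, div_le_div_iff₀ hpc (by positivity)]
    have h5 : (w * p + 2 * w * c) * ((p : ℝ) - c) - w * (p : ℝ) ^ 2 = w * c * (p - 2 * c) := by ring
    have h6 : 0 ≤ w * c * ((p : ℝ) - 2 * c) :=
      mul_nonneg (mul_nonneg hw.le hc) (by linarith)
    linarith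

theorem ful : S_FUL := by
  intro w c hw
  obtain ⟨C0, hC0, hmer⟩ := mertens
  obtain ⟨K, hK, hsq⟩ := sum_inv_sq
  refine ⟨2 * c + 2, fun z hz => ?_⟩
  have hz2 : 2 ≤ z := by omega
  set φ : ℕ → ℝ := fun p => w / ((p : ℝ) - c) with hφ
  set B : ℝ := w * C0 + (2 * w * c) * K with hB
  have hB0 : 0 ≤ B := by positivity
  have hφ0 : ∀ y, ∀ p ∈ PS z y, 0 ≤ φ p := fun y p hp => (FulX_weight w c z p hw hz (PS_lt hp)).1
  have hsum : ∀ y : ℕ, 2 ≤ y → ∑ p ∈ PS z y, φ p ≤ w * Real.log (Real.log y) + B := by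
    intro y hy
    calc ∑ p ∈ PS z y, φ p ≤ ∑ p ∈ PS z y, (w * (1 / (p : ℝ)) + (2 * w * c) * (1 / (p : ℝ) ^ 2)) :=
          Finset.sum_le_sum fun p hp => (FulX_weight w c z p hw hz (PS_lt hp)).2
      _ = w * ∑ p ∈ PS z y, 1 / (p : ℝ) + (2 * w * c) * ∑ p ∈ PS z y, 1 / (p : ℝ) ^ 2 := by
          rw [Finset.sum_add_distrib, Finset.mul_sum, Finset.mul_sum]
      _ ≤ w * (Real.log (Real.log y) + C0) + (2 * w * c) * K := by
          refine add_le_add (mul_le_mul_of_nonneg_left (hmer z y hy) hw.le)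
            (mul_le_mul_of_nonneg_left (hsq _) (by positivity))
      _ = _ := by rw [hB]; ring
  have hlog : ∀ y : ℕ, 2 ≤ y → 0 < Real.log y := fun y hy =>
    Real.log_pos (by exact_mod_cast (by omega : 1 < y))
  have main : ∀ y : ℕ, 2 ≤ y → ∑ d ∈ (PP z y).divisors, gw w c d ≤
      Real.exp B * (Real.log y) ^ w := by
    intro y hy
    have h0 : ∀ d, gw w c d = ∏ p ∈ d.primeFactors, φ p := fun d => rfl
    simp only [h0]
    unfold PP
    rw [sum_mult (PS z y) (fun p hp => PS_prime hp) φ]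
    refine (prod_le_exp _ _ fun p hp => by have := hφ0 y p hp; linarith).trans ?_
    rw [Real.rpow_def_of_pos (hlog y hy), ← Real.exp_add, Real.exp_le_exp]
    have := hsum y hy
    linarith
  have hnn : ∀ d : ℕ, (∀ p ∈ d.primeFactors, z < p) → 0 ≤ gw w c d := by
    intro d hd
    exact Finset.prod_nonneg fun p hp => (FulX_weight w c z p hw hz (hd p hp)).1
  have hpf : ∀ y d, d ∈ (PP z y).divisors → d.primeFactors ⊆ PS z y := by
    intro y d hd
    have h1 : (PP z y).primeFactors = PS z y := Nat.primeFactors_prod fun p hp => PS_prime hp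
    rw [← h1]
    exact Nat.primeFactors_mono (Nat.dvd_of_mem_divisors hd) (Nat.mem_divisors.1 hd).2
  refine ⟨Real.exp B, Real.one_le_exp hB0, fun y hy => main y (by omega), ?_⟩
  intro y V hy hV
  have hsub : (PP z y).divisors.filter (fun d => d ≤ V) ⊆ (PP z (min y V)).divisors := by
    intro d hd
    rw [mem_filter] at hd
    have h1 := hpf y d hd.1
    have h2 : Squarefree d := (prod_primes_squarefree (PS z y) fun p hp => PS_prime hp).squarefree_of_dvd
      (Nat.dvd_of_mem_divisors hd.1)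
    rw [Nat.mem_divisors]
    refine ⟨?_, (prod_primes_squarefree (PS z (min y V)) fun p hp => PS_prime hp).ne_zero⟩
    rw [← Nat.prod_primeFactors_of_squarefree h2]
    refine Finset.prod_dvd_prod_of_subset _ _ _ fun p hp => ?_
    have h3 := h1 hp
    have h4 : p ≤ d := Nat.le_of_mem_primeFactors hp
    exact mem_filter.2 ⟨mem_Ioc.2 ⟨PS_lt h3, le_min (PS_le h3) (h4.trans hd.2)⟩, PS_prime h3⟩
  have h1 : ∑ d ∈ (PP z y).divisors.filter (fun d => d ≤ V), gw w c d ≤
      ∑ d ∈ (PP z (min y V)).divisors, gw w c d := by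
    refine Finset.sum_le_sum_of_subset_of_nonneg hsub fun d hd _ => hnn d fun p hp => ?_
    exact PS_lt (hpf _ d hd hp)
  have hmin2 : 2 ≤ min y V := le_min (by omega) hV
  refine h1.trans ((main _ hmin2).trans ?_)
  have h2 : (Real.log (min y V : ℕ)) ^ w ≤ (Real.log V) ^ w := by
    refine Real.rpow_le_rpow (hlog _ hmin2).le ?_ hw.le
    exact Real.log_le_log (by exact_mod_cast (by omega : 0 < min y V))
      (by exact_mod_cast min_le_right y V)
  exact mul_le_mul_of_nonneg_left h2 (Real.exp_pos _).le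

end Pool.Agent.TH344.DT
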