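import Mathlib
import Pool.Agent.TH344.DT.Stm

/-! Project DT, job LNK: two linked large variables, with a bounded weight. -/

set_option autoImplicit false

namespace Pool.Agent.TH344.DT

open Finset Pool.Agent.W262.RK

namespace LNK

variable {ι : Type} [Fintype ι] [DecidableEq ι]

variable {w : ι → ℝ} {L : ι → ι → Bool} {κ : ι → ℤ} {c z : ℕ} {C : ℝ}

lemma sub_inner (hB : AT.Bd w κ c z C) {C2 : ℝ} {E2 : ℕ} (h2 : AT.BW C2 E2) {i j : ι} (hij : i ≠ j)
    (hLi : L i i = false) (hL1 : L i j = true) (hL2 : L j i = false) {y V Y : ℕ} (hV : 2 ≤ V)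
    (hVY : V ≤ Y) {e : ι → ℕ} (he : ∀ b, e b ∈ (PP z y).divisors) {M N : Finset ℕ}
    (hM : M ⊆ AT.lg z y V Y) (hN : N ⊆ AT.lg z y V Y) :
    |∑ n ∈ N, ∑ m ∈ M,
        AT.HH w L κ c (Function.update (Function.update e j n) i m)| ≤
      (∏ k ∈ (univ.erase i).erase j, gw (w k) c (e k)) *
        (C2 * (Real.log Y) ^ E2 * (V : ℝ) ^ (-(1 / 6 : ℝ))) := by
  classical
  have hcz : c ≤ z := by have := hB.zc; omega
  obtain ⟨q, a, b, hq, ha, hb, h⟩ := AT.HH_pair (L := L) hB hij hLi hL1 hL2 he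
  have hP0 : 0 ≤ ∏ k ∈ (univ.erase i).erase j, gw (w k) c (e k) :=
    prod_nonneg fun k _ => gw_nonneg (hB.w0 k).le hcz (he k)
  set a' : ℕ → ℝ := fun m => if m ∈ M then gw (w i) c m * a m else 0 with ha'
  set b' : ℕ → ℝ := fun m => if m ∈ N then gw (w j) c m * b m else 0 with hb'
  have hsub : AT.lg z y V Y ⊆ Ioc V Y := by
    intro m hm
    rw [mem_Ioc]
    exact (mem_filter.1 hm).2
  have hDv : ∀ m ∈ AT.lg z y V Y, m ∈ (PP z y).divisors := fun m hm => (mem_filter.1 hm).1
  have bd : ∀ (k : ι) (f : ℕ → ℝ), (∀ m, |f m| ≤ 1) → ∀ S : Finset ℕ, S ⊆ AT.lg z y V Y → ∀ m,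
      |if m ∈ S then gw (w k) c m * f m else 0| ≤ 1 / (m : ℝ) := by
    intro k f hf S hS m
    split_ifs with hm
    · have g0 := gw_nonneg (hB.w0 k).le hcz (hDv m (hS hm))
      rw [abs_mul, abs_of_nonneg g0]
      exact (mul_le_of_le_one_right g0 (hf m)).trans
        (gw_le (hB.w0 k).le (hB.w1 k) hB.zc (hDv m (hS hm)))
    · simp
  have od : ∀ (k : ι) (f : ℕ → ℝ) (S : Finset ℕ), S ⊆ AT.lg z y V Y → ∀ (m : ℕ),
      (if m ∈ S then gw (w k) c m * f m else 0) ≠ 0 → Odd m ∧ Squarefree m := by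
    intro k f S hS m hm
    by_cases h1 : m ∈ S
    · exact ⟨dv_odd hB.z2 (hDv m (hS h1)), dv_squarefree (hDv m (hS h1))⟩
    · rw [if_neg h1] at hm
      exact absurd rfl hm
  have hmain := h2 V Y hV hVY a' b' (bd i a ha M hM) (bd j b hb N hN) (od i a M hM) (od j b N hN)
  have heq : ∑ n ∈ N, ∑ m ∈ M,
      AT.HH w L κ c (Function.update (Function.update e j n) i m) =
      q * ∑ m ∈ Ioc V Y, ∑ n ∈ Ioc V Y, a' m * b' n * Jr m n := by
    rw [sum_comm]
    have e1 : ∑ m ∈ Ioc V Y, ∑ n ∈ Ioc V Y, a' m * b' n * Jr m n =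
        ∑ m ∈ M, ∑ n ∈ N, a' m * b' n * Jr m n := by
      rw [← sum_subset (hM.trans hsub)]
      · apply sum_congr rfl
        intro m _
        rw [← sum_subset (hN.trans hsub)]
        intro n _ hn
        rw [hb']
        simp only
        rw [if_neg hn]
        ring
      · intro m _ hm
        apply sum_eq_zero
        intro n _
        rw [ha']
        simp only
        rw [if_neg hm]
        ring
    rw [e1, mul_sum]
    apply sum_congr rfl
    intro m hm
    rw [mul_sum]
    apply sum_congr rfl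
    intro n hn
    rw [h m (hDv m (hM hm)) n (hDv n (hN hn)), ha', hb']
    simp only
    rw [if_pos hm, if_pos hn]
    ring
  rw [heq, abs_mul]
  exact mul_le_mul hq hmain (abs_nonneg _) hP0

omit [Fintype ι] in
lemma om_update (e : ι → ℕ) (i : ι) (m : ℕ) :
    om (Function.update e i m) = Function.update (om e) i m.primeFactors.card := by
  funext k
  unfold om
  by_cases hk : k = i
  · subst hk
    rw [Function.update_self, Function.update_self]
  · rw [Function.update_of_ne hk, Function.update_of_ne hk]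

lemma om_le {Y m : ℕ} (h0 : m ≠ 0) (hm : m ≤ Y) : m.primeFactors.card ≤ Nat.log 2 Y := by
  apply Nat.le_log_of_pow_le (by norm_num)
  have h1 : (2 : ℕ) ^ m.primeFactors.card ≤ ∏ p ∈ m.primeFactors, p := by
    rw [← prod_const]
    exact prod_le_prod' fun p hp => (Nat.prime_of_mem_primeFactors hp).two_le
  have h2 : ∏ p ∈ m.primeFactors, p ≤ m := Nat.le_of_dvd (Nat.pos_of_ne_zero h0)
    (Nat.prod_primeFactors_dvd m)
  exact h1.trans (h2.trans hm)

lemma phi_inner (hB : AT.Bd w κ c z C) {C2 : ℝ} {E2 : ℕ} (h2 : AT.BW C2 E2) {i j : ι} (hij : i ≠ j)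
    (hLi : L i i = false) (hL1 : L i j = true) (hL2 : L j i = false) {y V Y : ℕ} (hV : 2 ≤ V)
    (hVY : V ≤ Y) {e : ι → ℕ} (he : ∀ b, e b ∈ (PP z y).divisors) {φ : (ι → ℕ) → ℝ}
    (hφ : ∀ n, |φ n| ≤ 1) :
    |∑ n ∈ AT.lg z y V Y, ∑ m ∈ AT.lg z y V Y,
        AT.HH w L κ c (Function.update (Function.update e j n) i m) *
          φ (om (Function.update (Function.update e j n) i m))| ≤
      (∏ k ∈ (univ.erase i).erase j, gw (w k) c (e k)) *
        (((Nat.log 2 Y + 1 : ℕ) : ℝ) ^ 2 *
          (C2 * (Real.log Y) ^ E2 * (V : ℝ) ^ (-(1 / 6 : ℝ)))) := by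
  classical
  set S : ℕ := Nat.log 2 Y + 1 with hS
  have hmaps : ∀ m ∈ AT.lg z y V Y, m.primeFactors.card ∈ range S := by
    intro m hm
    rw [mem_range, hS]
    have h1 := (mem_filter.1 hm)
    have := om_le (dv_ne_zero h1.1) h1.2.2
    omega
  have e1 : ∑ n ∈ AT.lg z y V Y, ∑ m ∈ AT.lg z y V Y,
        AT.HH w L κ c (Function.update (Function.update e j n) i m) *
          φ (om (Function.update (Function.update e j n) i m)) =
      ∑ b ∈ range S, ∑ a ∈ range S,
        (∑ n ∈ (AT.lg z y V Y).filter (fun n => n.primeFactors.card = b),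
          ∑ m ∈ (AT.lg z y V Y).filter (fun m => m.primeFactors.card = a),
            AT.HH w L κ c (Function.update (Function.update e j n) i m)) *
          φ (Function.update (Function.update (om e) j b) i a) := by
    rw [← sum_fiberwise_of_maps_to hmaps]
    apply sum_congr rfl
    intro b _
    have h3 : ∀ n ∈ (AT.lg z y V Y).filter (fun n => n.primeFactors.card = b),
        ∑ m ∈ AT.lg z y V Y, AT.HH w L κ c (Function.update (Function.update e j n) i m) *
          φ (om (Function.update (Function.update e j n) i m)) =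
        ∑ a ∈ range S, ∑ m ∈ (AT.lg z y V Y).filter (fun m => m.primeFactors.card = a),
          AT.HH w L κ c (Function.update (Function.update e j n) i m) *
          φ (Function.update (Function.update (om e) j b) i a) := by
      intro n hn
      rw [← sum_fiberwise_of_maps_to hmaps]
      apply sum_congr rfl
      intro a _
      apply sum_congr rfl
      intro m hm
      rw [om_update, om_update, (mem_filter.1 hn).2, (mem_filter.1 hm).2]
    rw [sum_congr rfl h3, sum_comm]
    apply sum_congr rfl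
    intro a _
    rw [sum_mul]
    apply sum_congr rfl
    intro n _
    rw [sum_mul]
  rw [e1]
  have hone : ∀ a b : ℕ, |(∑ n ∈ (AT.lg z y V Y).filter (fun n => n.primeFactors.card = b),
          ∑ m ∈ (AT.lg z y V Y).filter (fun m => m.primeFactors.card = a),
            AT.HH w L κ c (Function.update (Function.update e j n) i m)) *
          φ (Function.update (Function.update (om e) j b) i a)| ≤
      (∏ k ∈ (univ.erase i).erase j, gw (w k) c (e k)) *
        (C2 * (Real.log Y) ^ E2 * (V : ℝ) ^ (-(1 / 6 : ℝ))) := by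
    intro a b
    rw [abs_mul]
    exact (mul_le_of_le_one_right (abs_nonneg _) (hφ _)).trans
      (sub_inner hB h2 hij hLi hL1 hL2 hV hVY he (filter_subset _ _) (filter_subset _ _))
  calc _ ≤ ∑ b ∈ range S, |∑ a ∈ range S,
        (∑ n ∈ (AT.lg z y V Y).filter (fun n => n.primeFactors.card = b),
          ∑ m ∈ (AT.lg z y V Y).filter (fun m => m.primeFactors.card = a),
            AT.HH w L κ c (Function.update (Function.update e j n) i m)) *
          φ (Function.update (Function.update (om e) j b) i a)| := abs_sum_le_sum_abs _ _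
    _ ≤ ∑ b ∈ range S, ∑ a ∈ range S, (∏ k ∈ (univ.erase i).erase j, gw (w k) c (e k)) *
        (C2 * (Real.log Y) ^ E2 * (V : ℝ) ^ (-(1 / 6 : ℝ))) := by
        apply sum_le_sum
        intro b _
        exact (abs_sum_le_sum_abs _ _).trans (sum_le_sum fun a _ => hone a b)
    _ = _ := by
        rw [sum_const, sum_const, card_range, nsmul_eq_mul, nsmul_eq_mul]
        ring

/-- two linked large variables -/
lemma phi_case (hB : AT.Bd w κ c z C) {C2 : ℝ} {E2 : ℕ} (hC2 : 0 ≤ C2) (h2 : AT.BW C2 E2) {i j : ι}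
    (hij : i ≠ j) (hLi : L i i = false) (hL1 : L i j = true) (hL2 : L j i = false)
    {y V Y : ℕ} (hy : z < y) (hV : 2 ≤ V) (hVY : V ≤ Y) {t : ι → Finset ℕ}
    (ht : ∀ b, t b ⊆ (PP z y).divisors) (hti : t i = AT.lg z y V Y) (htj : t j = AT.lg z y V Y)
    {φ : (ι → ℕ) → ℝ} (hφ : ∀ n, |φ n| ≤ 1) :
    |∑ d ∈ Fintype.piFinset t, AT.HH w L κ c d * φ (om d)| ≤
      (C * Real.log y) ^ (Fintype.card ι) * (((Nat.log 2 Y + 1 : ℕ) : ℝ) ^ 2 *
        (C2 * (Real.log Y) ^ E2 * (V : ℝ) ^ (-(1 / 6 : ℝ)))) := by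
  classical
  have hcz : c ≤ z := by have := hB.zc; omega
  have hC0 : 0 ≤ C := zero_le_one.trans hB.C1
  have hly : 1 ≤ Real.log y := by
    have h3 : 3 ≤ y := by have := hB.z2; omega
    rw [Real.le_log_iff_exp_le (by exact_mod_cast (by omega : 0 < y))]
    have h1 : (3 : ℝ) ≤ y := by exact_mod_cast h3
    have h2 := Real.exp_one_lt_d9
    linarith
  have hlY : 0 ≤ Real.log Y := Real.log_natCast_nonneg Y
  rw [sum_update t i, sum_update (Function.update t i {1}) j, Function.update_of_ne hij.symm, hti,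
    htj]
  refine (abs_sum_le_sum_abs _ _).trans ?_
  have hQ : 0 ≤ ((Nat.log 2 Y + 1 : ℕ) : ℝ) ^ 2 *
      (C2 * (Real.log Y) ^ E2 * (V : ℝ) ^ (-(1 / 6 : ℝ))) := by positivity
  have hstep : ∀ e ∈ Fintype.piFinset (Function.update (Function.update t i {1}) j {1}),
      |∑ n ∈ AT.lg z y V Y, ∑ m ∈ AT.lg z y V Y,
        AT.HH w L κ c (Function.update (Function.update e j n) i m) *
          φ (om (Function.update (Function.update e j n) i m))| ≤
      (∏ k ∈ univ.erase j, (if k = i then 1 else gw (w k) c (e k))) *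
        (((Nat.log 2 Y + 1 : ℕ) : ℝ) ^ 2 *
          (C2 * (Real.log Y) ^ E2 * (V : ℝ) ^ (-(1 / 6 : ℝ)))) := by
    intro e he
    have he' : ∀ b, e b ∈ (PP z y).divisors := by
      intro b
      have := Fintype.mem_piFinset.1 he b
      by_cases hb : b = j
      · subst hb
        rw [Function.update_self, mem_singleton] at this
        rw [this]
        exact one_mem_dv z y
      · rw [Function.update_of_ne hb] at this
        by_cases hb' : b = i
        · subst hb'
          rw [Function.update_self, mem_singleton] at this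
          rw [this]
          exact one_mem_dv z y
        · rw [Function.update_of_ne hb'] at this
          exact ht b this
    refine (phi_inner hB h2 hij hLi hL1 hL2 hV hVY he' hφ).trans ?_
    apply mul_le_mul_of_nonneg_right _ hQ
    apply le_of_eq
    have him : i ∈ univ.erase j := mem_erase.2 ⟨hij, mem_univ i⟩
    rw [← mul_prod_erase _ _ him, if_pos rfl, one_mul]
    have : (univ.erase i).erase j = (univ.erase j).erase i := by
      ext k
      simp only [mem_erase, mem_univ, and_true]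
      tauto
    rw [this]
    apply prod_congr rfl
    intro k hk
    rw [if_neg (mem_erase.1 hk).1]
  refine (sum_le_sum hstep).trans ?_
  rw [← sum_mul, AT.sum_others j (Function.update t i {1}) (fun k m => if k = i then 1 else gw (w k) c m)]
  apply mul_le_mul_of_nonneg_right _ hQ
  have hCl : 1 ≤ C * Real.log y := by nlinarith [hB.C1]
  have hf : ∀ k ∈ univ.erase j, ∑ m ∈ Function.update t i {1} k,
      (if k = i then 1 else gw (w k) c m) ≤ C * Real.log y := by
    intro k _
    by_cases hk : k = i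
    · subst hk
      rw [Function.update_self]
      simpa using hCl
    · rw [Function.update_of_ne hk]
      simp only [if_neg hk]
      calc ∑ m ∈ t k, gw (w k) c m ≤ ∑ m ∈ (PP z y).divisors, gw (w k) c m :=
            sum_le_sum_of_subset_of_nonneg (ht k) fun m hm _ => gw_nonneg (hB.w0 k).le hcz hm
        _ ≤ ∑ m ∈ (PP z y).divisors, gw (w k) c m * hh m :=
            sum_le_sum fun m hm => AT.gw_le_hh hB k hm
        _ ≤ C * (Real.log y) ^ (w k) := hB.F1 k y hy
        _ ≤ C * Real.log y := by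
          apply mul_le_mul_of_nonneg_left _ hC0
          calc (Real.log y) ^ (w k) ≤ (Real.log y) ^ (1 : ℝ) :=
                Real.rpow_le_rpow_of_exponent_le hly (by have := hB.w1 k; linarith)
            _ = Real.log y := Real.rpow_one _
  have hf0 : ∀ k ∈ univ.erase j, 0 ≤ ∑ m ∈ Function.update t i {1} k,
      (if k = i then 1 else gw (w k) c m) := by
    intro k _
    apply sum_nonneg
    intro m hm
    by_cases hk : k = i
    · rw [if_pos hk]; exact zero_le_one
    · rw [if_neg hk]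
      rw [Function.update_of_ne hk] at hm
      exact gw_nonneg (hB.w0 k).le hcz (ht k hm)
  calc ∏ k ∈ univ.erase j, ∑ m ∈ Function.update t i {1} k, (if k = i then 1 else gw (w k) c m)
      ≤ ∏ k ∈ univ.erase j, (C * Real.log y) := prod_le_prod hf0 hf
    _ = (C * Real.log y) ^ (univ.erase j).card := by rw [prod_const]
    _ ≤ (C * Real.log y) ^ (Fintype.card ι) := by
      apply pow_le_pow_right₀ hCl
      exact (card_le_card (erase_subset _ _)).trans (le_of_eq card_univ)

lemma log_two_bd {Y : ℕ} {B : ℝ} (hY : Y ≠ 0) (h1 : 1 ≤ B) (h : Real.log Y ≤ B) :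
    ((Nat.log 2 Y + 1 : ℕ) : ℝ) ≤ 3 * B := by
  have h2 : (2 : ℝ) ^ (Nat.log 2 Y) ≤ Y := by exact_mod_cast Nat.pow_log_le_self 2 hY
  have h3 : (Nat.log 2 Y : ℝ) * Real.log 2 ≤ Real.log Y := by
    rw [← Real.log_pow]
    exact Real.log_le_log (by positivity) h2
  have h4 := Real.log_two_gt_d9
  push_cast
  have h5 : (0 : ℝ) ≤ (Nat.log 2 Y : ℝ) := Nat.cast_nonneg _
  nlinarith

end LNK

theorem lnk : S_LNK := by
  intro ι _ _ w L κ c z C C2 E2 A π i j hB hC2 h2 hL hA hi hj hij
  have hC0 : 0 ≤ C := zero_le_one.trans hB.C1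
  refine ⟨C ^ (Fintype.card ι) * C2 * (A + 3) ^ E2 * (3 * (A + 3)) ^ 2, fun φ hφ y hy => ?_⟩
  have hly := AT.one_le_log hB.z2 hy
  have hly0 : 0 < Real.log y := by linarith
  set l := Real.log y with hl
  set V := AT.VV A l with hV
  set Y := AT.YY A l with hY
  have hV3 : 3 ≤ V := AT.three_le_VV A l
  have hVY : V ≤ Y := AT.VV_le_YY A l
  have hne : i ≠ j := by rintro rfl; exact hij rfl
  have hc2 : ∀ b, π b = 2 → AT.cell z y V Y (π b) = AT.lg z y V Y := fun b hb => by
    rw [hb]; exact AT.cell_two (by omega)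
  have hmain : |∑ d ∈ Fintype.piFinset (fun b => AT.cell z y V Y (π b)),
      AT.HH w L κ c d * φ (om d)| ≤
      (C * l) ^ (Fintype.card ι) * (((Nat.log 2 Y + 1 : ℕ) : ℝ) ^ 2 *
        (C2 * (Real.log Y) ^ E2 * (V : ℝ) ^ (-(1 / 6 : ℝ)))) := by
    rcases h1 : L i j with _ | _
    · rcases h1' : L j i with _ | _
      · rw [h1, h1'] at hij; exact absurd rfl hij
      · exact LNK.phi_case hB hC2 h2 hne.symm (hL j) h1' h1 hy (by omega) hVY
          (fun b => AT.cell_sub _ _ _ _ _) (hc2 j hj) (hc2 i hi) hφ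
    · rcases h1' : L j i with _ | _
      · exact LNK.phi_case hB hC2 h2 hne (hL i) h1 h1' hy (by omega) hVY
          (fun b => AT.cell_sub _ _ _ _ _) (hc2 i hi) (hc2 j hj) hφ
      · rw [h1, h1'] at hij; exact absurd rfl hij
  refine hmain.trans ?_
  have h3 : Real.log Y ≤ (A + 3) * l ^ 2 := AT.log_YY_le hly
  have h3' : 0 ≤ Real.log Y := Real.log_natCast_nonneg Y
  have h4 : (V : ℝ) ^ (-(1 / 6 : ℝ)) ≤ (l ^ (Fintype.card ι + 2 * E2 + 4))⁻¹ := by
    have h5 : l ^ (6 * (Fintype.card ι + 2 * E2 + 4)) ≤ V :=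
      (pow_le_pow_right₀ hly hA).trans (AT.VV_ge A l)
    have h6 : (0 : ℝ) < l ^ (6 * (Fintype.card ι + 2 * E2 + 4)) := by positivity
    have h7 : (V : ℝ) ^ (-(1 / 6 : ℝ)) ≤
        (l ^ (6 * (Fintype.card ι + 2 * E2 + 4))) ^ (-(1 / 6 : ℝ)) :=
      Real.rpow_le_rpow_of_nonpos h6 h5 (by norm_num)
    refine h7.trans (le_of_eq ?_)
    rw [← Real.rpow_natCast l, ← Real.rpow_mul hly0.le, ← Real.rpow_natCast l,
      ← Real.rpow_neg hly0.le]
    congr 1
    push_cast
    ring
  have h5 : ((Nat.log 2 Y + 1 : ℕ) : ℝ) ≤ 3 * ((A + 3) * l ^ 2) := by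
    apply LNK.log_two_bd (by omega) _ h3
    have hA0 : (0 : ℝ) ≤ A := Nat.cast_nonneg A
    have : 1 ≤ l ^ 2 := one_le_pow₀ hly
    nlinarith
  calc (C * l) ^ (Fintype.card ι) * (((Nat.log 2 Y + 1 : ℕ) : ℝ) ^ 2 *
        (C2 * (Real.log Y) ^ E2 * (V : ℝ) ^ (-(1 / 6 : ℝ))))
      ≤ (C * l) ^ (Fintype.card ι) * ((3 * ((A + 3) * l ^ 2)) ^ 2 *
          (C2 * ((A + 3) * l ^ 2) ^ E2 * (l ^ (Fintype.card ι + 2 * E2 + 4))⁻¹)) := by
        apply mul_le_mul_of_nonneg_left _ (by positivity)
        apply mul_le_mul (pow_le_pow_left₀ (by positivity) h5 2) _ (by positivity) (by positivity)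
        apply mul_le_mul _ h4 (by positivity) (by positivity)
        exact mul_le_mul_of_nonneg_left (pow_le_pow_left₀ h3' h3 _) hC2
    _ = C ^ (Fintype.card ι) * C2 * (A + 3) ^ E2 * (3 * (A + 3)) ^ 2 := by
        rw [mul_pow, mul_pow _ _ E2, ← pow_mul, pow_add, pow_add]
        field_simp

end Pool.Agent.TH344.DT
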