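import Pool.Agent.TH344.DT.Stm
import Pool.Agent.W307.FK.Main

/-!
# DT-AVG: weighted `k`-th moments over short squares

Adapted from helper307's `avgfg_of` and `avgng_of` (`Pool/Agent/W307/FK/Gen.lean`), which go back to
helper612 and helper736.
-/

set_option autoImplicit false

namespace Pool.Agent.TH344.DT

namespace AvgP

open Finset Pool.Agent.W262.RK Pool.Agent.W307.RT Pool.Agent.W307.RS Pool.Agent.W307.SE
  Pool.Agent.W307.FK
open Pool.Agent.W612.FK (fF0 fF1 fF2 gd_fF fF_size)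
open Pool.Agent.W307.FK.G (SELFG Th TS)

/-! ### The weight -/

section Rho

variable {J : Type} [Fintype J] {T : Finset (J → ℝ)}

lemma rho_nonneg (hT : ∀ t ∈ T, ∀ j, 0 < t j) (n : J → ℕ) : 0 ≤ rho T n := by
  classical
  unfold rho
  rw [Finset.le_inf'_iff]
  intro t ht
  refine prod_nonneg fun j _ => ?_
  rcases mem_insert.1 ht with rfl | h
  · simp
  · exact (pow_pos (hT t h j) _).le

lemma rho_le_one (T : Finset (J → ℝ)) (n : J → ℕ) : rho T n ≤ 1 := by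
  classical
  unfold rho
  refine (Finset.inf'_le _ (mem_insert_self _ _)).trans ?_
  simp

/-- an upper bound for the coordinates -/
noncomputable def DD (T : Finset (J → ℝ)) : ℝ := 1 + ∑ t ∈ T, ∑ j, t j

lemma one_le_DD (hT : ∀ t ∈ T, ∀ j, 0 < t j) : 1 ≤ DD T := by
  unfold DD
  have : 0 ≤ ∑ t ∈ T, ∑ j, t j := sum_nonneg fun t ht => sum_nonneg fun j _ => (hT t ht j).le
  linarith

lemma le_DD (hT : ∀ t ∈ T, ∀ j, 0 < t j) {t : J → ℝ} (ht : t ∈ T) (j : J) : t j ≤ DD T := by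
  unfold DD
  have h1 : t j ≤ ∑ j, t j :=
    single_le_sum (f := fun j => t j) (fun j _ => (hT t ht j).le) (mem_univ j)
  have h2 : ∑ j, t j ≤ ∑ t ∈ T, ∑ j, t j :=
    single_le_sum (f := fun t' : J → ℝ => ∑ j, t' j)
      (fun t' ht' => sum_nonneg (f := fun j => t' j) fun j _ => (hT t' ht' j).le) ht
  linarith

/-- the weight grows slowly -/
lemma rho_lip (hT : ∀ t ∈ T, ∀ j, 0 < t j) (n n' : J → ℕ) (h : ∀ j, n j ≤ n' j) :
    rho T n' ≤ DD T ^ (∑ j, (n' j - n j)) * rho T n := by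
  classical
  obtain ⟨t, ht, he⟩ := Finset.exists_mem_eq_inf' (insert_nonempty (fun _ => (1 : ℝ)) T)
    (fun t : J → ℝ => ∏ j, t j ^ n j)
  have he' : rho T n = ∏ j, t j ^ n j := by
    rw [← he]
    rfl
  have hpos : ∀ j, 0 < t j := by
    intro j
    rcases mem_insert.1 ht with rfl | h1
    · exact one_pos
    · exact hT t h1 j
  have hle : ∀ j, t j ≤ DD T := by
    intro j
    rcases mem_insert.1 ht with rfl | h1
    · exact one_le_DD hT
    · exact le_DD hT h1 j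
  have h1 : rho T n' ≤ ∏ j, t j ^ n' j := by
    unfold rho
    exact Finset.inf'_le _ ht
  refine h1.trans ?_
  have h2 : ∏ j, t j ^ n' j = (∏ j, t j ^ (n' j - n j)) * ∏ j, t j ^ n j := by
    rw [← prod_mul_distrib]
    refine prod_congr rfl fun j _ => ?_
    rw [← pow_add, Nat.sub_add_cancel (h j)]
  rw [h2, he']
  refine mul_le_mul_of_nonneg_right ?_ (prod_nonneg fun j _ => (pow_pos (hpos j) _).le)
  rw [← prod_pow_eq_pow_sum]
  exact prod_le_prod (fun j _ => (pow_pos (hpos j) _).le)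
    fun j _ => pow_le_pow_left₀ (hpos j).le (hle j) _

/-- the weight grows slowly, with a bound for the exponent -/
lemma rho_lip' (hT : ∀ t ∈ T, ∀ j, 0 < t j) (n n' : J → ℕ) (h : ∀ j, n j ≤ n' j) (m : ℕ)
    (hm : ∑ j, (n' j - n j) ≤ m) : rho T n' ≤ DD T ^ m * rho T n :=
  (rho_lip hT n n' h).trans (mul_le_mul_of_nonneg_right
    (pow_le_pow_right₀ (one_le_DD hT) hm) (rho_nonneg hT _))

end Rho

/-! ### The prime factors of the values -/

lemma pf_S1 (z y : ℕ) (f : Fin 3 → ℤ) (j : Fin 3) : (S1 z y f j).primeFactors =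
    (PS z y).filter (fun p : ℕ => (p : ℤ) ∣ f j ∧ ¬ (p : ℤ) ^ 2 ∣ f j) := by
  unfold S1
  refine Nat.primeFactors_prod fun p hp => ?_
  exact (mem_filter.1 (mem_filter.1 hp).1).2

lemma pf_S2 (z y : ℕ) (f : Fin 3 → ℤ) (j : Fin 3) : (S2 z y f j).primeFactors =
    (PS z y).filter (fun p : ℕ => (p : ℤ) ^ 2 ∣ f j) := by
  unfold S2
  refine Nat.primeFactors_prod fun p hp => ?_
  exact (mem_filter.1 (mem_filter.1 hp).1).2

lemma card_S1_le (z y : ℕ) (f : Fin 3 → ℤ) (j : Fin 3) (h0 : f j ≠ 0) :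
    (S1 z y f j).primeFactors.card ≤ (f j).natAbs.primeFactors.card := by
  refine card_le_card fun p hp => ?_
  rw [pf_S1] at hp
  obtain ⟨h1, h2, _⟩ := mem_filter.1 hp
  exact Nat.mem_primeFactors.2 ⟨(mem_filter.1 h1).2, Int.natCast_dvd.1 h2,
    Int.natAbs_ne_zero.2 h0⟩

/-- the large prime factors -/
lemma card_large (y X k B m : ℕ) (hm : m ≠ 0) (hmX : m ≤ X ^ B) (hX : X < (y + 1) ^ k) :
    (m.primeFactors.filter (fun p => y < p)).card ≤ k * B := by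
  set P := m.primeFactors.filter (fun p => y < p) with hP
  have h1 : (y + 1) ^ P.card ≤ ∏ p ∈ P, p := by
    rw [← prod_const]
    exact prod_le_prod' fun p hp => (mem_filter.1 hp).2
  have h2 : ∏ p ∈ P, p ∣ m := (prod_dvd_prod_of_subset _ _ _ (filter_subset _ _)).trans
    (Nat.prod_primeFactors_dvd m)
  have h3 : ∏ p ∈ P, p ≤ m := Nat.le_of_dvd (Nat.pos_of_ne_zero hm) h2
  have h4 : X ^ B ≤ (y + 1) ^ (k * B) := by
    rw [pow_mul]
    exact Nat.pow_le_pow_left hX.le B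
  have h5 : (y + 1) ^ P.card ≤ (y + 1) ^ (k * B) := h1.trans (h3.trans (hmX.trans h4))
  by_contra hcon
  push Not at hcon
  -- `y + 1 ≥ 2` if there is a large prime factor
  by_cases hy : y = 0
  · subst hy
    have h6 : m ≤ 1 := by
      refine hmX.trans ?_
      have : X = 0 := by
        simp only [zero_add, one_pow] at hX
        omega
      rw [this]
      rcases Nat.eq_zero_or_pos B with hB | hB
      · rw [hB, pow_zero]
      · rw [zero_pow hB.ne']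
        exact zero_le_one
    have h7 : m = 1 := by omega
    have h8 : P = ∅ := by
      rw [hP, h7]
      simp
    rw [h8, card_empty] at hcon
    omega
  · exact absurd h5 (not_le.2 (Nat.pow_lt_pow_right (by omega) hcon))

lemma card_f_le (z y X k B : ℕ) (f : Fin 3 → ℤ) (j : Fin 3) (h0 : f j ≠ 0)
    (hs : (f j).natAbs ≤ X ^ B) (hX : X < (y + 1) ^ k) :
    (f j).natAbs.primeFactors.card - (S1 z y f j).primeFactors.card ≤
      (S2 z y f j).primeFactors.card + (z + k * B) := by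
  have h0' : (f j).natAbs ≠ 0 := Int.natAbs_ne_zero.2 h0
  have h1 : (f j).natAbs.primeFactors ⊆ (S1 z y f j).primeFactors ∪
      ((S2 z y f j).primeFactors ∪ (Icc 1 z ∪
        (f j).natAbs.primeFactors.filter (fun p => y < p))) := by
    intro p hp
    have hpp := Nat.prime_of_mem_primeFactors hp
    have hpd : (p : ℤ) ∣ f j := Int.natCast_dvd.2 (Nat.dvd_of_mem_primeFactors hp)
    simp only [mem_union]
    by_cases hz : p ≤ z
    · exact Or.inr (Or.inr (Or.inl (mem_Icc.2 ⟨hpp.one_lt.le, hz⟩)))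
    by_cases hy : y < p
    · exact Or.inr (Or.inr (Or.inr (mem_filter.2 ⟨hp, hy⟩)))
    have hPS : p ∈ PS z y := mem_filter.2 ⟨mem_Ioc.2 ⟨by omega, by omega⟩, hpp⟩
    by_cases h2 : (p : ℤ) ^ 2 ∣ f j
    · refine Or.inr (Or.inl ?_)
      rw [pf_S2]
      exact mem_filter.2 ⟨hPS, h2⟩
    · refine Or.inl ?_
      rw [pf_S1]
      exact mem_filter.2 ⟨hPS, hpd, h2⟩
  have h2 := card_le_card h1
  have h3 := card_union_le (S1 z y f j).primeFactors
    ((S2 z y f j).primeFactors ∪ (Icc 1 z ∪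
        (f j).natAbs.primeFactors.filter (fun p => y < p)))
  have h4 := card_union_le (S2 z y f j).primeFactors (Icc 1 z ∪
        (f j).natAbs.primeFactors.filter (fun p => y < p))
  have h5 := card_union_le (Icc 1 z) ((f j).natAbs.primeFactors.filter (fun p => y < p))
  have h6 := card_large y X k B _ h0' hs hX
  rw [Nat.card_Icc] at h5
  omega

/-! ### The growth -/

lemma NF_nonneg (k : ℕ) (s : Fin 3 → ℕ) : 0 ≤ NF k s := by
  unfold NF
  exact mul_nonneg (by positivity) (sum_nonneg fun _ _ => pow_nonneg (Nat.cast_nonneg _) _)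

lemma growth {T : Finset (Fin 3 → ℝ)} (hT : ∀ t ∈ T, ∀ j, 0 < t j) (k z y : ℕ) (hz : 2 ≤ z)
    (s e : Fin 3 → ℕ) (hse : (fun j => s j * e j) ∈ Tup (Fin 3) z y) :
    NF k (fun j => s j * e j) * rho T (om (fun j => s j * e j)) ≤
      (4 ^ k * DD T) ^ (∑ j, (e j).primeFactors.card) * (NF k s * rho T (om s)) := by
  have h1 := Pool.Agent.W503.FK.subf k z y hz s e hse
  have hne : ∀ j, s j * e j ≠ 0 := by
    intro j
    have h2 := (Pool.Agent.W503.FK.mem_Tup hse).1 j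
    exact Nat.pos_of_mem_divisors h2 |>.ne'
  have h2 : rho T (om (fun j => s j * e j)) ≤
      DD T ^ (∑ j, (e j).primeFactors.card) * rho T (om s) := by
    refine rho_lip' hT _ _ (fun j => ?_) _ (sum_le_sum fun j _ => ?_)
    · exact card_le_card (Nat.primeFactors_mono (Dvd.intro _ rfl) (hne j))
    · unfold om
      have h3 : (s j * e j).primeFactors = (s j).primeFactors ∪ (e j).primeFactors :=
        Nat.primeFactors_mul (left_ne_zero_of_mul (hne j)) (right_ne_zero_of_mul (hne j))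
      rw [h3]
      have := card_union_le (s j).primeFactors (e j).primeFactors
      omega
  calc NF k (fun j => s j * e j) * rho T (om (fun j => s j * e j))
      ≤ ((4 ^ k : ℝ) ^ (∑ j, (e j).primeFactors.card) * NF k s) *
        (DD T ^ (∑ j, (e j).primeFactors.card) * rho T (om s)) :=
        mul_le_mul h1 h2 (rho_nonneg hT _) (mul_nonneg (by positivity) (NF_nonneg _ _))
    _ = _ := by
        rw [mul_pow]
        ring

/-! ### The short squares -/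

/-- the numbers of the prime factors of the values -/
def omf (f : Fin 3 → ℤ) (j : Fin 3) : ℕ := (f j).natAbs.primeFactors.card

/-- the summand -/
noncomputable def RR (k : ℕ) (T : Finset (Fin 3 → ℝ)) (G : ℤ → ℤ → ℕ) (D N1 N2 : ℤ)
    (t : ℕ × ℕ) : ℝ :=
  ((G (D * fF (N1 + (t.1 : ℤ)) (N2 + (t.2 : ℤ)) 0)
      (D * fF (N1 + (t.1 : ℤ)) (N2 + (t.2 : ℤ)) 1)) : ℝ) ^ k *
    rho T (omf (fF (N1 + (t.1 : ℤ)) (N2 + (t.2 : ℤ))))

lemma RR_nonneg {T : Finset (Fin 3 → ℝ)} (hT : ∀ t ∈ T, ∀ j, 0 < t j) (k : ℕ) (G : ℤ → ℤ → ℕ)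
    (D N1 N2 : ℤ) (t : ℕ × ℕ) : 0 ≤ RR k T G D N1 N2 t := by
  unfold RR
  exact mul_nonneg (by positivity) (rho_nonneg hT _)

lemma RR_small {T : Finset (Fin 3 → ℝ)} (hT : ∀ t ∈ T, ∀ j, 0 < t j) (k : ℕ)
    {G : ℤ → ℤ → ℕ} (h1 : SELFG G) (M : ℕ) (hM : 1 ≤ M) (D N1 N2 : ℤ) (t : ℕ × ℕ)
    (hD : D ≠ 0) (huv : IsCoprime (N1 + (t.1 : ℤ)) (N2 + (t.2 : ℤ)))
    (h0 : ∀ j, fF (N1 + (t.1 : ℤ)) (N2 + (t.2 : ℤ)) j ≠ 0)
    (hs : ∀ j, (fF (N1 + (t.1 : ℤ)) (N2 + (t.2 : ℤ)) j).natAbs ≤ M) :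
    RR k T G D N1 N2 t ≤ (4 ^ 4 * 64 ^ M) ^ k * (2 * 8 ^ k) ^ D.natAbs.primeFactors.card := by
  have h := Pool.Agent.W307.FK.G.one_le h1 M hM D _ _ hD huv h0 hs
  unfold RR
  refine (mul_le_of_le_one_right (by positivity) (rho_le_one _ _)).trans ?_
  refine (pow_le_pow_left₀ (Nat.cast_nonneg _) h k).trans ?_
  rw [mul_pow _ ((8 : ℝ) ^ D.natAbs.primeFactors.card) k]
  refine mul_le_mul_of_nonneg_left ?_ (by positivity)
  rw [← pow_mul, mul_comm, pow_mul]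
  refine pow_le_pow_left₀ (by positivity) ?_ _
  have : (0 : ℝ) ≤ 8 ^ k := by positivity
  linarith

/-- the average over the values of the forms -/
theorem avgf_of {T : Finset (Fin 3 → ℝ)} (hT : ∀ t ∈ T, ∀ j, 0 < t j) (κ : ℕ)
    {G : ℤ → ℤ → ℕ} (h1 : SELFG G) (h2 : Pool.Agent.W307.FK.CNTF) (h3 : MAFW κ T) :
    ∀ B : ℕ, ∃ C : ℝ, 0 ≤ C ∧ ∀ (D N1 N2 : ℤ) (X : ℕ), D ≠ 0 →
    1 ≤ X → N1.natAbs ≤ X ^ B → N2.natAbs ≤ X ^ B →
    ∑ t ∈ TS N1 N2 X, RR κ T G D N1 N2 t ≤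
      C * (2 * 8 ^ κ) ^ D.natAbs.primeFactors.card * X ^ 2 := by
  intro B
  have hant : ANTU := Pool.Agent.W307.RS.antu
  have hDD : 1 ≤ DD T := one_le_DD hT
  have hDD0 : 0 < DD T := by linarith
  obtain ⟨n, hn⟩ : ∃ n, n = Fintype.card (Fin 3) := ⟨_, rfl⟩
  have hn3 : n = 3 := by rw [hn, Fintype.card_fin]
  obtain ⟨z0, hz0⟩ := h3
  obtain ⟨z, hz⟩ : ∃ z, z = z0 + 8 := ⟨_, rfl⟩
  have hz2 : 2 ≤ z := by omega
  have hzn : 2 * Fintype.card (Fin 3) + 2 ≤ z := by rw [Fintype.card_fin]; omega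
  obtain ⟨C', hC'⟩ := hz0 z (by omega)
  obtain ⟨C, K, y0, hC0, hK1, hcn⟩ := h2 z B hzn
  obtain ⟨y1, hy1⟩ : ∃ y1, y1 = y0 + 6 := ⟨_, rfl⟩
  suffices key : ∃ C2 : ℝ, ∀ θ : Th B,
      ∑ t ∈ TS θ.1.2.1 θ.1.2.2.1 θ.1.2.2.2, RR κ T G θ.1.1 θ.1.2.1 θ.1.2.2.1 t ≤
        C2 * ((2 * 8 ^ κ) ^ θ.1.1.natAbs.primeFactors.card * (θ.1.2.2.2 : ℝ) ^ 2) by
    obtain ⟨C2, hC2⟩ := key
    refine ⟨max C2 0, le_max_right _ _, fun D N1 N2 X hD hX hN1 hN2 => ?_⟩
    have h5 := hC2 ⟨(D, N1, N2, X), hD, hX, hN1, hN2⟩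
    refine h5.trans ?_
    show C2 * ((2 * 8 ^ κ) ^ D.natAbs.primeFactors.card * (X : ℝ) ^ 2) ≤ _
    rw [mul_assoc]
    exact mul_le_mul_of_nonneg_right (le_max_left _ _) (by positivity)
  refine hant (Fin 3) (ℕ × ℕ) (Th B) (fun θ => TS θ.1.2.1 θ.1.2.2.1 θ.1.2.2.2)
    (fun θ => θ.1.2.2.2)
    (fun θ t => fF (θ.1.2.1 + (t.1 : ℤ)) (θ.1.2.2.1 + (t.2 : ℤ)))
    (fun θ => (2 * 8 ^ κ) ^ θ.1.1.natAbs.primeFactors.card * (θ.1.2.2.2 : ℝ) ^ 2) z
    (fun s => NF κ s * rho T (om s))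
    (fun θ t => RR κ T G θ.1.1 θ.1.2.1 θ.1.2.2.1 t) (4 ^ κ * DD T)
    (C * (4 ^ (z + 2)) ^ κ * DD T ^ (n * z)) C'
    (((4 ^ (B + 2)) ^ n) ^ κ * DD T ^ (n * (B + 2))) K y1 hzn (fun θ => θ.2.2.1)
    (fun θ => by positivity) (fun X0 => ?_)
    (fun θ ω hω => ?_) (fun s => mul_nonneg (NF_nonneg _ _) (rho_nonneg hT _))
    (fun θ t => RR_nonneg hT _ _ _ _ _ _)
    (one_le_mul_of_one_le_of_one_le (one_le_pow₀ (by norm_num)) hDD)
    (by positivity)
    (one_le_mul_of_one_le_of_one_le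
      (one_le_pow₀ (one_le_pow₀ (one_le_pow₀ (by norm_num)))) (one_le_pow₀ hDD)) hK1
    (fun y hy s e hse => growth hT κ z y hz2 s e hse)
    hC' ?_
  · -- small scales
    obtain ⟨M, hM⟩ : ∃ M, M = 3 * (X0 ^ B + X0) + 1 := ⟨_, rfl⟩
    refine ⟨(4 ^ 4 * 64 ^ M) ^ κ, ?_⟩
    rintro ⟨⟨D, N1, N2, X⟩, hD, hX1, hN1, hN2⟩ hle
    simp only at hD hX1 hN1 hN2 hle ⊢
    have hXB : X ^ B ≤ X0 ^ B := Nat.pow_le_pow_left hle B
    have hb : ∀ t ∈ TS N1 N2 X, RR κ T G D N1 N2 t ≤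
        (4 ^ 4 * 64 ^ M) ^ κ * (2 * 8 ^ κ) ^ D.natAbs.primeFactors.card := by
      intro t ht
      simp only [TS, mem_filter, mem_product, mem_Icc] at ht
      refine RR_small hT κ h1 M (by omega) D N1 N2 t hD ht.2.1 ht.2.2 fun j => ?_
      have h6 : (N1 + (t.1 : ℤ)).natAbs ≤ X0 ^ B + X0 := by
        have h61 : t.1 ≤ X := ht.1.1.2
        omega
      have h7 : (N2 + (t.2 : ℤ)).natAbs ≤ X0 ^ B + X0 := by
        have h71 : t.2 ≤ X := ht.1.2.2
        omega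
      have h8 := fF_size h6 h7 j
      omega
    have hcard : ((TS N1 N2 X).card : ℝ) ≤ (X : ℝ) ^ 2 := by
      have h6 : (TS N1 N2 X).card ≤ X ^ 2 := by
        unfold TS
        refine (card_filter_le _ _).trans ?_
        rw [card_product, Nat.card_Icc]
        simp only [Nat.add_sub_cancel]
        rw [pow_two]
      exact_mod_cast h6
    calc ∑ t ∈ TS N1 N2 X, RR κ T G D N1 N2 t
        ≤ ∑ _t ∈ TS N1 N2 X,
            (4 ^ 4 * 64 ^ M) ^ κ * (2 * 8 ^ κ) ^ D.natAbs.primeFactors.card :=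
          sum_le_sum hb
      _ = ((TS N1 N2 X).card : ℝ) *
            ((4 ^ 4 * 64 ^ M) ^ κ * (2 * 8 ^ κ) ^ D.natAbs.primeFactors.card) := by
          rw [sum_const, nsmul_eq_mul]
      _ ≤ (X : ℝ) ^ 2 * ((4 ^ 4 * 64 ^ M) ^ κ * (2 * 8 ^ κ) ^ D.natAbs.primeFactors.card) :=
          mul_le_mul_of_nonneg_right hcard (by positivity)
      _ = _ := by ring
  · simp only [TS, mem_filter] at hω
    exact gd_fF z hω.2.1 hω.2.2
  -- the local majorant
  rintro ⟨⟨D, N1, N2, X⟩, hD, hX1, hN1, hN2⟩ y Y k hy0 hzy hyK hk s hs v hv u hu h8 T' hT' hval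
  simp only at hD hX1 hN1 hN2 hyK hk h8 hT' hval ⊢
  have hy00 : y0 ≤ y := by omega
  have hyX : y ≤ X := le_trans (Nat.le_self_pow (by omega) y) hyK
  obtain ⟨ff, hff⟩ : ∃ ff : ℕ × ℕ → Fin 3 → ℤ,
    ff = fun t => fF (N1 + (t.1 : ℤ)) (N2 + (t.2 : ℤ)) := ⟨_, rfl⟩
  obtain ⟨sg, hsg⟩ : ∃ sg : ℕ × ℕ → Finset ℕ,
    sg = fun t => sgF (D * fF (N1 + (t.1 : ℤ)) (N2 + (t.2 : ℤ)) 0)
        (D * fF (N1 + (t.1 : ℤ)) (N2 + (t.2 : ℤ)) 1) (∏ j, s j) := ⟨_, rfl⟩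
  obtain ⟨g, hg⟩ : ∃ g : Finset ℕ → ℝ, g = fun E => (NL (∏ j, s j) (LF s E) : ℝ) ^ κ := ⟨_, rfl⟩
  obtain ⟨ρ, hρ⟩ : ∃ ρ : ℝ, ρ = rho T (om s) := ⟨_, rfl⟩
  have hρ0 : 0 ≤ ρ := by rw [hρ]; exact rho_nonneg hT _
  have hg0 : ∀ E, 0 ≤ g E := fun E => by rw [hg]; exact pow_nonneg (Nat.cast_nonneg _) _
  have h5 : ∀ t ∈ T', RR κ T G D N1 N2 t ≤
      ((4 ^ (z + 2)) ^ κ * DD T ^ (n * z)) * ((8 ^ κ) ^ D.natAbs.primeFactors.card *
        (((4 ^ (B + 2)) ^ n) ^ κ * DD T ^ (n * (B + 2))) ^ k) *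
        (4 ^ κ * DD T) ^ (∑ j, (v j).primeFactors.card) * ρ * g (sg t) := by
    intro t ht
    have htT := hT' ht
    simp only [TS, mem_filter, mem_product, mem_Icc] at htT
    obtain ⟨ht1, htc, ht0⟩ := htT
    obtain ⟨hts, htv, _⟩ := hval t ht
    have hsize : ∀ j, (fF (N1 + (t.1 : ℤ)) (N2 + (t.2 : ℤ)) j).natAbs ≤ X ^ (B + 2) := by
      intro j
      have e5 : X ^ B ≤ X ^ (B + 1) := Nat.pow_le_pow_right hX1 (by omega)
      have e6 : X ≤ X ^ (B + 1) := Nat.le_self_pow (by omega) X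
      have h6 : (N1 + (t.1 : ℤ)).natAbs ≤ X ^ B + X := by
        have h61 : t.1 ≤ X := ht1.1.2
        omega
      have h7 : (N2 + (t.2 : ℤ)).natAbs ≤ X ^ B + X := by
        have h71 : t.2 ≤ X := ht1.2.2
        omega
      calc (fF (N1 + (t.1 : ℤ)) (N2 + (t.2 : ℤ)) j).natAbs ≤ 3 * (X ^ B + X) := fF_size h6 h7 j
        _ ≤ 3 * (X ^ (B + 1) + X ^ (B + 1)) := Nat.mul_le_mul_left _ (Nat.add_le_add e5 e6)
        _ = 6 * X ^ (B + 1) := by ring
        _ ≤ X * X ^ (B + 1) := Nat.mul_le_mul_right _ (by omega)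
        _ = X ^ (B + 2) := by ring
    have hr := (h1 (fF (N1 + (t.1 : ℤ)) (N2 + (t.2 : ℤ))) D z y X k (B + 2) hz2 hD
      (gd_fF z htc ht0) (by rw [fF0, fF1, fF2]; ring) hsize hX1 (by omega) hk)
    rw [hts, htv, ← hn] at hr
    have hr' : ((G (D * fF (N1 + (t.1 : ℤ)) (N2 + (t.2 : ℤ)) 0)
        (D * fF (N1 + (t.1 : ℤ)) (N2 + (t.2 : ℤ)) 1)) : ℝ) ≤
        4 ^ (z + 2) * 8 ^ D.natAbs.primeFactors.card * ((4 ^ (B + 2)) ^ n) ^ k *
          4 ^ (∑ j, (v j).primeFactors.card) * (NL (∏ j, s j) (LF s (sg t)) : ℝ) := by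
      rw [hsg]
      exact_mod_cast hr
    -- the weight
    have hw : rho T (omf (fF (N1 + (t.1 : ℤ)) (N2 + (t.2 : ℤ)))) ≤
        DD T ^ (∑ j, (v j).primeFactors.card + (n * z + n * (B + 2) * k)) * ρ := by
      rw [hρ]
      refine rho_lip' hT _ _ (fun j => ?_) _ ?_
      · have := card_S1_le z y (fF (N1 + (t.1 : ℤ)) (N2 + (t.2 : ℤ))) j (ht0 j)
        rw [hts] at this
        exact this
      · have h6 : ∀ j ∈ (univ : Finset (Fin 3)),
            omf (fF (N1 + (t.1 : ℤ)) (N2 + (t.2 : ℤ))) j - om s j ≤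
            (v j).primeFactors.card + (z + k * (B + 2)) := by
          intro j _
          have := card_f_le z y X k (B + 2) (fF (N1 + (t.1 : ℤ)) (N2 + (t.2 : ℤ))) j (ht0 j)
            (hsize j) hk
          rw [hts, htv] at this
          exact this
        refine (sum_le_sum h6).trans (le_of_eq ?_)
        rw [sum_add_distrib, sum_const, card_univ, ← hn, smul_eq_mul]
        ring
    unfold RR
    refine (mul_le_mul (pow_le_pow_left₀ (Nat.cast_nonneg _) hr' κ) hw (rho_nonneg hT _)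
      (by positivity)).trans (le_of_eq ?_)
    rw [hg]
    simp only [mul_pow, ← pow_mul]
    ring
  have hneg : ∀ t ∈ T', sg t ∈ (∏ j, s j).primeFactors.powerset := by
    intro t _
    rw [mem_powerset, hsg]
    exact filter_subset _ _
  have h6 : ∑ t ∈ T', g (sg t) =
      ∑ E ∈ (∏ j, s j).primeFactors.powerset,
        ((T'.filter (fun t => sg t = E)).card : ℝ) * g E := by
    rw [← sum_fiberwise_of_maps_to hneg]
    refine sum_congr rfl fun E _ => ?_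
    rw [← nsmul_eq_mul, ← sum_const]
    refine sum_congr rfl fun t ht => ?_
    rw [(mem_filter.1 ht).2]
  obtain ⟨Q, hQ⟩ : ∃ Q : ℝ, Q = C * 2 ^ D.natAbs.primeFactors.card * X ^ 2 *
        (1 / 2) ^ (∏ j, s j).primeFactors.card *
        (∏ j, gw 1 n (s j)) * (∏ j, gw 1 n (v j) / v j) * (∏ j, 1 / (u j : ℝ)) /
        (Real.log y) ^ n := ⟨_, rfl⟩
  have h7 : ∀ E ∈ (∏ j, s j).primeFactors.powerset,
      ((T'.filter (fun t => sg t = E)).card : ℝ) * g E ≤ Q * g E := by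
    intro E _
    refine mul_le_mul_of_nonneg_right ?_ (hg0 E)
    have h9 := hcn D N1 N2 X y Y hD hN1 hN2 hy00 hzy hyK s hs v hv u hu h8 E
    rw [← hn, ← hQ] at h9
    refine le_trans ?_ h9
    refine Nat.cast_le.2 (card_le_card fun t ht => ?_)
    rw [mem_filter] at ht
    rw [mem_filter]
    obtain ⟨ht', htE⟩ := ht
    obtain ⟨hts, htv, htu⟩ := hval t ht'
    have htT := hT' ht'
    simp only [TS, mem_filter] at htT
    rw [hsg] at htE
    exact ⟨htT.1, htT.2.1, hts, htv, htu, htE⟩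
  have hpos1 : 0 ≤ ((4 ^ (z + 2)) ^ κ * DD T ^ (n * z)) *
      ((8 ^ κ) ^ D.natAbs.primeFactors.card *
        (((4 ^ (B + 2)) ^ n) ^ κ * DD T ^ (n * (B + 2))) ^ k) *
        (4 ^ κ * DD T) ^ (∑ j, (v j).primeFactors.card) * ρ := by positivity
  calc ∑ t ∈ T', RR κ T G D N1 N2 t
      ≤ ∑ t ∈ T', ((4 ^ (z + 2)) ^ κ * DD T ^ (n * z)) *
          ((8 ^ κ) ^ D.natAbs.primeFactors.card *
            (((4 ^ (B + 2)) ^ n) ^ κ * DD T ^ (n * (B + 2))) ^ k) *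
        (4 ^ κ * DD T) ^ (∑ j, (v j).primeFactors.card) * ρ * g (sg t) := sum_le_sum h5
    _ = ((4 ^ (z + 2)) ^ κ * DD T ^ (n * z)) *
          ((8 ^ κ) ^ D.natAbs.primeFactors.card *
            (((4 ^ (B + 2)) ^ n) ^ κ * DD T ^ (n * (B + 2))) ^ k) *
        (4 ^ κ * DD T) ^ (∑ j, (v j).primeFactors.card) * ρ *
          ∑ E ∈ (∏ j, s j).primeFactors.powerset,
            ((T'.filter (fun t => sg t = E)).card : ℝ) * g E := by
        rw [← mul_sum, h6]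
    _ ≤ ((4 ^ (z + 2)) ^ κ * DD T ^ (n * z)) *
          ((8 ^ κ) ^ D.natAbs.primeFactors.card *
            (((4 ^ (B + 2)) ^ n) ^ κ * DD T ^ (n * (B + 2))) ^ k) *
        (4 ^ κ * DD T) ^ (∑ j, (v j).primeFactors.card) * ρ *
          ∑ E ∈ (∏ j, s j).primeFactors.powerset, Q * g E :=
        mul_le_mul_of_nonneg_left (sum_le_sum h7) hpos1
    _ = _ := by
        have e1 : NF κ s = (1 / 2) ^ (∏ j, s j).primeFactors.card *
            ∑ E ∈ (∏ j, s j).primeFactors.powerset, g E := by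
          rw [hg]
          rfl
        have e2 : (∏ j, ((4 : ℝ) ^ κ * DD T) ^ (v j).primeFactors.card *
            (gw 1 n (v j) / v j)) =
            (4 ^ κ * DD T) ^ (∑ j, (v j).primeFactors.card) * ∏ j, (gw 1 n (v j) / v j) := by
          rw [prod_mul_distrib, prod_pow_eq_pow_sum]
        have e3 : (2 * 8 ^ κ : ℝ) ^ D.natAbs.primeFactors.card =
            (8 ^ κ) ^ D.natAbs.primeFactors.card * 2 ^ D.natAbs.primeFactors.card := by
          rw [← mul_pow]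
          congr 1
          ring
        rw [← hn, ← mul_sum, e1, e2, hQ, e3, ← hρ]
        ring

end AvgP

open Finset Pool.Agent.W262.RK Pool.Agent.W307.RT Pool.Agent.W307.RS Pool.Agent.W307.SE
  Pool.Agent.W307.FK AvgP in
open Pool.Agent.W307.FK.G (SELFG Th TS size_aux) in
theorem avg : S_AVG := by
  classical
  intro k T hT hM G hG B
  obtain ⟨C, hC0, hC⟩ := avgf_of hT k hG Pool.Agent.W307.FK.cntf hM (B + 2)
  refine ⟨C * 9, by positivity, ?_⟩
  intro D N1 N2 X hD hX hN1 hN2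
  set X' : ℕ := 3 * X with hX'
  have hXX' : X ≤ X' := by omega
  have hX'1 : 1 ≤ X' := hX.trans hXX'
  set N2' : ℤ := N2 - 2 * N1 - 2 * X with hN2'
  have hb1 : N1.natAbs ≤ X' ^ (B + 2) :=
    hN1.trans ((Nat.pow_le_pow_left hXX' B).trans (Nat.pow_le_pow_right hX'1 (by omega)))
  have hb2 : N2'.natAbs ≤ X' ^ (B + 2) := size_aux X B hX N1 N2 hN1 hN2
  have key := hC D N1 N2' X' hD hX'1 hb1 hb2
  set H : ℕ × ℕ → ℝ := fun t => if IsCoprime (N1 + (t.1 : ℤ)) (N2' + (t.2 : ℤ)) ∧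
      ∀ j, fF (N1 + (t.1 : ℤ)) (N2' + (t.2 : ℤ)) j ≠ 0 then RR k T G D N1 N2' t else 0 with hH
  have hH0 : ∀ t, 0 ≤ H t := by
    intro t
    rw [hH]
    simp only
    split_ifs
    · exact RR_nonneg hT _ _ _ _ _ _
    · exact le_rfl
  set φ : ℕ × ℕ → ℕ × ℕ := fun t => (t.1, t.2 + 2 * (X - t.1)) with hφ
  have hpt : ∀ t ∈ Icc 1 X ×ˢ Icc 1 X,
      SW k T G D (N1 + (t.1 : ℤ), N2 + (t.2 : ℤ)) ≤ H (φ t) := by
    intro t ht
    rw [mem_product, mem_Icc, mem_Icc] at ht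
    have hv : N2' + ((φ t).2 : ℤ) = (N2 + (t.2 : ℤ)) - 2 * (N1 + (t.1 : ℤ)) := by
      rw [hφ, hN2']
      simp only
      push_cast [Nat.cast_sub ht.1.2]
      ring
    have hu : ((φ t).1 : ℤ) = (t.1 : ℤ) := rfl
    have hcop : IsCoprime (N1 + (t.1 : ℤ)) (N2' + ((φ t).2 : ℤ)) ↔
        IsCoprime (N1 + (t.1 : ℤ)) (N2 + (t.2 : ℤ)) := by
      have : N2' + ((φ t).2 : ℤ) = N2 + (t.2 : ℤ) + (-2) * (N1 + (t.1 : ℤ)) := by
        rw [hv]; ring
      rw [this]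
      exact IsCoprime.add_mul_right_right_iff
    have f0 : fF (N1 + ((φ t).1 : ℤ)) (N2' + ((φ t).2 : ℤ)) 0 = N1 + (t.1 : ℤ) := by
      rw [hv, hu]
      simp only [fF, fv, αF, βF, Matrix.cons_val_zero]
      ring
    have f1 : fF (N1 + ((φ t).1 : ℤ)) (N2' + ((φ t).2 : ℤ)) 1 = N2 + (t.2 : ℤ) := by
      rw [hv, hu]
      simp only [fF, fv, αF, βF, Matrix.cons_val_one, Matrix.cons_val_zero]
      ring
    have f2 : fF (N1 + ((φ t).1 : ℤ)) (N2' + ((φ t).2 : ℤ)) 2 =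
        (N1 + (t.1 : ℤ)) - (N2 + (t.2 : ℤ)) := by
      rw [hv, hu]
      simp only [fF, fv, αF, βF, Matrix.cons_val]
      ring
    unfold SW
    simp only
    split_ifs with hc
    · have hcond : IsCoprime (N1 + ((φ t).1 : ℤ)) (N2' + ((φ t).2 : ℤ)) ∧
          ∀ j, fF (N1 + ((φ t).1 : ℤ)) (N2' + ((φ t).2 : ℤ)) j ≠ 0 := by
        refine ⟨hcop.mpr hc.1, ?_⟩
        intro k
        fin_cases k
        · change fF _ _ 0 ≠ 0
          rw [f0]; exact hc.2.1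
        · change fF _ _ 1 ≠ 0
          rw [f1]; exact hc.2.2.1
        · change fF _ _ 2 ≠ 0
          rw [f2]
          exact sub_ne_zero.2 hc.2.2.2
      have e2 : H (φ t) = ((G (D * fF (N1 + ((φ t).1 : ℤ)) (N2' + ((φ t).2 : ℤ)) 0)
          (D * fF (N1 + ((φ t).1 : ℤ)) (N2' + ((φ t).2 : ℤ)) 1)) : ℝ) ^ k *
          rho T (omf (fF (N1 + ((φ t).1 : ℤ)) (N2' + ((φ t).2 : ℤ)))) := by
        rw [hH]
        simp only
        rw [if_pos hcond]
        rfl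
      have e3 : omf (fF (N1 + ((φ t).1 : ℤ)) (N2' + ((φ t).2 : ℤ))) =
          omz (N1 + (t.1 : ℤ), N2 + (t.2 : ℤ)) := by
        funext j
        fin_cases j
        · change (fF _ _ 0).natAbs.primeFactors.card = _
          rw [f0]
          rfl
        · change (fF _ _ 1).natAbs.primeFactors.card = _
          rw [f1]
          rfl
        · change (fF _ _ 2).natAbs.primeFactors.card = _
          rw [f2]
          rfl
      rw [e2, f0, f1, e3]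
    · exact hH0 _
  have hinj : Set.InjOn φ (Icc 1 X ×ˢ Icc 1 X : Finset (ℕ × ℕ)) := by
    intro t _ t' _ htt
    rw [hφ] at htt
    simp only [Prod.mk.injEq] at htt
    obtain ⟨h1, h2⟩ := htt
    rw [h1] at h2
    exact Prod.ext h1 (by omega)
  have hmaps : (Icc 1 X ×ˢ Icc 1 X : Finset (ℕ × ℕ)).image φ ⊆ Icc 1 X' ×ˢ Icc 1 X' := by
    intro t' ht'
    obtain ⟨t, ht, rfl⟩ := mem_image.mp ht'
    rw [mem_product, mem_Icc, mem_Icc] at ht
    rw [mem_product, mem_Icc, mem_Icc, hφ]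
    simp only
    refine ⟨⟨ht.1.1, ht.1.2.trans hXX'⟩, ?_, ?_⟩
    · omega
    · omega
  calc ∑ t ∈ Icc 1 X ×ˢ Icc 1 X, SW k T G D (N1 + (t.1 : ℤ), N2 + (t.2 : ℤ))
      ≤ ∑ t ∈ Icc 1 X ×ˢ Icc 1 X, H (φ t) := sum_le_sum hpt
    _ = ∑ t' ∈ (Icc 1 X ×ˢ Icc 1 X : Finset (ℕ × ℕ)).image φ, H t' := (sum_image hinj).symm
    _ ≤ ∑ t' ∈ Icc 1 X' ×ˢ Icc 1 X', H t' :=
        sum_le_sum_of_subset_of_nonneg hmaps (fun t _ _ => hH0 t)
    _ ≤ C * (2 * 8 ^ k) ^ D.natAbs.primeFactors.card * (X' : ℝ) ^ 2 := by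
        rw [hH]
        simp only
        rw [← sum_filter]
        refine le_trans (le_of_eq ?_) key
        unfold TS
        congr
    _ = C * 9 * (2 * 8 ^ k) ^ D.natAbs.primeFactors.card * X ^ 2 := by
        rw [hX']
        push_cast
        ring

end Pool.Agent.TH344.DT
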