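import Pool.Agent.TH344.DT.Stm
import Pool.Agent.W864.FK.ExpF

/-!
# Project DT: expansion of the moments over the signs into symbols, with a weight (`S_EXPW`)
-/

set_option autoImplicit false

namespace Pool.Agent.TH344.DT

open Finset Pool.Agent.W262.RK Pool.Agent.W108.RK Pool.Agent.W762.RK2 Pool.Agent.W307.FK
  Pool.Agent.W125.RS Pool.Agent.W864.FK

namespace EX

variable {z y k : ℕ}

lemma lhsW (c : ℕ) (Φ : (Fin 3 → ℕ) → ℝ) :
    ∑ s ∈ Tup (Fin 3) z y, NF k s * (∏ j, gw 1 c (s j)) * Φ s =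
      ∑ ξ : Pr z y → Option (Fin 3 × (Fin k → Bool × Bool)), (∏ p, TmF c ξ p) * Φ (SK ξ) := by
  have h1 : ∀ s ∈ Tup (Fin 3) z y, NF k s * (∏ j, gw 1 c (s j)) * Φ s =
      ∑ d ∈ Fintype.piFinset (fun _ : Fin k => (∏ j, s j).divisors ×ˢ (∏ j, s j).divisors),
        (∏ p ∈ (∏ j, s j).primeFactors, ((∏ a, IlF s (d a) true p) +
        ∏ a, IlF s (d a) false p) / 2) * (∏ j, gw 1 c (s j)) * Φ s := by
    intro s hs
    rw [NF_eq, Finset.sum_mul, Finset.sum_mul]
  rw [Finset.sum_congr rfl h1, sum_bigK fun s d =>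
    (∏ p ∈ (∏ j, s j).primeFactors, ((∏ a, IlF s (d a) true p) +
        ∏ a, IlF s (d a) false p) / 2) * (∏ j, gw 1 c (s j)) * Φ s]
  refine Finset.sum_congr rfl fun ξ _ => ?_
  congr 1
  have h2 : ∏ j, gw 1 c (SK ξ j) = ∏ p : Pr z y, ((ξ p).map Prod.fst).elim 1
      fun _ => 1 / ((p : ℝ) - c) := prod_gw (fun _ => 1) c _
  have h3 : ∏ j, SK ξ j = nb fun p => ((ξ p).map Prod.fst).isSome := prod_Dl _
  rw [h2, h3, prod_pf _ fun p => ((∏ a, IlF (SK ξ) (E1 a ξ, E2 a ξ) true p) +
    ∏ a, IlF (SK ξ) (E1 a ξ, E2 a ξ) false p) / 2, ← Finset.prod_mul_distrib]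
  refine Finset.prod_congr rfl fun p _ => ?_
  unfold TmF
  cases hx : ξ p with
  | none => simp
  | some r =>
    have h4 : ∀ (neg : Bool) (a : Fin k), IlF (SK ξ) (E1 a ξ, E2 a ξ) neg p =
        ind (LR r.1 neg (r.2 a).1 (r.2 a).2 (sgn p (E1 a ξ)) (sgn p (E2 a ξ))) := by
      intro neg a
      unfold IlF
      have e1 : dv p (E1 a ξ : ℤ) = (r.2 a).1 := by
        have : B1 a (ξ p) = (r.2 a).1 := by rw [hx]; rfl
        rw [← this]
        unfold dv
        rw [Bool.eq_iff_iff, decide_eq_true_iff, Int.natCast_dvd_natCast]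
        exact dvd_nb _ p
      have e2 : dv p (E2 a ξ : ℤ) = (r.2 a).2 := by
        have : B2 a (ξ p) = (r.2 a).2 := by rw [hx]; rfl
        rw [← this]
        unfold dv
        rw [Bool.eq_iff_iff, decide_eq_true_iff, Int.natCast_dvd_natCast]
        exact dvd_nb _ p
      have e3 : ∀ j, (p : ℕ) ∣ SK ξ j ↔ j = r.1 := by
        intro j
        unfold SK Dl
        rw [dvd_nb, decide_eq_true_iff]
        show (ξ p).map Prod.fst = some j ↔ j = r.1
        rw [hx]
        simp [eq_comm]
      congr 1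
      simp only [e1, e2, e3, forall_eq]
    simp only [h4]
    simp only [Option.map_some, Option.isSome_some, if_true, Option.elim]
    ring

/-- the tuple from the labelling -/
lemma SK_eq (ξ : Pr z y → Option (Fin 3 × (Fin k → Bool × Bool))) (l : Pr z y → Option (IF k))
    (h : ∀ p, fgF (l p) = ξ p) (j : Fin 3) :
    ∏ i ∈ univ.filter (fun i : IF k => i.1.1 = j), Dl l i = SK ξ j := by
  unfold SK Dl nb
  rw [Finset.prod_comm]
  refine Finset.prod_congr rfl fun p _ => ?_
  beta_reduce
  have hp := h p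
  generalize ξ p = r at hp
  subst hp
  cases hl : l p with
  | none => simp [fgF]
  | some i =>
    have e1 : (Option.map Prod.fst (fgF (some i)) : Option (Fin 3)) = some i.1.1 := by
      simp [fgF]
    rw [e1]
    by_cases hi : i.1.1 = j
    · rw [Finset.prod_eq_single i]
      · simp [hi]
      · intro b _ hb
        rw [if_neg]
        simp only [decide_eq_true_eq, Option.some.injEq]
        exact fun h' => hb h'.symm
      · intro h'
        exact absurd (by rw [Finset.mem_filter]; exact ⟨Finset.mem_univ _, hi⟩) h'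
    · rw [if_neg (by simpa using hi)]
      refine Finset.prod_eq_one fun b hb => ?_
      rw [if_neg]
      simp only [decide_eq_true_eq, Option.some.injEq]
      rintro rfl
      exact hi (Finset.mem_filter.1 hb).2

end EX

theorem expw : S_EXPW := by
  intro k c z y hz Φ
  classical
  rw [EX.lhsW, sum_Tup, ← Finset.sum_fiberwise univ
    (fun (l : Pr z y → Option (IF k)) => fun p => fgF (l p))]
  refine Finset.sum_congr rfl fun ξ _ => ?_
  have h1 : (univ.filter fun l : Pr z y → Option (IF k) => (fun p => fgF (l p)) = ξ) =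
      Fintype.piFinset (fun p => univ.filter (fun x : Option (IF k) => fgF x = ξ p)) := by
    ext l
    simp only [Finset.mem_filter, Finset.mem_univ, true_and, Fintype.mem_piFinset, funext_iff]
  rw [h1, Finset.prod_congr rfl fun p _ => (sum_GF c ξ p).symm, Finset.prod_univ_sum,
    Finset.sum_mul]
  refine Finset.sum_congr rfl fun l hl => ?_
  rw [Fintype.mem_piFinset] at hl
  have hl' : ∀ p, fgF (l p) = ξ p := fun p => (Finset.mem_filter.1 (hl p)).2
  rw [rhsF c ξ l hl']
  congr 2
  funext j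
  exact (EX.SK_eq ξ l hl' j).symm

end Pool.Agent.TH344.DT
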