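import Pool.Agent.TH344.DT.Stm
import Pool.Agent.W410.FK.FINH
import Pool.Agent.W513.FK.Parf
import Pool.Agent.W672.FK.Lowf

/-!
# DT-FIN: from the short squares to the curves ordered by height, with the weight

Adapted from helper410's `finh_of` (`Pool/Agent/W410/FK/FINH.lean`) and helper334's `SOM`.
-/

set_option autoImplicit false

namespace Pool.Agent.TH344.DT

namespace FinP

open Finset Pool.Agent.W262.RK Pool.Agent.W307.RT Pool.Agent.W307.RS Pool.Agent.W307.SE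
  Pool.Agent.W307.FK Pool.Agent.TH344.DT Pool.Agent.W410.FK

lemma rho_nonneg {J : Type} [Fintype J] {T : Finset (J → ℝ)} (hT : ∀ t ∈ T, ∀ j, 0 < t j)
    (n : J → ℕ) : 0 ≤ rho T n := by
  classical
  unfold rho
  rw [Finset.le_inf'_iff]
  intro t ht
  refine prod_nonneg fun j _ => ?_
  rcases mem_insert.1 ht with rfl | h
  · simp
  · exact (pow_pos (hT t h j) _).le

lemma rho_le_one {J : Type} [Fintype J] (T : Finset (J → ℝ)) (n : J → ℕ) : rho T n ≤ 1 := by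
  classical
  unfold rho
  refine (Finset.inf'_le _ (mem_insert_self _ _)).trans ?_
  simp

/-- the bound `Q ^ ω(g) ≤ Q ^ (Q ^ 2) √g` -/
theorem omega_bound (q : ℕ) (hq : 1 ≤ q) (g : ℕ) (hg : g ≠ 0) :
    (q : ℝ) ^ g.primeFactors.card ≤ (q : ℝ) ^ (q ^ 2) * Real.sqrt g := by
  classical
  set P1 := g.primeFactors.filter (fun p => p < q ^ 2) with hP1
  set P2 := g.primeFactors.filter (fun p => ¬ p < q ^ 2) with hP2
  have hcard : g.primeFactors.card = P1.card + P2.card := (card_filter_add_card_filter_not _).symm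
  have hq1 : (1 : ℝ) ≤ q := by exact_mod_cast hq
  have h1 : P1.card ≤ q ^ 2 := by
    have : P1 ⊆ range (q ^ 2) := fun p hp => mem_range.2 (mem_filter.1 hp).2
    simpa using card_le_card this
  have h2 : (q : ℝ) ^ P2.card ≤ Real.sqrt g := by
    have h3 : (q : ℝ) ^ P2.card ≤ ∏ p ∈ P2, Real.sqrt p := by
      rw [← prod_const]
      apply prod_le_prod
      · intro p _; positivity
      · intro p hp
        have h4 : ¬ p < q ^ 2 := (mem_filter.1 hp).2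
        apply Real.le_sqrt_of_sq_le
        have : ((q ^ 2 : ℕ) : ℝ) ≤ p := by exact_mod_cast not_lt.1 h4
        push_cast at this
        linarith
    have h4 : ∏ p ∈ P2, Real.sqrt p = Real.sqrt (∏ p ∈ P2, (p : ℝ)) := by
      rw [Real.sqrt_eq_rpow, ← Real.finsetProd_rpow]
      · exact prod_congr rfl fun p _ => Real.sqrt_eq_rpow _
      · intro p _; positivity
    rw [h4] at h3
    refine h3.trans (Real.sqrt_le_sqrt ?_)
    have h5 : ∏ p ∈ P2, p ∣ g := (prod_dvd_prod_of_subset _ _ _ (filter_subset _ _)).trans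
      (Nat.prod_primeFactors_dvd g)
    have h6 := Nat.le_of_dvd (Nat.pos_of_ne_zero hg) h5
    have h7 : ((∏ p ∈ P2, p : ℕ) : ℝ) ≤ (g : ℝ) := Nat.cast_le.2 h6
    rwa [Nat.cast_prod] at h7
  rw [hcard, pow_add]
  have h5 : (q : ℝ) ^ P1.card ≤ (q : ℝ) ^ (q ^ 2) := pow_le_pow_right₀ hq1 h1
  gcongr

theorem som0 (q : ℕ) (hq : 1 ≤ q) : ∃ C : ℝ, 0 ≤ C ∧ ∀ n : ℕ,
    ∑ g ∈ Icc 1 n, (q : ℝ) ^ g.primeFactors.card / (g : ℝ) ^ 2 ≤ C := by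
  have hs : Summable fun g : ℕ => ((g : ℝ) ^ (3 / 2 : ℝ))⁻¹ := by
    rw [Real.summable_nat_rpow_inv]
    norm_num
  refine ⟨(q : ℝ) ^ (q ^ 2) * ∑' g : ℕ, ((g : ℝ) ^ (3 / 2 : ℝ))⁻¹, ?_, fun n => ?_⟩
  · apply mul_nonneg (by positivity)
    exact tsum_nonneg fun g => by positivity
  · calc ∑ g ∈ Icc 1 n, (q : ℝ) ^ g.primeFactors.card / (g : ℝ) ^ 2
        ≤ ∑ g ∈ Icc 1 n, (q : ℝ) ^ (q ^ 2) * ((g : ℝ) ^ (3 / 2 : ℝ))⁻¹ := by
          refine sum_le_sum fun g hg => ?_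
          have hg1 := (mem_Icc.1 hg).1
          have hg0 : 0 < (g : ℝ) := by exact_mod_cast hg1
          have h1 := omega_bound q hq g (by omega)
          rw [div_le_iff₀ (by positivity)]
          refine h1.trans (le_of_eq ?_)
          rw [mul_assoc]
          congr 1
          rw [Real.sqrt_eq_rpow, ← Real.rpow_neg hg0.le, ← Real.rpow_natCast (g : ℝ) 2,
            ← Real.rpow_add hg0]
          norm_num
      _ = (q : ℝ) ^ (q ^ 2) * ∑ g ∈ Icc 1 n, ((g : ℝ) ^ (3 / 2 : ℝ))⁻¹ := by rw [mul_sum]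
      _ ≤ (q : ℝ) ^ (q ^ 2) * ∑' g : ℕ, ((g : ℝ) ^ (3 / 2 : ℝ))⁻¹ := by
          apply mul_le_mul_of_nonneg_left _ (by positivity)
          exact hs.sum_le_tsum _ fun g _ => by positivity

/-- the series for `2 * 8 ^ k` -/
theorem som8 (k : ℕ) : ∃ C : ℝ, 0 ≤ C ∧ ∀ n : ℕ,
    ∑ g ∈ Icc 1 n, (2 * 8 ^ k : ℝ) ^ g.primeFactors.card / (g : ℝ) ^ 2 ≤ C := by
  have h := som0 (2 * 8 ^ k) (by have := Nat.one_le_pow k 8 (by norm_num); omega)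
  push_cast at h
  exact h

open Classical in
/-- the `k`-th power of the order of the 2-Selmer group of `y² = x (x - a) (x - b)` with the
weight -/
noncomputable def Gk (k : ℕ) (T : Finset (Fin 3 → ℝ)) (t : ℤ × ℤ) : ℝ :=
  if t.1 ≠ 0 ∧ t.2 ≠ 0 ∧ t.1 ≠ t.2 then ((Sel t.1 t.2).ncard : ℝ) ^ k * rho T (omg t) else 0

variable {T : Finset (Fin 3 → ℝ)}

lemma Gk_nonneg (hT : ∀ t ∈ T, ∀ j, 0 < t j) (k : ℕ) (t : ℤ × ℤ) : 0 ≤ Gk k T t := by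
  unfold Gk
  split_ifs
  · exact mul_nonneg (by positivity) (rho_nonneg hT _)
  · exact le_rfl

lemma SW_nonneg (hT : ∀ t ∈ T, ∀ j, 0 < t j) (k : ℕ) (G : ℤ → ℤ → ℕ) (D : ℤ) (t : ℤ × ℤ) :
    0 ≤ SW k T G D t := by
  unfold SW
  split_ifs
  · exact mul_nonneg (by positivity) (rho_nonneg hT _)
  · exact le_rfl

lemma box_Gk (hT : ∀ t ∈ T, ∀ j, 0 < t j) (k : ℕ)
    (h1 : AVGW k T (fun a b => (Sel a b).ncard)) :
    ∃ C : ℝ, 0 ≤ C ∧ ∀ N : ℕ, 1 ≤ N → ∑ t ∈ Box N, Gk k T t ≤ C * (N : ℝ) ^ 2 := by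
  classical
  obtain ⟨C1, hC1, h1⟩ := h1 1
  obtain ⟨C2, hC2, h2⟩ := som8 k
  refine ⟨9 * C1 * C2, by positivity, fun N hN => ?_⟩
  -- decomposition with respect to the greatest common divisor
  set S := (Box N).filter fun t : ℤ × ℤ => t.1 ≠ 0 ∧ t.2 ≠ 0 ∧ t.1 ≠ t.2 with hS
  have e1 : ∑ t ∈ Box N, Gk k T t = ∑ t ∈ S, Gk k T t := by
    symm
    apply sum_subset (filter_subset _ _)
    intro t ht ht2
    unfold Gk
    rw [if_neg]
    intro h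
    exact ht2 (mem_filter.2 ⟨ht, h⟩)
  let F : ℤ × ℤ → (Σ _ : ℕ, ℤ × ℤ) := fun t =>
    ⟨Int.gcd t.1 t.2, (t.1 / (Int.gcd t.1 t.2 : ℤ), t.2 / (Int.gcd t.1 t.2 : ℤ))⟩
  have hdiv : ∀ t : ℤ × ℤ, (Int.gcd t.1 t.2 : ℤ) * (t.1 / (Int.gcd t.1 t.2 : ℤ)) = t.1 ∧
      (Int.gcd t.1 t.2 : ℤ) * (t.2 / (Int.gcd t.1 t.2 : ℤ)) = t.2 := fun t =>
    ⟨Int.mul_ediv_cancel' (Int.gcd_dvd_left _ _), Int.mul_ediv_cancel' (Int.gcd_dvd_right _ _)⟩
  have hinj : Set.InjOn F S := by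
    intro t _ t' _ h
    have g1 : Int.gcd t.1 t.2 = Int.gcd t'.1 t'.2 := congrArg Sigma.fst h
    have g2 : (t.1 / (Int.gcd t.1 t.2 : ℤ), t.2 / (Int.gcd t.1 t.2 : ℤ)) =
        (t'.1 / (Int.gcd t'.1 t'.2 : ℤ), t'.2 / (Int.gcd t'.1 t'.2 : ℤ)) :=
      congrArg (fun x : (Σ _ : ℕ, ℤ × ℤ) => x.2) h
    rw [Prod.mk.injEq] at g2
    obtain ⟨a1, a2⟩ := hdiv t
    obtain ⟨b1, b2⟩ := hdiv t'
    ext
    · rw [← a1, ← b1, g2.1, g1]
    · rw [← a2, ← b2, g2.2, g1]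
  have hmem : ∀ t ∈ S, F t ∈ (Icc 1 N).sigma (fun g => Box (N / g)) ∧
      Gk k T t = SW k T (fun a b => (Sel a b).ncard) ((F t).1 : ℤ) (F t).2 := by
    intro t ht
    obtain ⟨ht1, t1, t2, t3⟩ := mem_filter.1 ht
    rw [mem_Box] at ht1
    obtain ⟨a1, a2⟩ := hdiv t
    have hg0 : 0 < Int.gcd t.1 t.2 := Int.gcd_pos_of_ne_zero_left _ t1
    have hgT : Int.gcd t.1 t.2 ≤ N := by
      have : Int.gcd t.1 t.2 ≤ t.1.natAbs :=
        Nat.le_of_dvd (by omega) (Int.natCast_dvd.1 (Int.gcd_dvd_left _ _))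
      omega
    have hb : ∀ x y : ℤ, (Int.gcd t.1 t.2 : ℤ) * x = y → y.natAbs ≤ N →
        x.natAbs ≤ N / Int.gcd t.1 t.2 := by
      intro x y hxy hy
      rw [Nat.le_div_iff_mul_le hg0]
      rw [← hxy, Int.natAbs_mul, Int.natAbs_natCast] at hy
      linarith
    refine ⟨?_, ?_⟩
    · rw [mem_sigma, mem_Icc, mem_Box]
      exact ⟨⟨hg0, hgT⟩, hb _ _ a1 ht1.1, hb _ _ a2 ht1.2⟩
    · unfold Gk SW
      rw [if_pos ⟨t1, t2, t3⟩, if_pos]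
      · change _ = ((Sel ((Int.gcd t.1 t.2 : ℤ) * (t.1 / (Int.gcd t.1 t.2 : ℤ)))
          ((Int.gcd t.1 t.2 : ℤ) * (t.2 / (Int.gcd t.1 t.2 : ℤ)))).ncard : ℝ) ^ k *
            rho T (omg t)
        rw [a1, a2]
      · refine ⟨?_, ?_, ?_, ?_⟩
        · exact Int.isCoprime_iff_gcd_eq_one.2 (Int.gcd_ediv_gcd_ediv_gcd hg0)
        · intro h
          apply t1
          change t.1 / (Int.gcd t.1 t.2 : ℤ) = 0 at h
          rw [← a1, h, mul_zero]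
        · intro h
          apply t2
          change t.2 / (Int.gcd t.1 t.2 : ℤ) = 0 at h
          rw [← a2, h, mul_zero]
        · intro h
          apply t3
          change t.1 / (Int.gcd t.1 t.2 : ℤ) = t.2 / (Int.gcd t.1 t.2 : ℤ) at h
          exact a1.symm.trans ((congrArg (fun x => (Int.gcd t.1 t.2 : ℤ) * x) h).trans a2)
  have e2 : ∑ t ∈ S, Gk k T t ≤
      ∑ x ∈ (Icc 1 N).sigma (fun g => Box (N / g)),
        SW k T (fun a b => (Sel a b).ncard) (x.1 : ℤ) x.2 := by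
    calc ∑ t ∈ S, Gk k T t =
          ∑ t ∈ S, SW k T (fun a b => (Sel a b).ncard) ((F t).1 : ℤ) (F t).2 :=
          sum_congr rfl fun t ht => (hmem t ht).2
      _ = ∑ x ∈ S.image F, SW k T (fun a b => (Sel a b).ncard) (x.1 : ℤ) x.2 := by
          rw [sum_image hinj]
      _ ≤ _ := sum_le_sum_of_subset_of_nonneg (fun x hx => by
          obtain ⟨t, ht, rfl⟩ := mem_image.1 hx
          exact (hmem t ht).1) fun x _ _ => SW_nonneg hT _ _ _ _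
  rw [e1]
  refine e2.trans ?_
  rw [sum_sigma]
  have e3 : ∀ g ∈ Icc 1 N, ∑ s ∈ Box (N / g), SW k T (fun a b => (Sel a b).ncard) (g : ℤ) s ≤
      9 * C1 * (N : ℝ) ^ 2 * ((2 * 8 ^ k : ℝ) ^ g.primeFactors.card / (g : ℝ) ^ 2) := by
    intro g hg
    rw [mem_Icc] at hg
    have hg0 : (0 : ℝ) < g := by exact_mod_cast hg.1
    have h3 := box_uni (g := SW k T (fun a b => (Sel a b).ncard) (g : ℤ))
      (A := C1 * (2 * 8 ^ k) ^ g.primeFactors.card) (by positivity)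
      (fun N1 N2 X hX b1 b2 => by
        have := h1 (g : ℤ) N1 N2 X (by exact_mod_cast (by omega : g ≠ 0)) hX b1 b2
        rwa [Int.natAbs_natCast] at this) (T := N / g) ((Nat.one_le_div_iff hg.1).2 hg.2)
    refine h3.trans ?_
    have h4 : (((N / g : ℕ) : ℝ)) ^ 2 ≤ ((N : ℝ) / g) ^ 2 :=
      pow_le_pow_left₀ (Nat.cast_nonneg _) Nat.cast_div_le 2
    calc C1 * (2 * 8 ^ k) ^ g.primeFactors.card * (9 * (((N / g : ℕ) : ℝ)) ^ 2)
        ≤ C1 * (2 * 8 ^ k) ^ g.primeFactors.card * (9 * ((N : ℝ) / g) ^ 2) := by gcongr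
      _ = _ := by
        field_simp
  refine (sum_le_sum e3).trans ?_
  rw [← mul_sum]
  calc 9 * C1 * (N : ℝ) ^ 2 *
        ∑ g ∈ Icc 1 N, (2 * 8 ^ k : ℝ) ^ g.primeFactors.card / (g : ℝ) ^ 2
      ≤ 9 * C1 * (N : ℝ) ^ 2 * C2 := mul_le_mul_of_nonneg_left (h2 N) (by positivity)
    _ = 9 * C1 * C2 * (N : ℝ) ^ 2 := by ring

theorem fin_of (k : ℕ) (hT : ∀ t ∈ T, ∀ j, 0 < t j)
    (h1 : AVGW k T (fun a b => (Sel a b).ncard))
    (h3 : Pool.Agent.W307.FK.PARF) (h4 : Pool.Agent.W307.RT.LOW 2 6) :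
    ∃ F : ℤ × ℤ → ℤ × ℤ,
    (∀ H, Set.InjOn F (Cv 2 H : Set (ℤ × ℤ))) ∧
    (∀ H, ∀ c ∈ Cv 2 H, (F c).1 ≠ 0 ∧ (F c).2 ≠ 0 ∧ (F c).1 ≠ (F c).2 ∧
      (F c).1.natAbs ^ 6 ≤ 16 * H ∧ (F c).2.natAbs ^ 6 ≤ 16 * H) ∧
    ∃ C : ℝ, ∀ H, ∑ c ∈ Cv 2 H, ((SelR c.1 c.2).ncard : ℝ) ^ k * rho T (omg (F c)) ≤
      C * (Cv 2 H).card := by
  classical
  obtain ⟨F, hinj, hF⟩ := h3
  have hmem : ∀ H, ∀ c ∈ Cv 2 H, 4 * c.1 ^ 3 + 27 * c.2 ^ 2 ≠ 0 ∧ 4 * |c.1| ^ 3 ≤ H ∧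
      HasT 2 (Sh c.1 c.2) := by
    intro H c hc
    unfold Cv at hc
    obtain ⟨_, a1, a2, _, _, a3⟩ := mem_filter.1 hc
    exact ⟨a1, a2, a3⟩
  let F' : ℤ × ℤ → ℤ × ℤ := fun c => (((F c).1 : ℤ) * (F c).2.1, ((F c).1 : ℤ) * (F c).2.2)
  have key : ∀ H, ∀ c ∈ Cv 2 H,
      ((F' c).1 ≠ 0 ∧ (F' c).2 ≠ 0 ∧ (F' c).1 ≠ (F' c).2) ∧
      ((SelR c.1 c.2).ncard : ℝ) ^ k * rho T (omg (F' c)) ≤ Gk k T (F' c) ∧
        (F' c).1.natAbs ^ 6 ≤ 16 * H ∧ (F' c).2.natAbs ^ 6 ≤ 16 * H := by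
    intro H c hc
    obtain ⟨a1, a2, a3⟩ := hmem H c hc
    obtain ⟨b1, b2, b3, b4, b5, e1, e2, e3, hr, d1, d2⟩ := hF c a1 a3
    have hg : ((F c).1 : ℤ) ≠ 0 := by exact_mod_cast (by omega : (F c).1 ≠ 0)
    have hne1 : (F' c).1 ≠ 0 := mul_ne_zero hg b3
    have hne2 : (F' c).2 ≠ 0 := mul_ne_zero hg b4
    have hne3 : (F' c).1 ≠ (F' c).2 := fun h => b5 (mul_left_cancel₀ hg h)
    have hfin := sel_fin seld hne1 hne2 hne3
    obtain ⟨f1, f2⟩ := selc c.1 c.2 e1 e2 e3 (F' c).1 (F' c).2 1 a1 hr one_ne_zero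
      (by rw [d1, one_pow, mul_one]) (by rw [d2, one_pow, mul_one]) hfin
    obtain ⟨r1, r2⟩ := root_bd hr
    refine ⟨⟨hne1, hne2, hne3⟩, ?_, ?_, ?_⟩
    · unfold Gk
      rw [if_pos ⟨hne1, hne2, hne3⟩]
      have : ((SelR c.1 c.2).ncard : ℝ) ≤ ((Sel (F' c).1 (F' c).2).ncard : ℝ) := by
        exact_mod_cast f2
      exact mul_le_mul_of_nonneg_right (pow_le_pow_left₀ (Nat.cast_nonneg _) this k)
        (rho_nonneg hT _)
    · rw [d1] at r1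
      exact size_bd r1 a2
    · rw [d2] at r2
      exact size_bd r2 a2
  have hinj' : ∀ H, Set.InjOn F' (Cv 2 H : Set (ℤ × ℤ)) := by
    intro H c hc c' hc' h
    obtain ⟨a1, _, a3⟩ := hmem H c hc
    obtain ⟨a1', _, a3'⟩ := hmem H c' hc'
    obtain ⟨b1, b2, _⟩ := hF c a1 a3
    obtain ⟨b1', b2', _⟩ := hF c' a1' a3'
    apply hinj ⟨a1, a3⟩ ⟨a1', a3'⟩
    have hgcd : ∀ x : ℕ × ℤ × ℤ, IsCoprime x.2.1 x.2.2 →
        Int.gcd ((x.1 : ℤ) * x.2.1) ((x.1 : ℤ) * x.2.2) = x.1 := by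
      intro x hx
      rw [Int.gcd_mul_left, Int.isCoprime_iff_gcd_eq_one.1 hx, mul_one, Int.natAbs_natCast]
    have g1 : (F c).1 = (F c').1 := by
      rw [← hgcd _ b2, ← hgcd _ b2']
      have k1 := congrArg Prod.fst h
      have k2 := congrArg Prod.snd h
      change ((F c).1 : ℤ) * (F c).2.1 = ((F c').1 : ℤ) * (F c').2.1 at k1
      change ((F c).1 : ℤ) * (F c).2.2 = ((F c').1 : ℤ) * (F c').2.2 at k2
      rw [k1, k2]
    have hg : ((F c).1 : ℤ) ≠ 0 := by exact_mod_cast (by omega : (F c).1 ≠ 0)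
    have k1 : ((F c).1 : ℤ) * (F c).2.1 = ((F c').1 : ℤ) * (F c').2.1 := congrArg Prod.fst h
    have k2 : ((F c).1 : ℤ) * (F c).2.2 = ((F c').1 : ℤ) * (F c').2.2 := congrArg Prod.snd h
    rw [← g1] at k1 k2
    exact Prod.ext g1 (Prod.ext (mul_left_cancel₀ hg k1) (mul_left_cancel₀ hg k2))
  obtain ⟨C, hC⟩ := final_gen (by norm_num) h4 16 F'
    (fun c => ((SelR c.1 c.2).ncard : ℝ) ^ k * rho T (omg (F' c))) (Gk k T) (Gk_nonneg hT k)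
    (fun H => ⟨hinj' H, fun c hc => ⟨(key H c hc).2.2.1, (key H c hc).2.2.2, (key H c hc).2.1⟩⟩)
    (box_Gk hT k h1)
  exact ⟨F', hinj', fun H c hc => ⟨(key H c hc).1.1, (key H c hc).1.2.1, (key H c hc).1.2.2,
    (key H c hc).2.2.1, (key H c hc).2.2.2⟩, C, hC⟩

end FinP

theorem fin : S_FIN := fun k _ hT h1 =>
  FinP.fin_of k hT h1 Pool.Agent.W513.FK.parf Pool.Agent.W672.FK.lowf

end Pool.Agent.TH344.DT
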