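import Mathlib
import Pool.Agent.TH344.DT.Rho
import Pool.Agent.TH344.DT.Diag
import Pool.Agent.W672.FK.Lowf

/-! Project DT: the tails, from the parts. -/

set_option autoImplicit false

namespace Pool.Agent.TH344.DT

open Finset Pool.Agent.W262.RK Pool.Agent.W307.RT Pool.Agent.W307.RS Pool.Agent.W307.SE
  Pool.Agent.W307.FK

lemma mem_Box' {N : ℕ} {t : ℤ × ℤ} : t ∈ Box N ↔ t.1.natAbs ≤ N ∧ t.2.natAbs ≤ N := by
  unfold Box
  rw [mem_product, mem_Icc, mem_Icc]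
  omega

/-- the number of the curves is at least a constant times `N ^ 2` if `N ^ 6 ≤ 16 H` -/
lemma low_box (hL : LOW 2 6) : ∃ (C4 : ℝ) (N0 : ℕ), 0 < C4 ∧ ∀ N H : ℕ, N0 ≤ N → N ^ 6 ≤ 16 * H →
    (N : ℝ) ^ 2 ≤ C4 * ((Cv 2 H).card : ℝ) := by
  obtain ⟨c, C, T0, hc, h⟩ := hL
  set q := 16 * C + 1 with hq
  refine ⟨4 * q ^ 2 / c, q * (T0 + 1), by positivity, fun N H hN hH => ?_⟩
  set T := N / q with hT
  have hq0 : 0 < q := by omega
  have hT1 : T0 + 1 ≤ T := by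
    rw [hT, Nat.le_div_iff_mul_le hq0, mul_comm]
    exact hN
  have h1 : T * q ≤ N := Nat.div_mul_le_self N q
  have h2 : N < (T + 1) * q := by
    rw [hT, add_mul, one_mul]
    exact Nat.lt_div_mul_add hq0
  have h3 : C * T ^ 6 ≤ H := by
    have h4 : (T * q) ^ 6 ≤ 16 * H := (Nat.pow_le_pow_left h1 6).trans hH
    rw [mul_pow] at h4
    have h5 : 16 * C ≤ q ^ 6 := (by omega : 16 * C ≤ q).trans (Nat.le_self_pow (by norm_num) q)
    have h6 : T ^ 6 * (16 * C) ≤ 16 * H := (Nat.mul_le_mul_left _ h5).trans h4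
    nlinarith
  have h4 := h T H (by omega) h3
  have h5 : (N : ℝ) ≤ 2 * q * T := by
    have h6 : N ≤ 2 * q * T := by
      have : (T + 1) * q ≤ 2 * q * T := by nlinarith
      omega
    exact_mod_cast h6
  rw [div_mul_eq_mul_div, le_div_iff₀ hc]
  calc (N : ℝ) ^ 2 * c ≤ (2 * q * T) ^ 2 * c := by gcongr
    _ = 4 * q ^ 2 * (c * T ^ 2) := by ring
    _ ≤ _ := mul_le_mul_of_nonneg_left h4 (by positivity)

/-- the exceptional set for one `k` -/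
lemma exc_one (hB : S_BAD) (hL : LOW 2 6) {k : ℕ} {T : Finset (Fin 3 → ℝ)}
    (hT1 : ∀ t ∈ T, ∀ j, 0 < t j) (hT2 : ∀ t ∈ T, 1 < ∏ j, t j) {F : ℤ × ℤ → ℤ × ℤ}
    (hinj : ∀ H, Set.InjOn F (Cv 2 H : Set (ℤ × ℤ)))
    (hbd : ∀ H, ∀ c ∈ Cv 2 H, (F c).1 ≠ 0 ∧ (F c).2 ≠ 0 ∧ (F c).1 ≠ (F c).2 ∧
      (F c).1.natAbs ^ 6 ≤ 16 * H ∧ (F c).2.natAbs ^ 6 ≤ 16 * H) {C : ℝ}
    (hC : ∀ H, ∑ c ∈ Cv 2 H, ((SelR c.1 c.2).ncard : ℝ) ^ k * rho T (omg (F c)) ≤
      C * (Cv 2 H).card) :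
    (∀ ε : ℝ, 0 < ε → ∃ H0 : ℕ, ∀ H, H0 ≤ H →
      (((Cv 2 H).filter (fun c => rho T (omg (F c)) < 1)).card : ℝ) ≤ ε * (Cv 2 H).card) ∧
    ∀ H, ∑ c ∈ (Cv 2 H).filter (fun c => ¬ rho T (omg (F c)) < 1),
      ((SelR c.1 c.2).ncard : ℝ) ^ k ≤ C * (Cv 2 H).card := by
  classical
  refine ⟨fun ε hε => ?_, fun H => ?_⟩
  · obtain ⟨C4, N1, hC4, hlow⟩ := low_box hL
    obtain ⟨N0, hbad⟩ := hB T hT1 hT2 (ε / C4) (by positivity)
    refine ⟨(max N0 N1 + 1) ^ 6, fun H hH => ?_⟩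
    set N := Nat.findGreatest (fun n => n ^ 6 ≤ 16 * H) (16 * H) with hN
    have hN1 : N ^ 6 ≤ 16 * H := Nat.findGreatest_spec (P := fun n => n ^ 6 ≤ 16 * H)
      (Nat.zero_le _) (by rw [zero_pow (by norm_num)]; exact Nat.zero_le _)
    have hN2 : ∀ n : ℕ, n ^ 6 ≤ 16 * H → n ≤ N := fun n hn =>
      Nat.le_findGreatest ((Nat.le_self_pow (by norm_num) n).trans hn) hn
    have hN3 : max N0 N1 + 1 ≤ N := hN2 _ (by omega)
    have hNN0 : N0 ≤ N := by omega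
    have hNN1 : N1 ≤ N := by omega
    set card : ℝ := ((Cv 2 H).card : ℝ) with hcard
    have h1 : ((Cv 2 H).filter (fun c => rho T (omg (F c)) < 1)).card ≤
        ((Box N).filter (fun t => t.1 ≠ 0 ∧ t.2 ≠ 0 ∧ t.1 ≠ t.2 ∧
          rho T (omg t) < 1)).card := by
      apply card_le_card_of_injOn F
      · intro c hc
        rw [mem_coe, mem_filter] at hc
        obtain ⟨b1, b2, b3, b4, b5⟩ := hbd H c hc.1
        rw [mem_coe, mem_filter, mem_Box']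
        exact ⟨⟨hN2 _ b4, hN2 _ b5⟩, b1, b2, b3, hc.2⟩
      · intro c hc c' hc' h
        rw [mem_coe, mem_filter] at hc hc'
        exact hinj H (mem_coe.2 hc.1) (mem_coe.2 hc'.1) h
    have h2 := hbad N hNN0
    have h3 := hlow N H hNN1 hN1
    calc (((Cv 2 H).filter (fun c => rho T (omg (F c)) < 1)).card : ℝ)
        ≤ (((Box N).filter (fun t => t.1 ≠ 0 ∧ t.2 ≠ 0 ∧ t.1 ≠ t.2 ∧
          rho T (omg t) < 1)).card : ℝ) := by exact_mod_cast h1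
      _ ≤ ε / C4 * N ^ 2 := h2
      _ ≤ ε / C4 * (C4 * card) := mul_le_mul_of_nonneg_left h3 (by positivity)
      _ = ε * card := by
        field_simp
  · refine le_trans ?_ (hC H)
    refine le_trans (sum_le_sum (g := fun c : ℤ × ℤ =>
      ((SelR c.1 c.2).ncard : ℝ) ^ k * rho T (omg (F c))) fun c hc => ?_) ?_
    · rw [mem_filter] at hc
      have h1 : rho T (omg (F c)) = 1 := le_antisymm (rho_le_one _ _) (not_lt.1 hc.2)
      rw [h1, mul_one]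
    · exact sum_le_sum_of_subset_of_nonneg (filter_subset _ _) fun c _ _ =>
        mul_nonneg (by positivity) (rho_nonneg hT1 _)

lemma Cv_mono : Monotone (Cv 2) := by
  classical
  intro H H' h c hc
  unfold Cv at hc ⊢
  rw [mem_filter, mem_product, mem_Icc, mem_Icc] at hc ⊢
  have h' : (H : ℤ) ≤ H' := by exact_mod_cast h
  obtain ⟨⟨⟨a1, a2⟩, a3, a4⟩, b1, b2, b3, b4⟩ := hc
  exact ⟨⟨⟨by linarith, by linarith⟩, by linarith, by linarith⟩, b1, by linarith, by linarith, b4⟩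

open scoped Classical in
/-- one exceptional set of density zero, for all the moments -/
def S_EXC : Prop := ∃ Z : Set (ℤ × ℤ), (∀ ε : ℝ, 0 < ε → ∃ H0 : ℕ, ∀ H, H0 ≤ H →
      (((Cv 2 H).filter (fun c => c ∈ Z)).card : ℝ) ≤ ε * (Cv 2 H).card) ∧
    ∀ k : ℕ, ∃ C : ℝ, ∀ H, ∑ c ∈ (Cv 2 H).filter (fun c => c ∉ Z),
      ((SelR c.1 c.2).ncard : ℝ) ^ k ≤ C * (Cv 2 H).card

/-- **the moments outside of a set of density zero** -/
theorem exc_of (hM : ∀ k : ℕ, 1 ≤ k → ∃ T : Finset (Fin 3 → ℝ), (∀ t ∈ T, ∀ j, 0 < t j) ∧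
    (∀ t ∈ T, 1 < ∏ j, t j) ∧ MAFW k T) (hA : S_AVG)
    (hS : Pool.Agent.W307.FK.G.SELFG (fun a b => (Sel a b).ncard)) (hF : S_FIN) (hB : S_BAD)
    (hL : LOW 2 6) : S_EXC := by
  classical
  have key : ∀ k : ℕ, ∃ Z : Set (ℤ × ℤ), (∀ ε : ℝ, 0 < ε → ∃ H0 : ℕ, ∀ H, H0 ≤ H →
      (((Cv 2 H).filter (fun c => c ∈ Z)).card : ℝ) ≤ ε * (Cv 2 H).card) ∧
      ∃ C : ℝ, ∀ H, ∑ c ∈ (Cv 2 H).filter (fun c => c ∉ Z),
      ((SelR c.1 c.2).ncard : ℝ) ^ k ≤ C * (Cv 2 H).card := by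
    intro k
    rcases Nat.eq_zero_or_pos k with rfl | hk
    · obtain ⟨E, hE⟩ : ∃ E : Set (ℤ × ℤ), E = ∅ := ⟨_, rfl⟩
      refine ⟨E, fun ε hε => ⟨0, fun H _ => ?_⟩, 1, fun H => ?_⟩
      · have h0 : ((Cv 2 H).filter (fun c => c ∈ E)).card = 0 := by
          rw [card_eq_zero, filter_eq_empty_iff]
          intro c _ h
          rw [hE] at h
          exact h
        rw [h0, Nat.cast_zero]
        positivity
      · simp only [pow_zero, sum_const, nsmul_eq_mul, mul_one, one_mul]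
        refine Nat.cast_le.2 (card_le_card fun c hc => ?_)
        exact (mem_filter.1 hc).1
    · obtain ⟨T, hT1, hT2, hM⟩ := hM k hk
      obtain ⟨F, hinj, hbd, C, hC⟩ := hF k T hT1 (hA k T hT1 hM _ hS)
      obtain ⟨h1, h2⟩ := exc_one hB hL hT1 hT2 hinj hbd hC
      refine ⟨{c | rho T (omg (F c)) < 1}, fun ε hε => ?_, C, fun H => ?_⟩
      · obtain ⟨H0, h3⟩ := h1 ε hε
        refine ⟨H0, fun H hH => ?_⟩
        have := h3 H hH
        convert this using 3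
        ext c
        simp
      · have := h2 H
        convert this using 2
        ext c
        simp
  choose Z hZ using key
  exact diag (Cv 2) Cv_mono (fun c => ((SelR c.1 c.2).ncard : ℝ)) (fun c => Nat.cast_nonneg _) Z
    (fun k => (hZ k).1) (fun k => (hZ k).2)

end Pool.Agent.TH344.DT
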