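import Mathlib
import Pool.Agent.TH344.DT.Out
import Pool.Agent.W307.RT.Tors

/-! Project DT: the tails, from the moments outside of the exceptional set. -/

set_option autoImplicit false

namespace Pool.Agent.TH344.DT

open Finset Filter Topology Pool.Agent.W307.RT Pool.Agent.W307.SE

/-- the proportion of the curves with `r ≤ g` -/
noncomputable def prop (g : ℤ × ℤ → ℕ) (r H : ℕ) : ℝ :=
  (((Cv 2 H).filter (fun c => r ≤ g c)).card : ℝ) / (Cv 2 H).card

lemma prop_nonneg (g : ℤ × ℤ → ℕ) (r H : ℕ) : 0 ≤ prop g r H := by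
  unfold prop
  positivity

lemma prop_le_one (g : ℤ × ℤ → ℕ) (r H : ℕ) : prop g r H ≤ 1 := by
  unfold prop
  apply div_le_one_of_le₀ _ (Nat.cast_nonneg _)
  exact_mod_cast card_filter_le _ _

/-- the proportion is small for large heights -/
lemma prop_ev (h : S_EXC) {g : ℤ × ℤ → ℕ}
    (hg : ∀ H, ∀ c ∈ Cv 2 H, 2 ^ g c ≤ (SelR c.1 c.2).ncard) (k : ℕ) :
    ∃ C : ℝ, 0 < C ∧ ∀ r : ℕ, ∀ᶠ H in atTop, prop g r H ≤ C / (2 ^ k) ^ r := by
  classical
  obtain ⟨Z, hZ1, hZ2⟩ := h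
  obtain ⟨C, hC⟩ := hZ2 k
  refine ⟨max C 0 + 1, by positivity, fun r => ?_⟩
  obtain ⟨H0, hH0⟩ := hZ1 (1 / (2 ^ k) ^ r) (by positivity)
  rw [eventually_atTop]
  refine ⟨H0, fun H hH => ?_⟩
  unfold prop
  set P : ℝ := (2 ^ k) ^ r with hP
  have hP0 : 0 < P := by positivity
  have hsub : (Cv 2 H).filter (fun c => r ≤ g c) ⊆
      ((Cv 2 H).filter (fun c => c ∉ Z)).filter (fun c => r ≤ g c) ∪
        (Cv 2 H).filter (fun c => c ∈ Z) := by
    intro c hc
    rw [mem_filter] at hc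
    rw [mem_union, mem_filter, mem_filter, mem_filter]
    by_cases h1 : c ∈ Z
    · exact Or.inr ⟨hc.1, h1⟩
    · exact Or.inl ⟨⟨hc.1, h1⟩, hc.2⟩
  have h1 : ((((Cv 2 H).filter (fun c => c ∉ Z)).filter (fun c => r ≤ g c)).card : ℝ) * P ≤
      C * (Cv 2 H).card := by
    refine le_trans ?_ (hC H)
    rw [← nsmul_eq_mul, ← sum_const]
    refine le_trans (sum_le_sum (g := fun c : ℤ × ℤ => ((SelR c.1 c.2).ncard : ℝ) ^ k)
      fun c hc => ?_) ?_
    · rw [mem_filter, mem_filter] at hc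
      have h2 := hg H c hc.1.1
      have h3 : (2 : ℕ) ^ r ≤ (SelR c.1 c.2).ncard :=
        (Nat.pow_le_pow_right (by norm_num) hc.2).trans h2
      have h4 : (2 : ℝ) ^ r ≤ ((SelR c.1 c.2).ncard : ℝ) := by exact_mod_cast h3
      calc P = ((2 : ℝ) ^ r) ^ k := by rw [hP, ← pow_mul, ← pow_mul, mul_comm]
        _ ≤ _ := pow_le_pow_left₀ (by positivity) h4 k
    · exact sum_le_sum_of_subset_of_nonneg (filter_subset _ _) fun c _ _ => by positivity
  have h2 := hH0 H hH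
  have hcard : (0 : ℝ) ≤ (Cv 2 H).card := Nat.cast_nonneg _
  rcases hcard.lt_or_eq with h0 | h0
  · rw [div_le_div_iff₀ h0 hP0]
    have h3 : (((Cv 2 H).filter (fun c => r ≤ g c)).card : ℝ) ≤
        ((((Cv 2 H).filter (fun c => c ∉ Z)).filter (fun c => r ≤ g c)).card : ℝ) +
        (((Cv 2 H).filter (fun c => c ∈ Z)).card : ℝ) := by
      exact_mod_cast (card_le_card hsub).trans (card_union_le _ _)
    have h4 : (((Cv 2 H).filter (fun c => c ∈ Z)).card : ℝ) * P ≤ (Cv 2 H).card := by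
      rw [one_div, ← div_eq_inv_mul, le_div_iff₀ hP0] at h2
      exact h2
    have h5 : C * ((Cv 2 H).card : ℝ) ≤ max C 0 * (Cv 2 H).card :=
      mul_le_mul_of_nonneg_right (le_max_left _ _) hcard
    nlinarith
  · rw [← h0, div_zero]
    positivity

/-- **the tails** -/
theorem tail_gen (h : S_EXC) {g : ℤ × ℤ → ℕ}
    (hg : ∀ H, ∀ c ∈ Cv 2 H, 2 ^ g c ≤ (SelR c.1 c.2).ncard) (A : ℝ) :
    Tendsto (fun r : ℕ => A ^ r * limsup (fun H : ℕ => prop g r H) atTop) atTop (𝓝 0) := by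
  obtain ⟨k, hk⟩ := exists_nat_gt (Real.logb 2 (2 * |A| + 1))
  have hk2 : 2 * |A| + 1 ≤ (2 : ℝ) ^ k := by
    have h1 : (2 : ℝ) ^ (Real.logb 2 (2 * |A| + 1)) ≤ (2 : ℝ) ^ (k : ℝ) :=
      Real.rpow_le_rpow_of_exponent_le (by norm_num) hk.le
    rw [Real.rpow_logb (by norm_num) (by norm_num) (by positivity), Real.rpow_natCast] at h1
    exact h1
  obtain ⟨C, hC, hev⟩ := prop_ev h hg k
  have h0 : ∀ r : ℕ, 0 ≤ limsup (fun H : ℕ => prop g r H) atTop := by
    intro r
    apply le_limsup_of_frequently_le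
    · exact (Eventually.of_forall fun H => prop_nonneg g r H).frequently
    · exact ⟨1, eventually_map.2 (Eventually.of_forall fun H => prop_le_one g r H)⟩
  have h1 : ∀ r : ℕ, limsup (fun H : ℕ => prop g r H) atTop ≤ C / (2 ^ k) ^ r := by
    intro r
    apply limsup_le_of_le
    · exact IsCoboundedUnder.of_frequently_ge
        (Eventually.of_forall fun H => prop_nonneg g r H).frequently
    · exact hev r
  have h2 : Tendsto (fun r : ℕ => C * (1 / 2 : ℝ) ^ r) atTop (𝓝 0) := by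
    have := (tendsto_pow_atTop_nhds_zero_of_lt_one (r := (1 / 2 : ℝ)) (by norm_num)
      (by norm_num)).const_mul C
    rwa [mul_zero] at this
  rw [tendsto_zero_iff_norm_tendsto_zero]
  apply squeeze_zero (fun r => norm_nonneg _) _ h2
  intro r
  rw [norm_mul, Real.norm_eq_abs, Real.norm_eq_abs, abs_of_nonneg (h0 r), abs_pow]
  have h3 : |A| ^ r * limsup (fun H : ℕ => prop g r H) atTop ≤ |A| ^ r * (C / (2 ^ k) ^ r) :=
    mul_le_mul_of_nonneg_left (h1 r) (by positivity)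
  refine h3.trans ?_
  have h4 : |A| / 2 ^ k ≤ 1 / 2 := by
    rw [div_le_iff₀ (by positivity)]
    linarith
  calc |A| ^ r * (C / (2 ^ k) ^ r) = C * (|A| / 2 ^ k) ^ r := by
        rw [div_pow]
        ring
    _ ≤ C * (1 / 2) ^ r := by
        apply mul_le_mul_of_nonneg_left _ hC.le
        exact pow_le_pow_left₀ (by positivity) h4 r

end Pool.Agent.TH344.DT
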