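import Mathlib
import Pool.Agent.TH344.DT.Tail
import Pool.Agent.W307.FK.Main
import Pool.Agent.W402.FK.RKS
import Pool.Agent.W513.FK.Parf

/-! Project DT: the tails for sets of curves. -/

set_option autoImplicit false

namespace Pool.Agent.TH344.DT

open Finset Filter Topology Pool.Agent.W307.RT Pool.Agent.W307.SE

lemma selfin2 : ∀ H : ℕ, ∀ c ∈ Cv 2 H, (SelR c.1 c.2).Finite := by
  obtain ⟨C, hC⟩ := Pool.Agent.W307.FK.finh
  exact fun H => (hC H).1

/-- the rank -/
lemma rank_le2 {H : ℕ} {c : ℤ × ℤ} (hc : c ∈ Cv 2 H) :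
    2 ^ Module.finrank ℤ (Sh c.1 c.2).toAffine.Point ≤ (SelR c.1 c.2).ncard := by
  classical
  obtain ⟨F, -, hF⟩ := Pool.Agent.W513.FK.parf
  have h1 := hc
  unfold Cv at h1
  obtain ⟨-, h2, -, -, -, h3⟩ := mem_filter.1 h1
  obtain ⟨-, -, -, -, -, e1, e2, e3, he, -, -⟩ := hF c h2 h3
  exact Pool.Agent.W402.FK.rks c.1 c.2 e1 e2 e3 h2 he (selfin2 H c hc)

/-- the upper density of a set of curves -/
noncomputable def ud (S : Set (ℤ × ℤ)) : ℝ :=
  limsup (fun H : ℕ => (((Cv 2 H : Set (ℤ × ℤ)) ∩ S).ncard : ℝ) / ((Cv 2 H).card : ℝ)) atTop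

lemma ratio_nonneg (S : Set (ℤ × ℤ)) (H : ℕ) :
    0 ≤ (((Cv 2 H : Set (ℤ × ℤ)) ∩ S).ncard : ℝ) / ((Cv 2 H).card : ℝ) := by positivity

lemma ratio_le_one (S : Set (ℤ × ℤ)) (H : ℕ) :
    (((Cv 2 H : Set (ℤ × ℤ)) ∩ S).ncard : ℝ) / ((Cv 2 H).card : ℝ) ≤ 1 := by
  apply div_le_one_of_le₀ _ (Nat.cast_nonneg _)
  have h := Set.ncard_le_ncard (Set.inter_subset_left (s := (Cv 2 H : Set (ℤ × ℤ))) (t := S))
    (finite_toSet _)
  rw [Set.ncard_coe_finset] at h
  exact_mod_cast h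

lemma ud_nonneg (S : Set (ℤ × ℤ)) : 0 ≤ ud S := by
  apply le_limsup_of_frequently_le
  · exact (Eventually.of_forall fun H => ratio_nonneg S H).frequently
  · exact ⟨1, eventually_map.2 (Eventually.of_forall fun H => ratio_le_one S H)⟩

lemma ud_mono {S S' : Set (ℤ × ℤ)} (h : S ⊆ S') : ud S ≤ ud S' := by
  apply limsup_le_limsup
  · refine Eventually.of_forall fun H => ?_
    apply div_le_div_of_nonneg_right _ (Nat.cast_nonneg _)
    exact_mod_cast Set.ncard_le_ncard (Set.inter_subset_inter_right _ h)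
      ((finite_toSet _).subset Set.inter_subset_left)
  · exact IsCoboundedUnder.of_frequently_ge
      (Eventually.of_forall fun H => ratio_nonneg S H).frequently
  · exact ⟨1, eventually_map.2 (Eventually.of_forall fun H => ratio_le_one S' H)⟩

/-- the tails, for a sequence of sets `S r` of curves with `2 ^ r ≤ #Sel ^ m` -/
theorem tail_set (h : S_EXC) (m : ℕ) {S : ℕ → Set (ℤ × ℤ)}
    (hS : ∀ r H, ∀ c ∈ Cv 2 H, c ∈ S r → 2 ^ r ≤ (SelR c.1 c.2).ncard ^ m) (A : ℝ) :
    Tendsto (fun r : ℕ => A ^ r * ud (S r)) atTop (𝓝 0) := by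
  classical
  -- `g c` is the largest `s` with `2 ^ s ≤ #Sel`
  set g : ℤ × ℤ → ℕ := fun c => Nat.log 2 (SelR c.1 c.2).ncard with hg
  have hg1 : ∀ H, ∀ c ∈ Cv 2 H, 2 ^ g c ≤ (SelR c.1 c.2).ncard := fun H c hc =>
    Nat.pow_log_le_self 2 (by
      have := (Nat.one_le_two_pow).trans (rank_le2 hc)
      omega)
  -- `r ≤ m (g c + 1)` on `S r`
  have hg2 : ∀ r H, ∀ c ∈ Cv 2 H, c ∈ S r → r ≤ m * (g c + 1) := by
    intro r H c hc hr
    have h1 := hS r H c hc hr
    have h2 : (SelR c.1 c.2).ncard < 2 ^ (g c + 1) := Nat.lt_pow_succ_log_self (by norm_num) _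
    have h3 : 2 ^ r ≤ 2 ^ (m * (g c + 1)) := by
      rw [mul_comm, pow_mul]
      exact h1.trans (Nat.pow_le_pow_left h2.le m)
    exact (Nat.pow_le_pow_iff_right (by norm_num)).1 h3
  rcases Nat.eq_zero_or_pos m with rfl | hm
  · -- then `S r` is empty on the family for `r ≥ 1`
    apply tendsto_const_nhds.congr'
    filter_upwards [eventually_ge_atTop 1] with r hr
    have h1 : ud (S r) = 0 := by
      unfold ud
      have h2 : ∀ H : ℕ, (((Cv 2 H : Set (ℤ × ℤ)) ∩ S r).ncard : ℝ) / ((Cv 2 H).card : ℝ) = 0 := by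
        intro H
        have h3 : (Cv 2 H : Set (ℤ × ℤ)) ∩ S r = ∅ := by
          rw [Set.eq_empty_iff_forall_notMem]
          rintro c ⟨hc, hr'⟩
          have := hg2 r H c (mem_coe.1 hc) hr'
          omega
        rw [h3, Set.ncard_empty, Nat.cast_zero, zero_div]
      simp only [h2]
      exact limsup_const 0
    rw [h1, mul_zero]
  · -- `S r ⊆ {r / m - 1 ≤ g}`
    have hev : ∀ k : ℕ, ∃ C : ℝ, 0 < C ∧ ∀ r : ℕ, ud (S r) ≤ C / (2 ^ k) ^ r := by
      intro k
      obtain ⟨C, hC, hC2⟩ := prop_ev h hg1 (k * m)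
      refine ⟨C * (2 ^ (k * m)) ^ 1 * 2 ^ (k * m), by positivity, fun r => ?_⟩
      apply limsup_le_of_le
      · exact IsCoboundedUnder.of_frequently_ge
          (Eventually.of_forall fun H => ratio_nonneg (S r) H).frequently
      filter_upwards [hC2 (r / m - 1)] with H hH
      have h1 : (((Cv 2 H : Set (ℤ × ℤ)) ∩ S r).ncard : ℝ) / ((Cv 2 H).card : ℝ) ≤
          prop g (r / m - 1) H := by
        unfold prop
        apply div_le_div_of_nonneg_right _ (Nat.cast_nonneg _)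
        have h2 : ((Cv 2 H : Set (ℤ × ℤ)) ∩ S r).ncard ≤
            (((Cv 2 H).filter (fun c => r / m - 1 ≤ g c)) : Set (ℤ × ℤ)).ncard := by
          apply Set.ncard_le_ncard _ (finite_toSet _)
          rintro c ⟨hc, hr⟩
          rw [mem_coe, mem_filter]
          refine ⟨mem_coe.1 hc, ?_⟩
          have h3 := hg2 r H c (mem_coe.1 hc) hr
          have h4 : r / m ≤ g c + 1 := Nat.div_le_of_le_mul h3
          omega
        rw [Set.ncard_coe_finset] at h2
        exact_mod_cast h2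
      refine h1.trans (hH.trans ?_)
      rw [div_le_div_iff₀ (by positivity) (by positivity)]
      have h5 : r ≤ m * ((r / m - 1) + 2) := by
        have h6 : r < m * (r / m + 1) := Nat.lt_mul_div_succ r hm
        have h7 : m * (r / m + 1) ≤ m * ((r / m - 1) + 2) := Nat.mul_le_mul_left _ (by omega)
        omega
      have h8 : (2 ^ k : ℝ) ^ r ≤ (2 ^ k) ^ (m * ((r / m - 1) + 2)) :=
        pow_le_pow_right₀ (one_le_pow₀ (by norm_num)) h5
      calc C * (2 ^ k) ^ r ≤ C * (2 ^ k) ^ (m * ((r / m - 1) + 2)) :=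
            mul_le_mul_of_nonneg_left h8 hC.le
        _ = C * (2 ^ (k * m)) ^ 1 * 2 ^ (k * m) * (2 ^ (k * m)) ^ (r / m - 1) := by
            rw [← pow_mul, ← pow_mul, ← pow_mul, mul_assoc, mul_assoc, ← pow_add, ← pow_add]
            congr 2
            ring
    obtain ⟨k, hk⟩ := exists_nat_gt (Real.logb 2 (2 * |A| + 1))
    have hk2 : 2 * |A| + 1 ≤ (2 : ℝ) ^ k := by
      have h1 : (2 : ℝ) ^ (Real.logb 2 (2 * |A| + 1)) ≤ (2 : ℝ) ^ (k : ℝ) :=
        Real.rpow_le_rpow_of_exponent_le (by norm_num) hk.le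
      rw [Real.rpow_logb (by norm_num) (by norm_num) (by positivity), Real.rpow_natCast] at h1
      exact h1
    obtain ⟨C, hC, hev⟩ := hev k
    have h2 : Tendsto (fun r : ℕ => C * (1 / 2 : ℝ) ^ r) atTop (𝓝 0) := by
      have := (tendsto_pow_atTop_nhds_zero_of_lt_one (r := (1 / 2 : ℝ)) (by norm_num)
        (by norm_num)).const_mul C
      rwa [mul_zero] at this
    rw [tendsto_zero_iff_norm_tendsto_zero]
    apply squeeze_zero (fun r => norm_nonneg _) _ h2
    intro r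
    rw [norm_mul, Real.norm_eq_abs, Real.norm_eq_abs, abs_of_nonneg (ud_nonneg _), abs_pow]
    have h3 : |A| ^ r * ud (S r) ≤ |A| ^ r * (C / (2 ^ k) ^ r) :=
      mul_le_mul_of_nonneg_left (hev r) (by positivity)
    refine h3.trans ?_
    have h4 : |A| / 2 ^ k ≤ 1 / 2 := by
      rw [div_le_iff₀ (by positivity)]
      linarith
    calc |A| ^ r * (C / (2 ^ k) ^ r) = C * (|A| / 2 ^ k) ^ r := by
          rw [div_pow]
          ring
      _ ≤ C * (1 / 2) ^ r := by
          apply mul_le_mul_of_nonneg_left _ hC.le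
          exact pow_le_pow_left₀ (by positivity) h4 r

end Pool.Agent.TH344.DT
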