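import Mathlib
import Pool.Agent.TH344.DT.Rho
import Pool.Agent.W215.FK.MAF

/-! Project DT: the main average with the weight. -/

set_option autoImplicit false

namespace Pool.Agent.TH344.DT

open Finset Pool.Agent.W262.RK Pool.Agent.W307.RT Pool.Agent.W307.RS Pool.Agent.W307.SE
  Pool.Agent.W307.FK

/-- the number of the prime factors of a product of coprime numbers -/
lemma card_pf_prod {α : Type} [DecidableEq α] (s : Finset α) (d : α → ℕ)
    (h0 : ∀ i ∈ s, d i ≠ 0) (hc : ∀ i ∈ s, ∀ j ∈ s, i ≠ j → (d i).Coprime (d j)) :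
    (∏ i ∈ s, d i).primeFactors.card = ∑ i ∈ s, (d i).primeFactors.card := by
  induction s using Finset.induction_on with
  | empty => simp
  | insert a s ha ih =>
    rw [prod_insert ha, sum_insert ha, Nat.Coprime.primeFactors_mul, card_union_of_disjoint, ih]
    · exact fun i hi => h0 i (mem_insert_of_mem hi)
    · exact fun i hi j hj => hc i (mem_insert_of_mem hi) j (mem_insert_of_mem hj)
    · apply Nat.Coprime.disjoint_primeFactors
      exact Nat.Coprime.prod_right fun i hi => hc a (mem_insert_self _ _) i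
        (mem_insert_of_mem hi) (fun h => ha (h ▸ hi))
    · exact Nat.Coprime.prod_right fun i hi => hc a (mem_insert_self _ _) i
        (mem_insert_of_mem hi) (fun h => ha (h ▸ hi))

lemma om_class {k : ℕ} {z y : ℕ} {d : IF k → ℕ} (hd : d ∈ Tup (IF k) z y) :
    om (fun j : Fin 3 => ∏ i ∈ univ.filter (fun i : IF k => i.1.1 = j), d i) =
      nn (fun i : IF k => i.1.1) (om d) := by
  classical
  unfold Tup at hd
  rw [mem_filter, Fintype.mem_piFinset] at hd
  funext j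
  unfold om nn
  apply card_pf_prod
  · intro i _
    exact dv_ne_zero (hd.1 i)
  · intro i _ i' _ h
    exact hd.2 i i' h

theorem mafw_of (hA : S_ATW) (hC : S_CMB) (hE : S_EXPW) (k : ℕ) (hk : 1 ≤ k) :
    ∃ T : Finset (Fin 3 → ℝ), (∀ t ∈ T, ∀ j, 0 < t j) ∧ (∀ t ∈ T, 1 < ∏ j, t j) ∧ MAFW k T := by
  classical
  obtain ⟨T, hT1, hT2, hU⟩ := hC k hk
  refine ⟨T, hT1, hT2, ?_⟩
  have hw : (0 : ℝ) < 1 / 2 ^ k ∧ (1 / 2 ^ k : ℝ) ≤ 1 / 2 := by
    refine ⟨by positivity, ?_⟩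
    apply one_div_le_one_div_of_le (by norm_num)
    calc (2 : ℝ) = 2 ^ 1 := (pow_one 2).symm
      _ ≤ 2 ^ k := pow_le_pow_right₀ (by norm_num) hk
  obtain ⟨z0, hz0⟩ := hA (Fin 3) (IF k) (fun i => i.1.1) (fun _ => 1 / 2 ^ k) (Lk k) (fun _ => 1)
    (Fintype.card (Fin 3)) ((Fintype.card (Fin 3) : ℕ) : ℝ) T (fun _ => hw)
    (Pool.Agent.W215.FK.Lk_self k) (fun _ => one_ne_zero) (by positivity) hT1 (fun U hun => by
      have h3 : ((Fintype.card (Fin 3) : ℕ) : ℝ) = 3 := by simp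
      rw [h3]
      rcases hU U hun with ⟨t, ht, h⟩ | ⟨h4, h5, h6⟩
      · exact Or.inl ⟨t, ht, h⟩
      · exact Or.inr ⟨h4, h5, h6⟩)
  refine ⟨max z0 2, fun z hz => ?_⟩
  obtain ⟨C, hC'⟩ := hz0 z (le_trans (le_max_left _ _) hz)
  refine ⟨C, fun y hy => ?_⟩
  have hz2 : 2 ≤ z := le_trans (le_max_right _ _) hz
  have e1 : ∑ s ∈ Tup (Fin 3) z y,
      NF k s * rho T (om s) * ∏ j, gw 1 (Fintype.card (Fin 3)) (s j) =
      ∑ s ∈ Tup (Fin 3) z y,
      NF k s * (∏ j, gw 1 (Fintype.card (Fin 3)) (s j)) * rho T (om s) := by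
    apply sum_congr rfl
    intro s _
    ring
  have e2 : ∑ d ∈ Tup (IF k) z y, (∏ i, gw (1 / 2 ^ k) (Fintype.card (Fin 3)) (d i)) *
      Sym (Lk k) (fun _ => 1) d * rho T (om (fun j : Fin 3 =>
        ∏ i ∈ univ.filter (fun i : IF k => i.1.1 = j), d i)) =
      ∑ d ∈ Tup (IF k) z y, (∏ i, gw (1 / 2 ^ k) (Fintype.card (Fin 3)) (d i)) *
      Sym (Lk k) (fun _ => 1) d * rho T (nn (fun i : IF k => i.1.1) (om d)) := by
    apply sum_congr rfl
    intro d hd
    rw [om_class hd]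
  rw [e1, hE k (Fintype.card (Fin 3)) z y hz2 (fun s => rho T (om s)), e2]
  refine (le_trans (le_abs_self _) (hC' y hy)).trans (le_of_eq ?_)
  rw [Real.rpow_natCast]

end Pool.Agent.TH344.DT
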