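import Pool.Agent.TH344.DT.Stm
import Pool.Agent.W307.FK.Main

/-! Project DT: the 2-Selmer groups are bounded by the local count. -/

set_option autoImplicit false

namespace Pool.Agent.TH344.DT

open Finset Pool.Agent.W262.RK Pool.Agent.W307.RT Pool.Agent.W307.RS Pool.Agent.W307.SE
  Pool.Agent.W307.FK

theorem selfg : Pool.Agent.W307.FK.G.SELFG (fun a b => (Sel a b).ncard) :=
  fun f D z y X k B h1 h2 h3 h4 h5 h6 h7 h8 =>
    (Pool.Agent.W293.FK.Self.self_of Pool.Agent.W940.FK.subl f D z y X k B h1 h2 h3 h4 h5 h6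
      h7 h8).2

end Pool.Agent.TH344.DT
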