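import Pool.Agent.TH344.DT.Atw
import Pool.Agent.TH344.DT.Mafw
import Pool.Agent.TH344.DT.Out
import Pool.Agent.TH344.DT.Fin2
import Pool.Agent.TH344.DT.Self
import Pool.Agent.TH344.DT.Expw
import Pool.Agent.TH344.DT.Avg
import Pool.Agent.TH344.DT.Fin
import Pool.Agent.TH344.DT.Bad
import Pool.Agent.TH344.DT.Cmb
import Pool.Agent.TH344.DT.Ful
import Pool.Agent.TH344.DT.Lnk

/-! Project DT: the moments of the 2-Selmer groups outside of a set of density zero. -/

set_option autoImplicit false

namespace Pool.Agent.TH344.DT

/-- **the moments outside of a set of density zero** -/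
theorem exc : S_EXC :=
  exc_of (fun k hk => mafw_of (atw_of ful lnk) cmb expw k hk) avg selfg fin bad
    Pool.Agent.W672.FK.lowf

end Pool.Agent.TH344.DT
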