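import Mathlib
import Pool.Agent.TH344.DT.Main
import Pool.Agent.TH344.GT.Cur

/-!
# Project DT: the quadratic twists by a fixed integer of all the curves with full 2-torsion
-/

set_option autoImplicit false

namespace Pool.Agent.TH344.DT

open Finset Pool.Agent.W262.RK Pool.Agent.W307.RT Pool.Agent.W307.RS Pool.Agent.W307.SE
  Pool.Agent.W307.FK Pool.Agent.W410.FK Pool.Agent.TH344.GT

open Classical in
/-- the `k`-th power of the order of the 2-Selmer group of `y² = x (x - D a) (x - D b)` with the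
weight -/
noncomputable def GkD (D : ℤ) (k : ℕ) (T : Finset (Fin 3 → ℝ)) (t : ℤ × ℤ) : ℝ :=
  if t.1 ≠ 0 ∧ t.2 ≠ 0 ∧ t.1 ≠ t.2 then
    ((Sel (D * t.1) (D * t.2)).ncard : ℝ) ^ k * rho T (omg t) else 0

variable {T : Finset (Fin 3 → ℝ)}

lemma GkD_nonneg (D : ℤ) (hT : ∀ t ∈ T, ∀ j, 0 < t j) (k : ℕ) (t : ℤ × ℤ) : 0 ≤ GkD D k T t := by
  unfold GkD
  split_ifs
  · exact mul_nonneg (by positivity) (rho_nonneg hT _)
  · exact le_rfl

lemma box_GkD {D : ℤ} (hD : D ≠ 0) (hT : ∀ t ∈ T, ∀ j, 0 < t j) (k : ℕ)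
    (h1 : AVGW k T (fun a b => (Sel a b).ncard)) :
    ∃ C : ℝ, 0 ≤ C ∧ ∀ N : ℕ, 1 ≤ N → ∑ t ∈ Box N, GkD D k T t ≤ C * (N : ℝ) ^ 2 := by
  classical
  obtain ⟨C1, hC1, h1⟩ := h1 1
  obtain ⟨C2, hC2, h2⟩ := FinP.som8 k
  set CD : ℝ := (2 * 8 ^ k) ^ D.natAbs.primeFactors.card with hCD
  have hCD0 : 0 ≤ CD := by positivity
  refine ⟨9 * (C1 * CD) * C2, by positivity, fun N hN => ?_⟩
  -- decomposition with respect to the greatest common divisor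
  set S := (Box N).filter fun t : ℤ × ℤ => t.1 ≠ 0 ∧ t.2 ≠ 0 ∧ t.1 ≠ t.2 with hS
  have e1 : ∑ t ∈ Box N, GkD D k T t = ∑ t ∈ S, GkD D k T t := by
    symm
    apply sum_subset (filter_subset _ _)
    intro t ht ht2
    unfold GkD
    rw [if_neg]
    intro h
    exact ht2 (mem_filter.2 ⟨ht, h⟩)
  let F : ℤ × ℤ → (Σ _ : ℕ, ℤ × ℤ) := fun t =>
    ⟨Int.gcd t.1 t.2, (t.1 / (Int.gcd t.1 t.2 : ℤ), t.2 / (Int.gcd t.1 t.2 : ℤ))⟩
  have hdiv : ∀ t : ℤ × ℤ, (Int.gcd t.1 t.2 : ℤ) * (t.1 / (Int.gcd t.1 t.2 : ℤ)) = t.1 ∧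
      (Int.gcd t.1 t.2 : ℤ) * (t.2 / (Int.gcd t.1 t.2 : ℤ)) = t.2 := fun t =>
    ⟨Int.mul_ediv_cancel' (Int.gcd_dvd_left _ _), Int.mul_ediv_cancel' (Int.gcd_dvd_right _ _)⟩
  have hinj : Set.InjOn F S := by
    intro t _ t' _ h
    have g1 : Int.gcd t.1 t.2 = Int.gcd t'.1 t'.2 := congrArg Sigma.fst h
    have g2 : (t.1 / (Int.gcd t.1 t.2 : ℤ), t.2 / (Int.gcd t.1 t.2 : ℤ)) =
        (t'.1 / (Int.gcd t'.1 t'.2 : ℤ), t'.2 / (Int.gcd t'.1 t'.2 : ℤ)) :=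
      congrArg (fun x : (Σ _ : ℕ, ℤ × ℤ) => x.2) h
    rw [Prod.mk.injEq] at g2
    obtain ⟨a1, a2⟩ := hdiv t
    obtain ⟨b1, b2⟩ := hdiv t'
    ext
    · rw [← a1, ← b1, g2.1, g1]
    · rw [← a2, ← b2, g2.2, g1]
  have hmem : ∀ t ∈ S, F t ∈ (Icc 1 N).sigma (fun g => Box (N / g)) ∧
      GkD D k T t = SW k T (fun a b => (Sel a b).ncard) (D * ((F t).1 : ℤ)) (F t).2 := by
    intro t ht
    obtain ⟨ht1, t1, t2, t3⟩ := mem_filter.1 ht
    rw [mem_Box] at ht1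
    obtain ⟨a1, a2⟩ := hdiv t
    have hg0 : 0 < Int.gcd t.1 t.2 := Int.gcd_pos_of_ne_zero_left _ t1
    have hgT : Int.gcd t.1 t.2 ≤ N := by
      have : Int.gcd t.1 t.2 ≤ t.1.natAbs :=
        Nat.le_of_dvd (by omega) (Int.natCast_dvd.1 (Int.gcd_dvd_left _ _))
      omega
    have hb : ∀ x y : ℤ, (Int.gcd t.1 t.2 : ℤ) * x = y → y.natAbs ≤ N →
        x.natAbs ≤ N / Int.gcd t.1 t.2 := by
      intro x y hxy hy
      rw [Nat.le_div_iff_mul_le hg0]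
      rw [← hxy, Int.natAbs_mul, Int.natAbs_natCast] at hy
      linarith
    refine ⟨?_, ?_⟩
    · rw [mem_sigma, mem_Icc, mem_Box]
      exact ⟨⟨hg0, hgT⟩, hb _ _ a1 ht1.1, hb _ _ a2 ht1.2⟩
    · unfold GkD SW
      rw [if_pos ⟨t1, t2, t3⟩, if_pos]
      · change _ = ((Sel (D * (Int.gcd t.1 t.2 : ℤ) * (t.1 / (Int.gcd t.1 t.2 : ℤ)))
          (D * (Int.gcd t.1 t.2 : ℤ) * (t.2 / (Int.gcd t.1 t.2 : ℤ)))).ncard : ℝ) ^ k *
            rho T (omg t)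
        rw [mul_assoc, mul_assoc, a1, a2]
      · refine ⟨?_, ?_, ?_, ?_⟩
        · exact Int.isCoprime_iff_gcd_eq_one.2 (Int.gcd_ediv_gcd_ediv_gcd hg0)
        · intro h
          apply t1
          change t.1 / (Int.gcd t.1 t.2 : ℤ) = 0 at h
          rw [← a1, h, mul_zero]
        · intro h
          apply t2
          change t.2 / (Int.gcd t.1 t.2 : ℤ) = 0 at h
          rw [← a2, h, mul_zero]
        · intro h
          apply t3
          change t.1 / (Int.gcd t.1 t.2 : ℤ) = t.2 / (Int.gcd t.1 t.2 : ℤ) at h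
          exact a1.symm.trans ((congrArg (fun x => (Int.gcd t.1 t.2 : ℤ) * x) h).trans a2)
  have e2 : ∑ t ∈ S, GkD D k T t ≤
      ∑ x ∈ (Icc 1 N).sigma (fun g => Box (N / g)),
        SW k T (fun a b => (Sel a b).ncard) (D * (x.1 : ℤ)) x.2 := by
    calc ∑ t ∈ S, GkD D k T t =
          ∑ t ∈ S, SW k T (fun a b => (Sel a b).ncard) (D * ((F t).1 : ℤ)) (F t).2 :=
          sum_congr rfl fun t ht => (hmem t ht).2
      _ = ∑ x ∈ S.image F, SW k T (fun a b => (Sel a b).ncard) (D * (x.1 : ℤ)) x.2 := by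
          rw [sum_image hinj]
      _ ≤ _ := sum_le_sum_of_subset_of_nonneg (fun x hx => by
          obtain ⟨t, ht, rfl⟩ := mem_image.1 hx
          exact (hmem t ht).1) fun x _ _ => FinP.SW_nonneg hT _ _ _ _
  rw [e1]
  refine e2.trans ?_
  rw [sum_sigma]
  have hω : ∀ g : ℕ, g ≠ 0 → (2 * 8 ^ k : ℝ) ^ (D * (g : ℤ)).natAbs.primeFactors.card ≤
      CD * (2 * 8 ^ k) ^ g.primeFactors.card := by
    intro g hg
    rw [hCD, ← pow_add]
    apply pow_le_pow_right₀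
    · have : (1 : ℝ) ≤ 8 ^ k := one_le_pow₀ (by norm_num)
      linarith
    · rw [Int.natAbs_mul, Int.natAbs_natCast, Nat.primeFactors_mul (by omega) hg]
      exact card_union_le _ _
  have e3 : ∀ g ∈ Icc 1 N, ∑ s ∈ Box (N / g),
      SW k T (fun a b => (Sel a b).ncard) (D * (g : ℤ)) s ≤
      9 * (C1 * CD) * (N : ℝ) ^ 2 * ((2 * 8 ^ k : ℝ) ^ g.primeFactors.card / (g : ℝ) ^ 2) := by
    intro g hg
    rw [mem_Icc] at hg
    have hg0 : (0 : ℝ) < g := by exact_mod_cast hg.1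
    have hgz : g ≠ 0 := by omega
    have h3 := box_uni (g := SW k T (fun a b => (Sel a b).ncard) (D * (g : ℤ)))
      (A := C1 * (CD * (2 * 8 ^ k) ^ g.primeFactors.card)) (by positivity)
      (fun N1 N2 X hX b1 b2 => by
        have := h1 (D * (g : ℤ)) N1 N2 X
          (mul_ne_zero hD (by exact_mod_cast hgz)) hX b1 b2
        refine this.trans ?_
        apply mul_le_mul_of_nonneg_right _ (by positivity)
        exact mul_le_mul_of_nonneg_left (hω g hgz) hC1) (T := N / g)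
        ((Nat.one_le_div_iff hg.1).2 hg.2)
    refine h3.trans ?_
    have h4 : (((N / g : ℕ) : ℝ)) ^ 2 ≤ ((N : ℝ) / g) ^ 2 :=
      pow_le_pow_left₀ (Nat.cast_nonneg _) Nat.cast_div_le 2
    calc C1 * (CD * (2 * 8 ^ k) ^ g.primeFactors.card) * (9 * (((N / g : ℕ) : ℝ)) ^ 2)
        ≤ C1 * (CD * (2 * 8 ^ k) ^ g.primeFactors.card) * (9 * ((N : ℝ) / g) ^ 2) := by gcongr
      _ = _ := by
        field_simp
  refine (sum_le_sum e3).trans ?_
  rw [← mul_sum]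
  calc 9 * (C1 * CD) * (N : ℝ) ^ 2 *
        ∑ g ∈ Icc 1 N, (2 * 8 ^ k : ℝ) ^ g.primeFactors.card / (g : ℝ) ^ 2
      ≤ 9 * (C1 * CD) * (N : ℝ) ^ 2 * C2 := mul_le_mul_of_nonneg_left (h2 N) (by positivity)
    _ = 9 * (C1 * CD) * C2 * (N : ℝ) ^ 2 := by ring

/-- the roots of the twist -/
lemma tw_roots {A B e1 e2 e3 : ℤ} (hr : ∀ x : ℤ, x ^ 3 + A * x + B = (x - e1) * (x - e2) * (x - e3))
    (D : ℤ) (x : ℤ) : x ^ 3 + (D ^ 2 * A) * x + D ^ 3 * B =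
      (x - D * e1) * (x - D * e2) * (x - D * e3) := by
  have h0 := hr 0
  have h1 := hr 1
  have h2 := hr (-1)
  have hs : e1 + e2 + e3 = 0 := by linarith
  have hA : A = e1 * e2 + e1 * e3 + e2 * e3 := by linarith
  have hB : B = -(e1 * e2 * e3) := by linarith
  have he3 : e3 = -e1 - e2 := by linarith
  rw [hA, hB, he3]
  ring

lemma card_filter_imp {α : Type} {s : Finset α} {p q : α → Prop} (i1 : DecidablePred p)
    (i2 : DecidablePred q) (h : ∀ x ∈ s, p x → q x) : (s.filter p).card ≤ (s.filter q).card := by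
  apply card_le_card
  intro x hx
  rw [mem_filter] at hx ⊢
  exact ⟨hx.1, h x hx.1 hx.2⟩

open scoped Classical in
/-- **one exceptional set for all the moments, for the twists by `D`** -/
theorem exc_tw {D : ℤ} (hD : D ≠ 0) :
    EXC (Cv 2) (fun c => (SelR (D ^ 2 * c.1) (D ^ 3 * c.2)).ncard) := by
  obtain ⟨F, hinj, hF⟩ := Pool.Agent.W513.FK.parf
  have hmem : ∀ H, ∀ c ∈ Cv 2 H, 4 * c.1 ^ 3 + 27 * c.2 ^ 2 ≠ 0 ∧ 4 * |c.1| ^ 3 ≤ H ∧
      HasT 2 (Sh c.1 c.2) := by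
    intro H c hc
    unfold Cv at hc
    obtain ⟨_, a1, a2, _, _, a3⟩ := mem_filter.1 hc
    exact ⟨a1, a2, a3⟩
  let F' : ℤ × ℤ → ℤ × ℤ := fun c => (((F c).1 : ℤ) * (F c).2.1, ((F c).1 : ℤ) * (F c).2.2)
  have key : ∀ H, ∀ c ∈ Cv 2 H,
      ((F' c).1 ≠ 0 ∧ (F' c).2 ≠ 0 ∧ (F' c).1 ≠ (F' c).2) ∧
      ((SelR (D ^ 2 * c.1) (D ^ 3 * c.2)).ncard : ℝ) ≤
        ((Sel (D * (F' c).1) (D * (F' c).2)).ncard : ℝ) ∧
        (F' c).1.natAbs ^ 6 ≤ 16 * H ∧ (F' c).2.natAbs ^ 6 ≤ 16 * H := by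
    intro H c hc
    obtain ⟨a1, a2, a3⟩ := hmem H c hc
    obtain ⟨b1, b2, b3, b4, b5, e1, e2, e3, hr, d1, d2⟩ := hF c a1 a3
    have hg : ((F c).1 : ℤ) ≠ 0 := by exact_mod_cast (by omega : (F c).1 ≠ 0)
    have hne1 : (F' c).1 ≠ 0 := mul_ne_zero hg b3
    have hne2 : (F' c).2 ≠ 0 := mul_ne_zero hg b4
    have hne3 : (F' c).1 ≠ (F' c).2 := fun h => b5 (mul_left_cancel₀ hg h)
    have hfin := sel_fin seld (mul_ne_zero hD hne1) (mul_ne_zero hD hne2)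
      (fun h => hne3 (mul_left_cancel₀ hD h))
    have hdisc : 4 * (D ^ 2 * c.1) ^ 3 + 27 * (D ^ 3 * c.2) ^ 2 ≠ 0 := by
      have : 4 * (D ^ 2 * c.1) ^ 3 + 27 * (D ^ 3 * c.2) ^ 2 =
        D ^ 6 * (4 * c.1 ^ 3 + 27 * c.2 ^ 2) := by ring
      rw [this]
      exact mul_ne_zero (pow_ne_zero 6 hD) a1
    obtain ⟨f1, f2⟩ := Pool.Agent.W597.SE.selc (D ^ 2 * c.1) (D ^ 3 * c.2) (D * e1) (D * e2)
      (D * e3) (D * (F' c).1) (D * (F' c).2) 1 hdisc (tw_roots hr D) one_ne_zero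
      (by
        have : D * e2 - D * e1 = D * (F' c).1 := by
          rw [← mul_sub, d1]
        rw [this, one_pow, mul_one])
      (by
        have : D * e3 - D * e1 = D * (F' c).2 := by
          rw [← mul_sub, d2]
        rw [this, one_pow, mul_one]) hfin
    obtain ⟨r1, r2⟩ := root_bd hr
    refine ⟨⟨hne1, hne2, hne3⟩, ?_, ?_, ?_⟩
    · exact_mod_cast f2
    · rw [d1] at r1
      exact size_bd r1 a2
    · rw [d2] at r2
      exact size_bd r2 a2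
  have hinj' : ∀ H, Set.InjOn F' (Cv 2 H : Set (ℤ × ℤ)) := by
    intro H c hc c' hc' h
    obtain ⟨a1, _, a3⟩ := hmem H c hc
    obtain ⟨a1', _, a3'⟩ := hmem H c' hc'
    obtain ⟨b1, b2, _⟩ := hF c a1 a3
    obtain ⟨b1', b2', _⟩ := hF c' a1' a3'
    apply hinj ⟨a1, a3⟩ ⟨a1', a3'⟩
    have hgcd : ∀ x : ℕ × ℤ × ℤ, IsCoprime x.2.1 x.2.2 →
        Int.gcd ((x.1 : ℤ) * x.2.1) ((x.1 : ℤ) * x.2.2) = x.1 := by
      intro x hx
      rw [Int.gcd_mul_left, Int.isCoprime_iff_gcd_eq_one.1 hx, mul_one, Int.natAbs_natCast]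
    have g1 : (F c).1 = (F c').1 := by
      rw [← hgcd _ b2, ← hgcd _ b2']
      have k1 := congrArg Prod.fst h
      have k2 := congrArg Prod.snd h
      change ((F c).1 : ℤ) * (F c).2.1 = ((F c').1 : ℤ) * (F c').2.1 at k1
      change ((F c).1 : ℤ) * (F c).2.2 = ((F c').1 : ℤ) * (F c').2.2 at k2
      rw [k1, k2]
    have hg : ((F c).1 : ℤ) ≠ 0 := by exact_mod_cast (by omega : (F c).1 ≠ 0)
    have k1 : ((F c).1 : ℤ) * (F c).2.1 = ((F c').1 : ℤ) * (F c').2.1 := congrArg Prod.fst h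
    have k2 : ((F c).1 : ℤ) * (F c).2.2 = ((F c').1 : ℤ) * (F c').2.2 := congrArg Prod.snd h
    rw [← g1] at k1 k2
    exact Prod.ext g1 (Prod.ext (mul_left_cancel₀ hg k1) (mul_left_cancel₀ hg k2))
  apply exc_curves (κ := 6) (by norm_num) Pool.Agent.W672.FK.lowf 16 F'
    (fun t => t.1 ≠ 0 ∧ t.2 ≠ 0 ∧ t.1 ≠ t.2)
  · exact hinj'
  · intro H c hc
    obtain ⟨k1, -, k3, k4⟩ := key H c hc
    exact ⟨k1, k3, k4⟩
  · intro k hk
    obtain ⟨T, hT1, hT2, hM⟩ := mafw_of (atw_of ful lnk) cmb expw k hk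
    have hA : AVGW k T (fun a b => (Sel a b).ncard) := avg k T hT1 hM _ selfg
    refine ⟨fun t => rho T (omg t), GkD D k T, fun t => ⟨rho_nonneg hT1 _, rho_le_one _ _⟩,
      GkD_nonneg D hT1 k, fun ε hε => ?_, fun H c hc => ?_, box_GkD hD hT1 k hA⟩
    · obtain ⟨N0, h⟩ := bad T hT1 hT2 ε hε
      refine ⟨N0, fun N hN => le_trans (Nat.cast_le.2 (card_filter_imp _ _ ?_)) (h N hN)⟩
      rintro t - ⟨⟨h1, h2, h3⟩, h4⟩
      exact ⟨h1, h2, h3, h4⟩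
    · obtain ⟨k1, k2, -, -⟩ := key H c hc
      unfold GkD
      rw [if_pos k1]
      exact mul_le_mul_of_nonneg_right (pow_le_pow_left₀ (Nat.cast_nonneg _) k2 k)
        (rho_nonneg hT1 _)

end Pool.Agent.TH344.DT
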